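import Pool.Agent.Work.MP_a60482_ex2.Interface
import Pool.Agent.Work.MP_a60482_exo.GRA

/-!
# MP_a60482 ex2, block BETTI: some Betti number changes
-/

open CategoryTheory MonoidalCategory CartesianMonoidalCategory

universe u v w x

namespace Pool.Exo

open Pool.KC

namespace BETTIAux

/-- the trace of the square of an operator acting as `j` on the `j`-th summand -/
theorem trace_sq {W : Type w} [AddCommGroup W] [Module ℂ W] [FiniteDimensional ℂ W]
    (S : ℕ → Submodule ℂ W) (hS : DirectSum.IsInternal S) (A : Module.End ℂ W)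
    (hA : ∀ j, S j ≤ A.eigenspace (j : ℂ)) (s : Finset ℕ) (hs : ∀ j, S j ≠ ⊥ → j ∈ s) :
    LinearMap.trace ℂ W (A * A) = ∑ j ∈ s, (j : ℂ) ^ 2 * (Module.finrank ℂ (S j) : ℂ) := by
  have hact : ∀ j, ∀ a ∈ S j, (A * A) a = ((j : ℂ) ^ 2) • a := by
    intro j a ha
    have h1 : A a = (j : ℂ) • a := Module.End.mem_eigenspace_iff.1 (hA j ha)
    rw [Module.End.mul_apply, h1, map_smul, h1, smul_smul, pow_two]
  have hmaps : ∀ j, Set.MapsTo (A * A) (S j) (S j) := by
    intro j a ha
    have h2 := hact j a ha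
    rw [h2]
    exact (S j).smul_mem _ ha
  have hN : {j | S j ≠ ⊥}.Finite := s.finite_toSet.subset fun j hj => hs j hj
  rw [LinearMap.trace_eq_sum_trace_restrict' hS hN hmaps]
  have hterm : ∀ j, LinearMap.trace ℂ (S j) ((A * A).restrict (hmaps j)) =
      (j : ℂ) ^ 2 * (Module.finrank ℂ (S j) : ℂ) := by
    intro j
    have h3 : (A * A).restrict (hmaps j) = ((j : ℂ) ^ 2) • (LinearMap.id : S j →ₗ[ℂ] S j) := by
      ext a
      change (A * A) (a : W) = _
      rw [hact j a a.2]
      rfl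
    rw [h3, map_smul, LinearMap.trace_id, smul_eq_mul]
  rw [Finset.sum_congr rfl fun j _ => hterm j]
  refine Finset.sum_subset ?_ ?_
  · intro j hj
    exact hs j (hN.mem_toFinset.1 hj)
  · intro j _ hj
    have h4 : S j = ⊥ := by
      by_contra h5
      exact hj (hN.mem_toFinset.2 h5)
    rw [h4, finrank_bot, Nat.cast_zero, mul_zero]

variable {V : Type u} [Category.{v} V] [CartesianMonoidalCategory V]
variable {D : WeilData.{u, v, w, 0} V ℂ}

/-- families in `MotDer` commute with the degree operator -/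
theorem comm_degOp (hD : D.IsWeil) {T : D.Fam} (hT : D.MotDer T) (X : V) :
    T X * GRAAux.degOp hD X = GRAAux.degOp hD X * T X := by
  ext a
  rw [Module.End.mul_apply, Module.End.mul_apply]
  refine (WeilData.toCoh hD).hind (X := X)
    (P := fun a => T X (GRAAux.degOp hD X a) = GRAAux.degOp hD X (T X a)) ?_ ?_ ?_ a
  · rw [map_zero, map_zero, map_zero]
  · intro i a ha
    have ha' : a ∈ D.deg X i := ha
    rw [GRAAux.degOp_apply hD X i a ha', map_smul,
      GRAAux.degOp_apply hD X i _ (hT.deg X i a ha')]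
  · intro a b ha hb
    rw [map_add, map_add, map_add, map_add, ha, hb]

end BETTIAux

open BETTIAux

theorem blk_BETTI {V : Type u} [Category.{v} V] [CartesianMonoidalCategory V]
    {D : WeilData.{u, v, w, 0} V ℂ} (hD : D.IsWeil) : Stmt_BETTI D := by
  intro d T E F g Y hd hT hE hF hdiag hs hg hEF htr
  by_contra hcon
  push Not at hcon
  have : FiniteDimensional ℂ (D.H Y) := (D.R Y).fin
  -- the new grading
  have hint1 : DirectSum.IsInternal (D.rdeg T Y) :=
    (DirectSum.isInternal_submodule_iff_iSupIndep_and_iSup_eq_top _).2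
      ⟨GRAAux.indep hD T Y, GRAAux.sup_top hD hd hT hdiag hs Y⟩
  have hint2 : DirectSum.IsInternal (D.deg Y) :=
    DirectSum.Decomposition.isInternal (D.R Y).deg
  have hfin1 : {j | D.rdeg T Y j ≠ ⊥}.Finite :=
    WellFoundedGT.finite_ne_bot_of_iSupIndep hint1.submodule_iSupIndep
  have hfin2 : {j | D.deg Y j ≠ ⊥}.Finite :=
    WellFoundedGT.finite_ne_bot_of_iSupIndep hint2.submodule_iSupIndep
  set s : Finset ℕ := hfin1.toFinset ∪ hfin2.toFinset with hsdef
  have hs1 : ∀ j, D.rdeg T Y j ≠ ⊥ → j ∈ s := fun j hj =>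
    Finset.mem_union_left _ (hfin1.mem_toFinset.2 hj)
  have hs2 : ∀ j, D.deg Y j ≠ ⊥ → j ∈ s := fun j hj =>
    Finset.mem_union_right _ (hfin2.mem_toFinset.2 hj)
  have e1 := trace_sq (D.rdeg T Y) hint1 (GRAAux.NOp hD T Y)
    (fun j => GRAAux.rdeg_le hD T Y j) s hs1
  have e2 := trace_sq (D.deg Y) hint2 (GRAAux.degOp hD Y)
    (fun j a ha => Module.End.mem_eigenspace_iff.2 (GRAAux.degOp_apply hD Y j a ha)) s hs2
  have hb : ∀ j, Module.finrank ℂ (D.rdeg T Y j) = Module.finrank ℂ (D.deg Y j) := by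
    intro j
    have h1 : Module.finrank ℂ (g.deg Y j) = Module.finrank ℂ (D.deg Y j) := hcon j
    rw [← h1, hg Y j]
  have e3 : LinearMap.trace ℂ (D.H Y) (GRAAux.NOp hD T Y * GRAAux.NOp hD T Y) =
      LinearMap.trace ℂ (D.H Y) (GRAAux.degOp hD Y * GRAAux.degOp hD Y) := by
    rw [e1, e2]
    refine Finset.sum_congr rfl fun j _ => ?_
    rw [hb j]
  have e4 : GRAAux.NOp hD T Y * GRAAux.NOp hD T Y =
      GRAAux.degOp hD Y * GRAAux.degOp hD Y +
        (4 : ℂ) • (GRAAux.degOp hD Y * T Y) + (4 : ℂ) • (T Y * T Y) := by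
    unfold GRAAux.NOp
    rw [add_mul, mul_add, mul_add, smul_mul_assoc, smul_mul_assoc, mul_smul_comm, mul_smul_comm,
      comm_degOp hD hT Y]
    module
  have e5 : LinearMap.trace ℂ (D.H Y) (GRAAux.degOp hD Y * T Y) = 0 := by
    rw [← hEF, mul_sub, map_sub]
    have h6 : LinearMap.trace ℂ (D.H Y) (GRAAux.degOp hD Y * (F Y * E Y)) =
        LinearMap.trace ℂ (D.H Y) (GRAAux.degOp hD Y * (E Y * F Y)) := by
      rw [← mul_assoc, LinearMap.trace_mul_comm, ← mul_assoc, comm_degOp hD hE Y, mul_assoc]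
    rw [h6, sub_self]
  rw [e4, map_add, map_add, map_smul, map_smul, e5, smul_zero, add_zero, smul_eq_mul] at e3
  have e6 : (4 : ℂ) * LinearMap.trace ℂ (D.H Y) (T Y * T Y) = 0 := by
    have := congrArg (fun z => z - LinearMap.trace ℂ (D.H Y)
      (GRAAux.degOp hD Y * GRAAux.degOp hD Y)) e3
    simpa using this
  rcases mul_eq_zero.1 e6 with h | h
  · norm_num at h
  · exact htr h

end Pool.Exo
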