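import Pool.Agent.Work.MP_a60482_exo.Lef

/-!
# Hodge structures on a Weil cohomology theory, exotic gradings

`HodgeStr D`, `HodgeStr.IsPolarizable`: the cohomology `H(X)` (with complex coefficients) is the
complexification of polarizable effective rational Hodge structures.

`HodgeStr.InHodgeLie`: the (complexified) Lie algebra of the Hodge group of `H(X)`.

`Exotic r D Y`: `D` has a second grading for which `C(Y)` fails.
-/

open CategoryTheory MonoidalCategory CartesianMonoidalCategory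

universe u v w x

namespace Pool.Exo

open Pool.KC

/-! ### Hodge structures on a complex vector space

`Q`: the group of rational vectors, `c`: complex conjugation, `H p q`: the vectors of type
`(p, q)`. -/

section Lin

variable {W : Type w} [AddCommGroup W] [Module ℂ W]

/-- `L` is closed under commutators. -/
def LieClosed (L : Submodule ℂ (Module.End ℂ W)) : Prop :=
  ∀ A ∈ L, ∀ B ∈ L, A * B - B * A ∈ L

/-- `L` is spanned by the operators in `L` which map rational vectors to rational vectors. -/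
def RatSpanned (Q : AddSubgroup W) (L : Submodule ℂ (Module.End ℂ W)) : Prop :=
  L ≤ Submodule.span ℂ {A | A ∈ L ∧ ∀ x ∈ Q, A x ∈ Q}

/-- `N` is the operator equal to `p - q` on the vectors of type `(p, q)`. -/
def IsHodgeOp (H : ℕ → ℕ → Submodule ℂ W) (N : Module.End ℂ W) : Prop :=
  ∀ p q : ℕ, ∀ a ∈ H p q, N a = ((p : ℂ) - q) • a

/-- `T` belongs to the complexification of the smallest rational Lie algebra of operators which
contains, after complexification, the operator equal to `p - q` on the vectors of type `(p, q)`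
(this is the Lie algebra of the Hodge group). -/
def HodgeLie (Q : AddSubgroup W) (H : ℕ → ℕ → Submodule ℂ W) (T : Module.End ℂ W) : Prop :=
  ∀ L : Submodule ℂ (Module.End ℂ W), LieClosed L → RatSpanned Q L →
    (∀ N, IsHodgeOp H N → N ∈ L) → T ∈ L

/-- `T` is of type `(r, -r)`: it maps `H p q` to `H (p + r) (q - r)` (to `0` if `q < r`). -/
def RaisesBy (H : ℕ → ℕ → Submodule ℂ W) (r : ℕ) (T : Module.End ℂ W) : Prop :=
  (∀ p q : ℕ, ∀ a ∈ H p (q + r), T a ∈ H (p + r) q) ∧
  ∀ p q : ℕ, q < r → ∀ a ∈ H p q, T a = 0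

/-- `ψ` is a polarization: a bilinear form, rational on rational vectors, for which `H p q` is
orthogonal to `H p' q'` if `(p', q') ≠ (q, p)`, and `i^(p-q) ψ(a, c a) > 0` for all
nonzero `a` in `H p q`. -/
structure Polarizes (Q : AddSubgroup W) (c : W →ₛₗ[starRingEnd ℂ] W)
    (H : ℕ → ℕ → Submodule ℂ W) (ψ : W →ₗ[ℂ] W →ₗ[ℂ] ℂ) : Prop where
  rat : ∀ a ∈ Q, ∀ b ∈ Q, ∃ q : ℚ, ψ a b = q
  types : ∀ p q p' q' : ℕ, (p', q') ≠ (q, p) → ∀ a ∈ H p q, ∀ b ∈ H p' q', ψ a b = 0
  pos : ∀ p q : ℕ, ∀ a ∈ H p q, a ≠ 0 →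
    ∃ t : ℝ, 0 < t ∧ Complex.I ^ p * (-Complex.I) ^ q * ψ a (c a) = t

/-- every operator on the subspace `M` which is skew for `ψ` is the restriction of an element of
the Lie algebra of the Hodge group -/
def FullOn (Q : AddSubgroup W) (H : ℕ → ℕ → Submodule ℂ W) (M : Submodule ℂ W)
    (ψ : W →ₗ[ℂ] W →ₗ[ℂ] ℂ) : Prop :=
  ∀ A : Module.End ℂ W, (∀ a ∈ M, A a ∈ M) → (∀ a ∈ M, ∀ b ∈ M, ψ (A a) b + ψ a (A b) = 0) →
    ∃ T, HodgeLie Q H T ∧ ∀ a ∈ M, T a = A a

/-- The Hodge group acts on the subspace `M` as the full isometry group of a polarization `ψ`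
which is alternating on `M` (as the symplectic group). -/
def SpOn (Q : AddSubgroup W) (c : W →ₛₗ[starRingEnd ℂ] W) (H : ℕ → ℕ → Submodule ℂ W)
    (M : Submodule ℂ W) : Prop :=
  ∃ ψ : W →ₗ[ℂ] W →ₗ[ℂ] ℂ, Polarizes Q c H ψ ∧ (∀ a ∈ M, ψ a a = 0) ∧ FullOn Q H M ψ

end Lin

variable {V : Type u} [Category.{v} V] [CartesianMonoidalCategory V]

/-- The data of Hodge structures on a Weil cohomology theory with complex coefficients:
the rational classes, complex conjugation, and the classes of type `(p, q)`. -/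
structure HodgeStr (D : WeilData.{u, v, w, 0} V ℂ) where
  rat : ∀ X : V, AddSubgroup (D.H X)
  bar : ∀ X : V, D.H X →ₛₗ[starRingEnd ℂ] D.H X
  hodge : ∀ X : V, ℕ → ℕ → Submodule ℂ (D.H X)

namespace HodgeStr

variable {D : WeilData.{u, v, w, 0} V ℂ} (S : HodgeStr D)

/-- The rational classes are the rational combinations of some basis of `H(X)`; their
homogeneous components, products, pull-backs and traces are rational, the algebraic classes are
spanned by rational ones, and `bar` is the complex conjugation. -/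
structure RatAxioms : Prop where
  basis : ∀ X : V, ∃ (n : ℕ) (b : Module.Basis (Fin n) ℂ (D.H X)), ∀ x : D.H X,
    x ∈ S.rat X ↔ ∀ i, ∃ q : ℚ, b.repr x i = q
  deg : ∀ (X : V) (i : ℕ), ∀ x ∈ S.rat X, GradedAlgebra.proj (D.R X).deg i x ∈ S.rat X
  mul : ∀ X : V, ∀ x ∈ S.rat X, ∀ y ∈ S.rat X, x * y ∈ S.rat X
  pull : ∀ (X Y : V) (f : X ⟶ Y), ∀ x ∈ S.rat Y, D.pb f x ∈ S.rat X
  int : ∀ X : V, ∀ x ∈ S.rat X, ∃ q : ℚ, D.int x = q
  alg : ∀ (X : V) (i : ℕ), D.C X i ≤ Submodule.span ℂ {x | x ∈ D.C X i ∧ x ∈ S.rat X}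
  bar : ∀ X : V, ∀ x ∈ S.rat X, S.bar X x = x

/-- The Hodge decomposition: `H(X)` is the direct sum of the `H^{p,q}(X)`, of degree `p + q`,
compatible with products, pull-backs, conjugation and traces; the algebraic classes are of
type `(i, i)`. -/
structure TypeAxioms : Prop where
  internal : ∀ X : V, DirectSum.IsInternal fun pq : ℕ × ℕ => S.hodge X pq.1 pq.2
  deg : ∀ (X : V) (p q : ℕ), S.hodge X p q ≤ D.deg X (p + q)
  mul : ∀ (X : V) (p q p' q' : ℕ), ∀ a ∈ S.hodge X p q, ∀ b ∈ S.hodge X p' q',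
    a * b ∈ S.hodge X (p + p') (q + q')
  pull : ∀ (X Y : V) (f : X ⟶ Y) (p q : ℕ), ∀ a ∈ S.hodge Y p q, D.pb f a ∈ S.hodge X p q
  bar : ∀ (X : V) (p q : ℕ), ∀ a ∈ S.hodge X p q, S.bar X a ∈ S.hodge X q p
  alg : ∀ (X : V) (i : ℕ), D.C X i ≤ S.hodge X i i
  int : ∀ (X : V) (p q : ℕ), p ≠ q → ∀ a ∈ S.hodge X p q, D.int a = 0

/-- `ψ` is a polarization of the rational Hodge structure `H(X)`. -/
abbrev IsPolarization (X : V) (ψ : D.H X →ₗ[ℂ] D.H X →ₗ[ℂ] ℂ) : Prop :=
  Polarizes (S.rat X) (S.bar X) (S.hodge X) ψ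

/-- `H` takes values in polarizable effective rational Hodge structures. -/
structure IsPolarizable : Prop where
  rat : S.RatAxioms
  types : S.TypeAxioms
  pol : ∀ X : V, ∃ ψ, S.IsPolarization X ψ

/-- `T` belongs to the (complexified) Lie algebra of the Hodge group of `H(X)`. -/
def InHodgeLie (X : V) (T : Module.End ℂ (D.H X)) : Prop := HodgeLie (S.rat X) (S.hodge X) T

/-- The operator `T` on `H(X)` is of type `(r, -r)`. -/
def Raises (X : V) (r : ℕ) (T : Module.End ℂ (D.H X)) : Prop := RaisesBy (S.hodge X) r T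

/-- The Lie algebra of the Hodge group of `H(X)` has a nonzero element of type `(r, -r)`. -/
def HasLevel (r : ℕ) (X : V) : Prop := ∃ T, S.InHodgeLie X T ∧ T ≠ 0 ∧ S.Raises X r T

/-- `H^{m,0}(X) ≠ 0`, and the Hodge group of `H(X)` acts on `H^m(X)` as the full isometry group
of a polarization of `H(X)` which is alternating on `H^m(X)`. -/
def BigSp (m : ℕ) (X : V) : Prop :=
  S.hodge X m 0 ≠ ⊥ ∧ SpOn (S.rat X) (S.bar X) (S.hodge X) (D.deg X m)

end HodgeStr

/-- `D` has a second grading `g` which makes it again a Weil cohomology theory (with the same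
algebras, pull-backs, traces, push-forwards and algebraic classes), with `H'^i = H^i` on all
varieties for `i + 2 < r` and the same parity of degrees, such that some Betti number of `Y`
changes, the Kuenneth standard conjecture `C(Y)` fails, and hard Lefschetz fails for `Y` and
every algebraic class of codimension `1`. -/
def Exotic (r : ℕ) (D : WeilData.{u, v, w, 0} V ℂ) (Y : V) : Prop :=
  ∃ g : D.Regrading, (D.regrade g).IsWeil ∧
    (∀ (X : V) (i : ℕ), i + 2 < r → g.deg X i = D.deg X i) ∧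
    (∀ (X : V) (i : ℕ), g.deg X i ≤ ⨆ (j : ℕ) (_ : j % 2 = i % 2), D.deg X j) ∧
    (∃ i, (D.regrade g).betti Y i ≠ D.betti Y i) ∧
    ¬ (D.regrade g).ConjC Y ∧
    ∀ l ∈ D.C Y 1, ¬ (D.regrade g).HardLefschetz Y l

end Pool.Exo
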