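import Pool.Agent.Work.MP_a60482_ex2.Interface

/-!
# Block G_FAMH: natural sl2-triples
-/

universe u v w x

namespace Pool.Exo

open Pool.KC

theorem blk_FAMH (hSt : Stmt_STAR.{w}) (hS : Stmt_SL2.{w}) (hL : Stmt_LIFT.{u, w}) :
    Stmt_FAMH.{u, w} := by
  intro I W _ _ st G hG N hN hNst y r hr T hT hT0 hNT
  have L := hL I W st G hG y
  have sa : ∀ i, StarApi (st i) := fun i => hSt (W i) (st i) (hG.star i)
  let Ly : Submodule ℂ (Module.End ℂ (W y)) :=
    { carrier := {A | ∃ T ∈ G, T y = A}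
      add_mem' := by
        rintro _ _ ⟨S, hS, rfl⟩ ⟨T, hT, rfl⟩
        exact ⟨_, hG.add S hS T hT, rfl⟩
      zero_mem' := ⟨_, hG.smul 0 T hT, zero_smul ℂ _⟩
      smul_mem' := by
        rintro c _ ⟨S, hS, rfl⟩
        exact ⟨_, hG.smul c S hS, rfl⟩ }
  have hcomm : ∀ A ∈ Ly, ∀ B ∈ Ly, A * B - B * A ∈ Ly := by
    rintro _ ⟨S, hS, rfl⟩ _ ⟨T, hT, rfl⟩
    exact ⟨_, hG.comm S hS T hT, rfl⟩
  have hstar : ∀ A ∈ Ly, st y A ∈ Ly := by
    rintro _ ⟨S, hS, rfl⟩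
    exact ⟨_, hG.st_mem S hS, rfl⟩
  obtain ⟨E, hE, F, hF, H, hH, hE0, hs, hHst⟩ := hS (W y) (st y) (hG.star y) Ly hcomm hstar (N y)
    (hNst y) r hr (T y) ⟨T, hT, rfl⟩ hT0 hNT
  obtain ⟨TE, hTE, hTEy⟩ := hE
  obtain ⟨TF, hTF, hTFy⟩ := hF
  obtain ⟨TH, hTH, hTHy⟩ := hH
  have exE : ∀ i, ∃ A, IsLift G y i E A := fun i => hTEy ▸ L.ex TE hTE i
  have exF : ∀ i, ∃ A, IsLift G y i F A := fun i => hTFy ▸ L.ex TF hTF i
  have exH : ∀ i, ∃ A, IsLift G y i H A := fun i => hTHy ▸ L.ex TH hTH i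
  choose Ei hEi using exE
  choose Fi hFi using exF
  choose Hi hHi using exH
  have brk : ∀ i s t A B, IsLift G y i s A → IsLift G y i t B →
      IsLift G y i (s * t - t * s) (A * B - B * A) := by
    intro i s t A B hA hB
    obtain ⟨⟨Z, hZ, hZy, hZi⟩, _⟩ := hA
    have := L.comm Z hZ i t B hB
    rwa [hZy, hZi] at this
  have ef : ∀ i, Ei i * Fi i - Fi i * Ei i = Hi i := by
    intro i
    have h1 := brk i E F _ _ (hEi i) (hFi i)
    rw [hs.ef] at h1
    exact L.unique i _ _ _ h1 (hHi i)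
  have he : ∀ i, Hi i * Ei i - Ei i * Hi i = (2 : ℂ) • Ei i := by
    intro i
    have h1 := brk i H E _ _ (hHi i) (hEi i)
    rw [hs.he] at h1
    exact L.unique i _ _ _ h1 (L.smul 2 i _ _ (hEi i))
  have hf : ∀ i, Hi i * Fi i - Fi i * Hi i = -((2 : ℂ) • Fi i) := by
    intro i
    have h1 := brk i H F _ _ (hHi i) (hFi i)
    rw [hs.hf, ← neg_smul] at h1
    rw [← neg_smul]
    exact L.unique i _ _ _ h1 (L.smul (-2) i _ _ (hFi i))
  have nh : ∀ i, N i * Hi i - Hi i * N i = 0 := by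
    intro i
    have h1 := L.comm N hN i _ _ (hHi i)
    rw [hs.nh] at h1
    have h2 := L.smul 0 i _ _ (hHi i)
    rw [zero_smul, zero_smul] at h2
    exact L.unique i _ _ _ h1 h2
  have ne : ∀ i, N i * Ei i - Ei i * N i = (2 * r : ℂ) • Ei i := by
    intro i
    have h1 := L.comm N hN i _ _ (hEi i)
    rw [hs.ne] at h1
    exact L.unique i _ _ _ h1 (L.smul _ i _ _ (hEi i))
  have nf : ∀ i, N i * Fi i - Fi i * N i = -((2 * r : ℂ) • Fi i) := by
    intro i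
    have h1 := L.comm N hN i _ _ (hFi i)
    rw [hs.nf, ← neg_smul] at h1
    rw [← neg_smul]
    exact L.unique i _ _ _ h1 (L.smul _ i _ _ (hFi i))
  have hEy : Ei y = E := by
    have h1 := L.self TE hTE
    rw [hTEy] at h1
    exact L.unique y _ _ _ (hEi y) h1
  refine ⟨Ei, Fi, Hi, ?_, ?_, ?_, by rw [hEy]; exact hE0,
    fun i => ⟨ef i, he i, hf i, nh i, ne i, nf i⟩, ?_, ?_⟩
  · intro i i'
    obtain ⟨T, hT, _, h2, h3⟩ := L.pair i i' H E _ _ _ _ (hHi i) (hEi i) (hHi i') (hEi i')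
    refine ⟨_, hG.smul (1 / 2) T hT, ?_, ?_⟩
    · simp only [h2, he, smul_smul]
      norm_num
    · simp only [h3, he, smul_smul]
      norm_num
  · intro i i'
    obtain ⟨T, hT, _, h2, h3⟩ := L.pair i i' H F _ _ _ _ (hHi i) (hFi i) (hHi i') (hFi i')
    refine ⟨_, hG.smul (-(1 / 2)) T hT, ?_, ?_⟩
    · simp only [h2, hf, ← neg_smul, smul_smul]
      norm_num
    · simp only [h3, hf, ← neg_smul, smul_smul]
      norm_num
  · intro i i'
    obtain ⟨T, hT, _, h2, h3⟩ := L.pair i i' E F _ _ _ _ (hEi i) (hFi i) (hEi i') (hFi i')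
    exact ⟨T, hT, by rw [h2, ef], by rw [h3, ef]⟩
  · intro i
    apply (sa i).diag
    have h1 := L.star i _ _ (hHi i)
    rw [hHst] at h1
    exact L.unique i _ _ _ h1 (hHi i)
  · intro h0
    have h1 := L.star y _ _ (hHi y)
    rw [hHst] at h1
    have h2 : st y (Hi y) = Hi y := L.unique y _ _ _ h1 (hHi y)
    obtain ⟨t, _, ht, ht0⟩ := (sa y).pos (Hi y)
    rw [h2, h0] at ht
    have h3 : Hi y = 0 := ht0 (by exact_mod_cast ht.symm)
    have h4 := he y
    rw [h3, zero_mul, mul_zero, sub_zero, hEy] at h4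
    have h5 : E = 0 := by
      have := h4.symm
      rw [smul_eq_zero] at this
      exact this.resolve_left (by norm_num)
    exact hE0 h5

end Pool.Exo
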