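import Pool.Agent.Work.MP_a60482_ex2.Interface
import Pool.Agent.Work.MP_a60482_exo.REG

/-!
# Block G_REG: the regraded theory is a Weil cohomology theory
-/

open CategoryTheory MonoidalCategory CartesianMonoidalCategory

universe u v w x

namespace Pool.Exo

open Pool.KC Pool.KC.REGAux Pool.KC.WeilData

variable {V : Type u} [Category.{v} V] [CartesianMonoidalCategory V]
variable {D : WeilData.{u, v, w, 0} V ℂ}

theorem blk_REG (hD : D.IsWeil) : Stmt_BAS D → Stmt_REGN D := by
  intro _ d T g hd hT hdiag hs hg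
  refine ⟨⟨pull_axioms hD hT hg, ?_, trace_axioms hD hd hs hg, cycle_axioms hD hT hg, ?_, ?_⟩,
    ?_, ?_⟩
  · exact ⟨hD.kunneth.dim, hD.kunneth.span, hD.kunneth.finrank, hD.kunneth.push⟩
  · exact ⟨hD.functor.pull, hD.functor.push⟩
  · exact ⟨hD.diagonal.mem, hD.diagonal.spec⟩
  · intro X j hj
    rw [hg]
    apply le_antisymm
    · intro a ha
      refine rdeg_ind (D := D) (T := T) (X := X) (j := j) (Q := fun a => a ∈ D.deg X j)
        ?_ (zero_mem _) (fun a b h1 h2 => add_mem h1 h2)
        (fun c a h1 => Submodule.smul_mem _ c h1) a ha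
      intro a k m h1 h2 h3
      by_cases h0 : a = 0
      · rw [h0]
        exact zero_mem _
      obtain ⟨h4, _⟩ := small_int hs h1 h0 h2
      have h5 : m = 0 := by
        by_contra hne
        have h6 : 1 ≤ |m| := Int.one_le_abs hne
        have h7 : (j : ℤ) + 2 < d := by exact_mod_cast hj
        have h8 := neg_abs_le m
        have h9 : ((d : ℤ) - 2) * 1 ≤ ((d : ℤ) - 2) * |m| :=
          mul_le_mul_of_nonneg_left h6 (by omega)
        have h10 : ((d : ℤ) - 2) * |m| = d * |m| - 2 * |m| := by ring
        linarith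
      have h6 : k = j := by
        rw [h5] at h3
        omega
      rw [← h6]
      exact h1
    · intro a ha
      exact mem_rdeg_zero ha (low_zero hD hT hdiag hs hj ha)
  · intro X i
    rw [hg]
    intro a ha
    refine rdeg_ind (D := D) (T := T) (X := X) (j := i)
      (Q := fun a => a ∈ ⨆ (j : ℕ) (_ : j % 2 = i % 2), D.deg X j)
      ?_ (zero_mem _) (fun a b h1 h2 => add_mem h1 h2)
      (fun c a h1 => Submodule.smul_mem _ c h1) a ha
    intro a k m h1 _ h3
    refine Submodule.mem_iSup_of_mem k (Submodule.mem_iSup_of_mem (by omega) h1)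

end Pool.Exo
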