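import Pool.Agent.Work.MP_a60482_ex2.Interface
import Pool.Agent.Work.MP_a60482_ex2.FAMH
import Pool.Agent.Work.MP_a60482_ex2.REG
import Pool.Agent.Work.MP_a60482_exo.BAS
import Pool.Agent.Work.MP_a60482_exo.CNJ
import Pool.Agent.Work.MP_a60482_exo.HPA
import Pool.Agent.Work.MP_a60482_exo.HPB
import Pool.Agent.Work.MP_a60482_exo.EIG
import Pool.Agent.Work.MP_a60482_exo.SLB
import Pool.Agent.Work.MP_a60482_exo.GRA
import Pool.Agent.Work.MP_a60482_exo.NC

/-!
# Assembly of the general version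
-/

open CategoryTheory MonoidalCategory CartesianMonoidalCategory

universe u v w x

namespace Pool.Exo

open Pool.KC Pool.KC.WeilData

variable {V : Type u} [Category.{v} V] [CartesianMonoidalCategory V]
variable {D : WeilData.{u, v, w, 0} V ℂ} {S : HodgeStr D}

namespace FINAux

variable {ψ : ∀ X : V, D.H X →ₗ[ℂ] D.H X →ₗ[ℂ] ℂ}

/-- natural skew families form a Lie algebra -/
theorem isFam (hB : Stmt_BAS D) {st : ∀ X : V, Module.End ℂ (D.H X) → Module.End ℂ (D.H X)}
    (h1 : ∀ X, IsStar (st X)) (h2 : ∀ T, IsNat ψ T → IsNat ψ (fun X => st X (T X))) :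
    IsFam (W := fun X : V => D.H X) st {T | IsNat ψ T} where
  star := h1
  add := by
    intro A hA B hB'
    refine ⟨hB.2.1 A B hA.mot hB'.mot, fun X a b => ?_⟩
    have e1 := hA.skew X a b
    have e2 := hB'.skew X a b
    simp only [LinearMap.add_apply, map_add]
    linear_combination e1 + e2
  smul := by
    intro c A hA
    refine ⟨hB.2.2.1 c A hA.mot, fun X a b => ?_⟩
    have e1 := hA.skew X a b
    simp only [LinearMap.smul_apply, map_smul, smul_eq_mul]
    linear_combination c * e1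
  comm := by
    intro A hA B hB'
    refine ⟨hB.2.2.2.1 A B hA.mot hB'.mot, fun X a b => ?_⟩
    have e1 := hA.skew X (B X a) b
    have e2 := hB'.skew X (A X a) b
    have e3 := hA.skew X a (B X b)
    have e4 := hB'.skew X a (A X b)
    simp only [LinearMap.sub_apply, Module.End.mul_apply, map_sub]
    linear_combination e1 - e2 + e3 - e4
  st_mem := fun T hT => h2 T hT

/-- a family which locally agrees with natural families is natural -/
theorem mot_of_pair (hB : Stmt_BAS D) {A : D.Fam}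
    (hA : PairMem (W := fun X : V => D.H X) {T | IsNat ψ T} A) : D.MotDer A where
  deg := by
    intro X i a ha
    obtain ⟨T, hT, h1, _⟩ := hA X X
    rw [← h1]
    exact hT.mot.deg X i a ha
  pull := by
    intro X Y f a
    obtain ⟨T, hT, h1, h2⟩ := hA X Y
    rw [← h1, ← h2]
    exact hT.mot.pull X Y f a
  cross := by
    intro X Y a b
    have hp : ∀ (X Y : V) (f : X ⟶ Y) (a : D.H Y), A X (D.pb f a) = D.pb f (A Y a) := by
      intro X Y f a
      obtain ⟨T, hT, h1, h2⟩ := hA X Y
      rw [← h1, ← h2]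
      exact hT.mot.pull X Y f a
    obtain ⟨T, hT, h1, _⟩ := hA (X ⊗ Y) (X ⊗ Y)
    have hm : ∀ a b : D.H (X ⊗ Y), A (X ⊗ Y) (a * b) = A (X ⊗ Y) a * b + a * A (X ⊗ Y) b := by
      intro a b
      rw [← h1]
      exact hB.2.2.2.2.1 T hT.mot (X ⊗ Y) a b
    unfold WeilData.cross
    rw [hm, hp, hp]
  alg := by
    intro X i a ha
    obtain ⟨T, hT, h1, _⟩ := hA X X
    rw [← h1]
    exact hT.mot.alg X i a ha
  int := by
    intro X a
    obtain ⟨T, hT, h1, _⟩ := hA X X
    rw [← h1]
    exact hT.mot.int X a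

/-- the Hodge operator is skew -/
theorem hodgeOp_skew (h : (toTh S).toHodgeData.HodgeAxioms)
    (hψ : ∀ X, S.IsPolarization X (ψ X)) (X : V) (a b : D.H X) :
    ψ X ((toTh S).toHodgeData.hodgeOp h X a) b + ψ X a ((toTh S).toHodgeData.hodgeOp h X b) = 0 := by
  refine HodgeData.hodge_ind h (p := fun a => ψ X ((toTh S).toHodgeData.hodgeOp h X a) b +
    ψ X a ((toTh S).toHodgeData.hodgeOp h X b) = 0) ?_ ?_ a
  · intro p q a ha
    refine HodgeData.hodge_ind h (p := fun b => ψ X ((toTh S).toHodgeData.hodgeOp h X a) b +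
      ψ X a ((toTh S).toHodgeData.hodgeOp h X b) = 0) ?_ ?_ b
    · intro p' q' b hb
      rw [HodgeData.hodgeOp_apply h ha, HodgeData.hodgeOp_apply h hb]
      by_cases hpq : (p', q') = (q, p)
      · obtain ⟨rfl, rfl⟩ := Prod.mk.injEq _ _ _ _ ▸ hpq
        simp only [map_smul, LinearMap.smul_apply, smul_eq_mul]
        ring
      · have h0 := (hψ X).types p q p' q' hpq a ha b hb
        simp only [map_smul, LinearMap.smul_apply, smul_eq_mul, h0]
        ring
    · intro b c hb hc
      simp only [map_add] at hb hc ⊢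
      linear_combination hb + hc
  · intro a c ha hc
    simp only [map_add, LinearMap.add_apply] at ha hc ⊢
    linear_combination ha + hc

/-- elements of type `(r, -r)` are eigenvectors of `ad N` -/
theorem raises_comm (h : (toTh S).toHodgeData.HodgeAxioms) {Y : V} {r : ℕ}
    {T : Module.End ℂ (D.H Y)} (hT : S.Raises Y r T) :
    (toTh S).toHodgeData.hodgeOp h Y * T - T * (toTh S).toHodgeData.hodgeOp h Y =
      (2 * r : ℂ) • T := by
  ext a
  refine HodgeData.hodge_ind h (p := fun a =>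
    ((toTh S).toHodgeData.hodgeOp h Y * T - T * (toTh S).toHodgeData.hodgeOp h Y) a =
      ((2 * r : ℂ) • T) a) ?_ ?_ a
  · intro p q a ha
    rw [LinearMap.sub_apply, Module.End.mul_apply, Module.End.mul_apply,
      HodgeData.hodgeOp_apply h ha, map_smul, LinearMap.smul_apply]
    by_cases hq : q < r
    · rw [hT.2 p q hq a ha]
      simp
    · obtain ⟨s, rfl⟩ := Nat.exists_eq_add_of_le (le_of_not_gt hq)
      have h1 : T a ∈ (toTh S).toHodgeData.hodge Y (p + r) s :=
        hT.1 p s a (by rw [Nat.add_comm s r]; exact ha)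
      rw [HodgeData.hodgeOp_apply h h1, ← sub_smul]
      congr 1
      push_cast
      ring
  · intro a b ha hb
    rw [map_add, map_add, ha, hb]

/-- restriction of a family to `H^k(X)` -/
noncomputable def res {T : D.Fam} (hT : D.MotDer T) (X : V)
    (k : ℕ) : Module.End ℂ (D.deg X k) :=
  (T X).restrict fun a ha => hT.deg X k a ha

theorem res_coe {T : D.Fam} (hT : D.MotDer T) (X : V)
    (k : ℕ) (a : D.deg X k) : (res hT X k a : D.H X) = T X a := rfl

/-- the eigenvalues of `H` are small -/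
theorem small {h : (toTh S).toHodgeData.HodgeAxioms} (hE : Stmt_EIG (toTh S).toHodgeData h)
    (hS : Stmt_SLB.{w}) {r : ℕ} {E F H : D.Fam} (hEm : D.MotDer E) (hFm : D.MotDer F)
    (hHm : D.MotDer H) (hN : D.MotDer ((toTh S).toHodgeData.hodgeOp h))
    (hs : ∀ X, Sl2N r ((toTh S).toHodgeData.hodgeOp h X) (E X) (F X) (H X)) : D.Small r H := by
  intro X k a ha ha0 μ haμ
  have e1 := (hs X).ef
  have e2 := (hs X).he
  have e3 := (hs X).hf
  have e4 := (hs X).nh
  have e5 := (hs X).ne
  have e6 := (hs X).nf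
  have key := hS (D.deg X k) (res hEm X k) (res hFm X k) (res hHm X k)
    (res hN X k) (res hN X k - (r : ℂ) • res hHm X k) 0 (fun i => i.elim0)
    (fun i => i.elim0) (fun i => i.elim0) r (min (k : ℝ) (2 * D.dim X - k))
    (by
      ext x
      change E X (F X x) - F X (E X x) = H X x
      rw [← e1]
      rfl)
    (by
      ext x
      change H X (E X x) - E X (H X x) = ((2 • res hEm X k x : D.deg X k) : D.H X)
      have h1 : H X (E X x) - E X (H X x) = (2 : ℂ) • E X x := by
        have := congrArg (fun A : Module.End ℂ (D.H X) => A (x : D.H X)) e2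
        exact this
      rw [h1, two_smul, two_smul, Submodule.coe_add]
      rfl)
    (by
      ext x
      change H X (F X x) - F X (H X x) = ((-(2 • res hFm X k x) : D.deg X k) : D.H X)
      have h1 : H X (F X x) - F X (H X x) = -((2 : ℂ) • F X x) := by
        have := congrArg (fun A : Module.End ℂ (D.H X) => A (x : D.H X)) e3
        exact this
      rw [h1, two_smul, two_smul, Submodule.coe_neg, Submodule.coe_add]
      rfl)
    (fun i => i.elim0)
    (by
      ext x
      change E X ((toTh S).toHodgeData.hodgeOp h X x - (r : ℂ) • H X x) =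
        (toTh S).toHodgeData.hodgeOp h X (E X x) - (r : ℂ) • H X (E X x)
      have h1 : (toTh S).toHodgeData.hodgeOp h X (E X x) -
          E X ((toTh S).toHodgeData.hodgeOp h X x) = (2 * r : ℂ) • E X x :=
        congrArg (fun A : Module.End ℂ (D.H X) => A (x : D.H X)) e5
      have h2 : H X (E X x) - E X (H X x) = (2 : ℂ) • E X x :=
        congrArg (fun A : Module.End ℂ (D.H X) => A (x : D.H X)) e2
      rw [map_sub, map_smul, sub_eq_iff_eq_add.1 h1, sub_eq_iff_eq_add.1 h2]
      module)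
    (by
      ext x
      change F X ((toTh S).toHodgeData.hodgeOp h X x - (r : ℂ) • H X x) =
        (toTh S).toHodgeData.hodgeOp h X (F X x) - (r : ℂ) • H X (F X x)
      have h1 : (toTh S).toHodgeData.hodgeOp h X (F X x) -
          F X ((toTh S).toHodgeData.hodgeOp h X x) = -((2 * r : ℂ) • F X x) :=
        congrArg (fun A : Module.End ℂ (D.H X) => A (x : D.H X)) e6
      have h2 : H X (F X x) - F X (H X x) = -((2 : ℂ) • F X x) :=
        congrArg (fun A : Module.End ℂ (D.H X) => A (x : D.H X)) e3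
      rw [map_sub, map_smul, sub_eq_iff_eq_add.1 h1, sub_eq_iff_eq_add.1 h2]
      module)
    (by
      rw [Finset.univ_eq_empty, Finset.sum_empty, add_zero]
      ext x
      change (toTh S).toHodgeData.hodgeOp h X (x : D.H X) = (r : ℂ) • H X (x : D.H X) +
        ((toTh S).toHodgeData.hodgeOp h X (x : D.H X) - (r : ℂ) • H X (x : D.H X))
      module)
    (by
      intro ν v hv hNv
      have hv0 : (v : D.H X) ≠ 0 := fun h0 => hv (Subtype.ext h0)
      have h1 := hE X k v v.2 hv0 ν (congrArg Subtype.val hNv)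
      exact le_min h1.1 h1.2)
    μ ⟨a, ha⟩ (fun h0 => ha0 (congrArg Subtype.val h0)) (Subtype.ext haμ)
  obtain ⟨m, hm, hle⟩ := key
  refine ⟨m, hm, ?_, ?_⟩
  · have h1 := hle.trans (min_le_left _ _)
    exact_mod_cast h1
  · have h1 := hle.trans (min_le_right _ _)
    exact_mod_cast h1

end FINAux

open FINAux in
/-- the criterion -/
theorem fin_crit (hD : D.IsWeil) (hS : S.IsPolarizable) (hST : Stmt_STAR.{w})
    (hSL : Stmt_SL2.{w}) (hLI : Stmt_LIFT.{u, w}) (hSY : Stmt_SYM.{w})
    (hSTR : ∀ ψ : ∀ X : V, D.H X →ₗ[ℂ] D.H X →ₗ[ℂ] ℂ, (∀ X, S.IsPolarization X (ψ X)) →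
      Stmt_STR S ψ)
    (hRA : ∀ ψ : ∀ X : V, D.H X →ₗ[ℂ] D.H X →ₗ[ℂ] ℂ, (∀ X, S.IsPolarization X (ψ X)) →
      Stmt_RATN S ψ)
    (hBE : Stmt_BETTI D) (hNO : Stmt_NOHL D) (r : ℕ) (hr : 3 ≤ r) (Y : V)
    (T : Module.End ℂ (D.H Y)) (hT : S.InHodgeLie Y T) (hT0 : T ≠ 0) (hTr : S.Raises Y r T) :
    Exotic r D Y := by
  have hB : Stmt_BAS D := blk_BAS hD
  have h : (toTh S).toHodgeData.HodgeAxioms := toHodge hS.types
  have hc : (toTh S).toHodgeData.ConjAxioms := blk_CNJ hD (toRat hS.rat) h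
  have hA : Stmt_HPA (toTh S).toHodgeData h := blk_HPA hD hc h
  have hE : Stmt_EIG (toTh S).toHodgeData h := blk_EIG hD h hA
  have hNm : D.MotDer ((toTh S).toHodgeData.hodgeOp h) := hA.2.2.2.2.2.2.2.2.2.2
  choose ψ hψ using hS.pol
  obtain ⟨st, hst, hst1, hst2⟩ := hSTR ψ hψ
  have hfam := isFam hB hst hst1
  have hNn : IsNat ψ ((toTh S).toHodgeData.hodgeOp h) := ⟨hNm, hodgeOp_skew h hψ⟩
  obtain ⟨T', hT', rfl⟩ := hRA ψ hψ Y T hT
  obtain ⟨E, F, H, hEp, hFp, hHp, hE0, hs, hdiag, htr⟩ :=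
    blk_FAMH hST hSL hLI V (fun X : V => D.H X) st {T | IsNat ψ T} hfam
      ((toTh S).toHodgeData.hodgeOp h) hNn
      (fun X => hst2 X _ fun p q a ha => HodgeData.hodgeOp_apply h ha) Y r (by omega) T' hT' hT0
      (raises_comm h hTr)
  have hEm : D.MotDer E := mot_of_pair hB hEp
  have hFm : D.MotDer F := mot_of_pair hB hFp
  have hHm : D.MotDer H := mot_of_pair hB hHp
  have hsm : D.Small r H := small hE blk_SLB hEm hFm hHm hNm hs
  have hdg : D.Diag H := hdiag
  obtain ⟨g, hg⟩ := blk_GRA hD hB r H hr hHm hdg hsm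
  obtain ⟨r1, r2, r3⟩ := blk_REG hD hB r H g hr hHm hdg hsm hg
  have hH0 : H Y ≠ 0 := by
    intro h0
    rw [h0, mul_zero, map_zero] at htr
    exact htr rfl
  refine ⟨g, r1, r2, r3, hBE r H E F g Y hr hHm hEm hFm hdg hsm hg (hs Y).ef htr, ?_,
    hNO r H E F g Y hr hHm hEm hFm hdg hsm hg r1 (hs Y).ef (hs Y).he (hs Y).hf hH0⟩
  -- a homogeneous element which is moved by `E`
  have hex : ∃ (i : ℕ) (η : D.H Y) (k : ℕ) (m : ℤ), η ∈ D.deg Y k ∧ H Y η = (m : ℂ) • η ∧
      (k : ℤ) + 2 * m = i ∧ E Y η ≠ 0 := by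
    by_contra hcon
    push Not at hcon
    apply hE0
    have htop := GRAAux.sup_top hD hr hHm hdg hsm Y
    ext a
    have ha : a ∈ ⨆ j, D.rdeg H Y j := by
      rw [htop]
      exact Submodule.mem_top
    refine Submodule.iSup_induction (fun j => D.rdeg H Y j)
      (motive := fun a => E Y a = (0 : Module.End ℂ (D.H Y)) a) ha ?_ (by simp) ?_
    · intro i x hx
      refine REGAux.rdeg_ind (D := D) (T := H) (X := Y) (j := i)
        (Q := fun a => E Y a = (0 : Module.End ℂ (D.H Y)) a) ?_ (by simp) ?_ ?_ x hx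
      · intro a k m h1 h2 h3
        exact hcon i a k m h1 h2 h3
      · intro a b h1 h2
        rw [map_add, map_add, h1, h2]
      · intro c a h1
        rw [map_smul, map_smul, h1]
    · intro a b h1 h2
      rw [map_add, map_add, h1, h2]
  obtain ⟨i, η, k, m, h1, h2, h3, h4⟩ := hex
  refine blk_NC hD hB g Y E η (E Y η) i (i + 4) r1 hEm ?_ ?_ (by omega) h4 rfl
  · rw [hg]
    exact REGAux.mem_rdeg h1 h2 h3
  · rw [hg]
    refine REGAux.mem_rdeg (k := k) (m := m + 2) (hEm.deg Y k η h1) ?_ (by push_cast; omega)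
    have e2 : H Y (E Y η) - E Y (H Y η) = (2 : ℂ) • E Y η :=
      congrArg (fun A : Module.End ℂ (D.H Y) => A η) (hs Y).he
    rw [sub_eq_iff_eq_add.1 e2, h2, map_smul]
    push_cast
    module

end Pool.Exo
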