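import Pool.Agent.Work.MP_a60482_ex2.Interface

/-!
# Block G_HERM
-/

open CategoryTheory MonoidalCategory CartesianMonoidalCategory

universe u v w x

namespace Pool.Exo

open Pool.KC

namespace HERMAux

variable {W : Type w} [AddCommGroup W] [Module ℂ W]

/-- a positive sesquilinear form is hermitian -/
theorem hermitian {h : W → W → ℂ} (h1 : ∀ a a' b, h (a + a') b = h a b + h a' b)
    (h2 : ∀ (c : ℂ) a b, h (c • a) b = c * h a b) (h3 : ∀ a b b', h a (b + b') = h a b + h a b')
    (h4 : ∀ (c : ℂ) a b, h a (c • b) = starRingEnd ℂ c * h a b)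
    (h5 : ∀ a, a ≠ 0 → ∃ t : ℝ, 0 < t ∧ h a a = t) (a b : W) :
    starRingEnd ℂ (h a b) = h b a := by
  have hreal : ∀ a, (h a a).im = 0 := by
    intro a
    by_cases ha : a = 0
    · have : h a a = 0 := by
        have := h2 0 a a
        rwa [zero_smul, zero_mul, ← ha] at this
      rw [this, Complex.zero_im]
    · obtain ⟨t, -, ht⟩ := h5 a ha
      rw [ht, Complex.ofReal_im]
  have e1 := hreal (a + b)
  rw [h1, h3, h3] at e1
  simp only [Complex.add_im, hreal, zero_add, add_zero] at e1
  have e2 := hreal (a + Complex.I • b)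
  rw [h1, h3, h3, h2, h2, h4, h4] at e2
  have e3 := hreal b
  have e4 := hreal a
  simp only [Complex.add_im, Complex.mul_im, Complex.mul_re, Complex.conj_I, Complex.neg_re,
    Complex.neg_im, Complex.I_re, Complex.I_im, e3, e4] at e2
  apply Complex.ext
  · rw [Complex.conj_re]
    linarith
  · rw [Complex.conj_im]
    linarith

theorem exists_onb [FiniteDimensional ℂ W] {h : W → W → ℂ}
    (h1 : ∀ a a' b, h (a + a') b = h a b + h a' b)
    (h2 : ∀ (c : ℂ) a b, h (c • a) b = c * h a b) (h3 : ∀ a b b', h a (b + b') = h a b + h a b')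
    (h4 : ∀ (c : ℂ) a b, h a (c • b) = starRingEnd ℂ c * h a b)
    (h5 : ∀ a, a ≠ 0 → ∃ t : ℝ, 0 < t ∧ h a a = t) :
    ∃ (n : ℕ) (b : Module.Basis (Fin n) ℂ W), ∀ i j, h (b i) (b j) = if i = j then 1 else 0 := by
  have h0 : h 0 0 = 0 := by
    have := h2 0 0 0
    rwa [zero_smul, zero_mul] at this
  let c : InnerProductSpace.Core ℂ W :=
    { inner := fun a b => h b a
      conj_inner_symm := fun a b => hermitian h1 h2 h3 h4 h5 a b
      re_inner_nonneg := by
        intro x
        by_cases hx : x = 0
        · rw [hx]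
          rw [h0, map_zero]
        · obtain ⟨r, hr, he⟩ := h5 x hx
          rw [he]
          change 0 ≤ (r : ℂ).re
          rw [Complex.ofReal_re]
          exact hr.le
      add_left := fun x y z => h3 z x y
      smul_left := fun x y r => h4 r y x
      definite := by
        intro x hx
        change h x x = 0 at hx
        by_contra hne
        obtain ⟨r, hr, he⟩ := h5 x hne
        rw [hx] at he
        have : r = 0 := by exact_mod_cast he.symm
        exact hr.ne' this }
  let _ : NormedAddCommGroup W := c.toNormedAddCommGroup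
  let _ : InnerProductSpace ℂ W := InnerProductSpace.ofCore c.toCore
  have hin : ∀ x y : W, inner ℂ x y = h y x := fun x y => rfl
  refine ⟨_, (stdOrthonormalBasis ℂ W).toBasis, fun i j => ?_⟩
  have h6 := orthonormal_iff_ite.1 (stdOrthonormalBasis ℂ W).orthonormal j i
  rw [OrthonormalBasis.coe_toBasis, ← hin, h6]
  by_cases hij : i = j
  · rw [if_pos hij, if_pos hij.symm]
  · rw [if_neg hij, if_neg (Ne.symm hij)]

end HERMAux

open HERMAux in
theorem blk_HERM : Stmt_HERM.{w} := by
  intro W _ _ _ h h1 h2 h3 h4 h5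
  classical
  obtain ⟨n, b, hb⟩ := exists_onb h1 h2 h3 h4 h5
  have hsymm := hermitian h1 h2 h3 h4 h5
  have hrepr : ∀ x i, b.repr x i = h x (b i) := by
    intro x i
    let l : W →ₗ[ℂ] ℂ :=
      { toFun := fun a => h a (b i)
        map_add' := fun a a' => h1 a a' (b i)
        map_smul' := fun c a => h2 c a (b i) }
    have hl : ∀ a, l a = h a (b i) := fun a => rfl
    rw [← hl]
    conv_rhs => rw [← b.sum_repr x]
    rw [map_sum]
    simp only [hl, h2, hb, mul_ite, mul_one, mul_zero, Finset.sum_ite_eq', Finset.mem_univ,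
      if_true]
  refine ⟨fun T => Matrix.toLin b b (LinearMap.toMatrix b b T).conjTranspose,
    ⟨n, b, fun T => LinearMap.toMatrix_toLin _ _ _⟩, fun T T' hT => ?_⟩
  apply (LinearMap.toMatrix b b).injective
  rw [LinearMap.toMatrix_toLin]
  ext i j
  rw [Matrix.conjTranspose_apply, LinearMap.toMatrix_apply, LinearMap.toMatrix_apply, hrepr,
    hrepr, hT (b i) (b j)]
  exact hsymm (b i) (T' (b j))

end Pool.Exo
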