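import Pool.Agent.Work.MP_a60482_ex2.Defs
import Pool.Agent.Work.MP_a60482_exo.Interface2

/-!
# MP_a60482 EXOTIC, general version: interface

Block `G_X` is the theorem `Pool.Exo.blk_X` in the file
`Pool/Agent/Work/MP_a60482_ex2/X.lean`, which imports
`Pool.Agent.Work.MP_a60482_ex2.Interface`; own lemmas in the namespace `Pool.Exo.XAux`.

## The proof in short

`IsNat S ψ T`: `T = (T_X)` is in `MotDer` (derivations of degree `0`, natural in `X`, killing
algebraic classes and traces) and `T_X` is skew for the polarization `ψ_X` of `H(X)`.  These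
families form a Lie algebra `G`, stable under the adjoint (for the positive definite hermitian
forms `ψ_X(C a, bar b)`), containing the Hodge operator `N = p - q`, and `{T_Y : T ∈ G}`
contains the Lie algebra of the Hodge group of `H(Y)`.  If `[N_Y, T_Y] = 2 r T_Y`, `T_Y ≠ 0`,
then (SL2) there is an sl2-triple `(E, H, F)` over `Y` with `H` self-adjoint, `[N, E] = 2 r E`;
(LIFT) it lifts canonically to all `H(X)`, naturally in `X`.  The eigenvalues `c` of `H_X` on
`H^j(X)` are integers with `r |c| ≤ j`, `r |c| ≤ 2 dim X - j` (block SLB of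
`MP_a60482_exo`).  The new degree is `deg + 2 H`.
-/

open CategoryTheory MonoidalCategory CartesianMonoidalCategory

universe u v w x

namespace Pool.Exo

open Pool.KC

/-! ## Part A: linear algebra over `ℂ` -/

/-- `st` is the adjoint operation for some hermitian scalar product on `W` (with orthonormal
basis `b`). -/
def IsStar {W : Type w} [AddCommGroup W] [Module ℂ W]
    (st : Module.End ℂ W → Module.End ℂ W) : Prop :=
  ∃ (n : ℕ) (b : Module.Basis (Fin n) ℂ W), ∀ T,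
    LinearMap.toMatrix b b (st T) = (LinearMap.toMatrix b b T).conjTranspose

/-- The formal properties of the adjoint. -/
structure StarApi {W : Type w} [AddCommGroup W] [Module ℂ W]
    (st : Module.End ℂ W → Module.End ℂ W) : Prop where
  fin : FiniteDimensional ℂ W
  add : ∀ S T, st (S + T) = st S + st T
  smul : ∀ (c : ℂ) T, st (c • T) = (starRingEnd ℂ c) • st T
  mul : ∀ S T, st (S * T) = st T * st S
  invol : ∀ T, st (st T) = T
  tr : ∀ T, LinearMap.trace ℂ W (st T) = starRingEnd ℂ (LinearMap.trace ℂ W T)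
  pos : ∀ T, ∃ t : ℝ, 0 ≤ t ∧ LinearMap.trace ℂ W (T * st T) = t ∧ (t = 0 → T = 0)
  diag : ∀ T, st T = T → ⨆ μ : ℂ, T.eigenspace μ = ⊤

/-- G_STAR (80 lines): `blk_STAR : Stmt_STAR`.  Everything is read off from matrices:
`LinearMap.toMatrix b b` is an algebra isomorphism (`LinearMap.toMatrixAlgEquiv`),
`LinearMap.trace_eq_matrix_trace`, `Matrix.trace_mul_conjTranspose_self_eq_zero_iff`
(and `posSemidef`), and for `diag` the spectral theorem for hermitian matrices, or directly: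
`Module.End.iSup_maxGenEigenspace_eq_top` and `ker N^k = ker N` for `N = T - μ`, `μ` real. -/
def Stmt_STAR : Prop := ∀ (W : Type w) [AddCommGroup W] [Module ℂ W]
  (st : Module.End ℂ W → Module.End ℂ W), IsStar st → StarApi st

/-- G_HERM (90 lines): `blk_HERM : Stmt_HERM`.  A positive definite sesquilinear form has an
orthonormal basis; `st` is the adjoint for it.  (`h` is linear in the first and antilinear in the
second variable.  It is hermitian automatically: `h (a+b) (a+b)` and `h (a+ib) (a+ib)` are real.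
Use `InnerProductSpace.Core` with `inner a b = h b a`, `stdOrthonormalBasis`, and
`st T := Matrix.toLin b b (toMatrix b b T)ᴴ`.) -/
def Stmt_HERM : Prop := ∀ (W : Type w) [AddCommGroup W] [Module ℂ W] [FiniteDimensional ℂ W]
  (h : W → W → ℂ),
  (∀ a a' b, h (a + a') b = h a b + h a' b) → (∀ (c : ℂ) a b, h (c • a) b = c * h a b) →
  (∀ a b b', h a (b + b') = h a b + h a b') →
  (∀ (c : ℂ) a b, h a (c • b) = starRingEnd ℂ c * h a b) →
  (∀ a, a ≠ 0 → ∃ t : ℝ, 0 < t ∧ h a a = t) →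
  ∃ st : Module.End ℂ W → Module.End ℂ W, IsStar st ∧
    ∀ T T' : Module.End ℂ W, (∀ a b, h (T a) b = h a (T' b)) → st T = T'

/-- G_SLM (130 lines): `blk_SLM : Stmt_SLM`.  Existence of a critical point of `‖[X, Xᴴ]‖²` on
the unit sphere of `U`.  Put `f X = re tr ([X, Xᴴ]²)` (`[X,Xᴴ]` is hermitian, so this is its
squared norm) and `q X = re tr (X Xᴴ)`.  On the compact set `{X ∈ U, q X = 1}` take `E` with
`f E = m` maximal.  Then `f X ≤ m (q X)²` for all `X ∈ U`.  For `X = E + t D`, `D ∈ U`, `t` real,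
both sides are polynomials in `t`, equal at `t = 0`, so their derivatives at `0` agree:
`4 re tr (G Dᴴ) = 4 m re tr (E Dᴴ)` with `G = [[E, Eᴴ], E] ∈ U`.  Take `D = G - m E`: `G = m E`.
And `m = f E > 0` because `[E, Eᴴ] ≠ 0`. -/
def Stmt_SLM : Prop := ∀ (n : ℕ) (U : Submodule ℂ (Matrix (Fin n) (Fin n) ℂ)), U ≠ ⊥ →
  (∀ X ∈ U, X * X.conjTranspose - X.conjTranspose * X = 0 → X = 0) →
  (∀ X ∈ U, (X * X.conjTranspose - X.conjTranspose * X) * X -
    X * (X * X.conjTranspose - X.conjTranspose * X) ∈ U) →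
  ∃ E ∈ U, E ≠ 0 ∧ ∃ c : ℝ, 0 < c ∧
    (E * E.conjTranspose - E.conjTranspose * E) * E -
      E * (E * E.conjTranspose - E.conjTranspose * E) = (c : ℂ) • E

/-- An sl2-triple `(E, H, F)` of operators such that `E` raises `p - q` by `2 r` (`N` is the
operator `p - q`). -/
structure Sl2N {W : Type w} [AddCommGroup W] [Module ℂ W] (r : ℕ)
    (N E F H : Module.End ℂ W) : Prop where
  ef : E * F - F * E = H
  he : H * E - E * H = (2 : ℂ) • E
  hf : H * F - F * H = -((2 : ℂ) • F)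
  nh : N * H - H * N = 0
  ne : N * E - E * N = (2 * r : ℂ) • E
  nf : N * F - F * N = -((2 * r : ℂ) • F)

/-- G_SL2 (110 lines): `blk_SL2 : Stmt_STAR.{w} → Stmt_SLM → Stmt_SL2.{w}`.  Apply SLM to the
matrices of `U = {A ∈ L | [N, A] = 2 r A}`.  Normal elements of `U` vanish:
`2 r tr(X X†) = tr([N, X] X†) = tr(N [X, X†]) = 0`.  `X† ∈ L` has `[N, X†] = - 2 r X†` (take
adjoints), so `[[X, X†], X] ∈ U`.  With `[[E,E†],E] = c E` put `H = (2/c) [E, E†]`,
`F = (2/c) E†`. -/
def Stmt_SL2 : Prop := ∀ (W : Type w) [AddCommGroup W] [Module ℂ W]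
  (st : Module.End ℂ W → Module.End ℂ W), IsStar st →
  ∀ L : Submodule ℂ (Module.End ℂ W), (∀ A ∈ L, ∀ B ∈ L, A * B - B * A ∈ L) →
  (∀ A ∈ L, st A ∈ L) → ∀ N : Module.End ℂ W, st N = N → ∀ r : ℕ, 0 < r →
  ∀ T ∈ L, T ≠ 0 → N * T - T * N = (2 * r : ℂ) • T →
  ∃ E ∈ L, ∃ F ∈ L, ∃ H ∈ L, E ≠ 0 ∧ Sl2N r N E F H ∧ st H = H

/-- G_SYM (100 lines): `blk_SYM : Stmt_SYM`.  In a finite-dimensional sl2-module the weight spaces
of `z` and `-z` inside a submodule `V` are both zero or both nonzero.  (`E^m v`, `m` maximal with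
`E^m v ≠ 0`, is primitive of weight `z + 2m = n ∈ ℕ`; for `z ≥ 0` take `F^(z+m) E^m v`; for `z < 0`
exchange `E` and `F`.) -/
def Stmt_SYM : Prop := ∀ (W : Type w) [AddCommGroup W] [Module ℂ W] [FiniteDimensional ℂ W]
  (E F H : Module.End ℂ W), E * F - F * E = H → H * E - E * H = (2 : ℂ) • E →
  H * F - F * H = -((2 : ℂ) • F) →
  ∀ V : Submodule ℂ W, (∀ v ∈ V, E v ∈ V) → (∀ v ∈ V, F v ∈ V) →
  ∀ (z : ℤ) (v : W), v ∈ V → v ≠ 0 → H v = (z : ℂ) • v →
    ∃ v' ∈ V, v' ≠ 0 ∧ H v' = -((z : ℂ) • v')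

section Fam

variable {I : Type u} {W : I → Type w} [∀ i, AddCommGroup (W i)] [∀ i, Module ℂ (W i)]

/-- `G` is a Lie algebra of families of operators, stable under adjoints. -/
structure IsFam (st : ∀ i, Module.End ℂ (W i) → Module.End ℂ (W i))
    (G : Set (∀ i, Module.End ℂ (W i))) : Prop where
  star : ∀ i, IsStar (st i)
  add : ∀ S ∈ G, ∀ T ∈ G, (fun i => S i + T i) ∈ G
  smul : ∀ (c : ℂ), ∀ T ∈ G, (fun i => c • T i) ∈ G
  comm : ∀ S ∈ G, ∀ T ∈ G, (fun i => S i * T i - T i * S i) ∈ G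
  st_mem : ∀ T ∈ G, (fun i => st i (T i)) ∈ G

/-- `A` is the canonical lift to `W i` of the element `s` of `G_y`: it comes from an element of
`G` over `s`, and it is orthogonal, for the trace form, to all elements over `0`. -/
def IsLift (G : Set (∀ i, Module.End ℂ (W i))) (y i : I) (s : Module.End ℂ (W y))
    (A : Module.End ℂ (W i)) : Prop :=
  (∃ T ∈ G, T y = s ∧ T i = A) ∧
    ∀ N ∈ G, N y = 0 → LinearMap.trace ℂ (W i) (A * N i) = 0

/-- The properties of canonical lifts. -/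
structure LiftApi (st : ∀ i, Module.End ℂ (W i) → Module.End ℂ (W i))
    (G : Set (∀ i, Module.End ℂ (W i))) (y : I) : Prop where
  ex : ∀ T ∈ G, ∀ i, ∃ A, IsLift G y i (T y) A
  unique : ∀ i s A A', IsLift G y i s A → IsLift G y i s A' → A = A'
  add : ∀ i s s' A A', IsLift G y i s A → IsLift G y i s' A' → IsLift G y i (s + s') (A + A')
  smul : ∀ (c : ℂ) i s A, IsLift G y i s A → IsLift G y i (c • s) (c • A)
  comm : ∀ Z ∈ G, ∀ i s A, IsLift G y i s A →
    IsLift G y i (Z y * s - s * Z y) (Z i * A - A * Z i)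
  star : ∀ i s A, IsLift G y i s A → IsLift G y i (st y s) (st i A)
  self : ∀ T ∈ G, IsLift G y y (T y) (T y)
  pair : ∀ i i' s t A B A' B', IsLift G y i s A → IsLift G y i t B →
    IsLift G y i' s A' → IsLift G y i' t B' →
    ∃ T ∈ G, T y = s * t - t * s ∧ T i = A * B - B * A ∧ T i' = A' * B' - B' * A'

end Fam

/-- G_LIFT (200 lines): `blk_LIFT : Stmt_STAR.{w} → Stmt_LIFT.{u, w}`.  Put
`B_{ii'}(S, T) = tr (S_i T_i) + tr (S_i' T_i')` and `K = {T ∈ G | T y = 0}`.
`B_{ii'}(T, T†) = 0` implies `T_i = 0 = T_i'` (`StarApi.pos`), and `K` is stable under `†`, so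
`B_{ii'}` is nondegenerate on the finite-dimensional space of pairs `(N_i, N_i')`, `N ∈ K`.
Hence (PAIR): for all `T ∈ G`, `i`, `i'` there is `T' ∈ G` with `T' y = T y` and
`B_{ii'}(T', N) = 0` for all `N ∈ K`.  `i = i'` gives `ex`; `unique` by nondegeneracy; `comm`:
`tr ([Z, A] N) = - tr (A [Z, N])` and `[Z, N] ∈ K`; `star`: `tr (A† N) = conj tr (A N†)`.
`pair`: take `S', T'` from (PAIR) over `s, t`, for `(i, i')`.  `U := [T', N]`, `N ∈ K`, is in `K`
and satisfies `B_{ii'}(U, N') = B_{ii'}(T', [N, N']) = 0` for all `N' ∈ K`, so `U_i = 0 = U_i'`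
(take `N' = U†`).  So `tr ([S', T']_i N_i) = tr (S'_i [T'_i, N_i]) = 0`: `[S', T']_i` is a
canonical lift of `[s, t]`.  And `[A, B]` is a canonical lift of `[s, t]` too (`comm`), so they are
equal by `unique`. -/
def Stmt_LIFT : Prop := ∀ (I : Type u) (W : I → Type w) [∀ i, AddCommGroup (W i)]
  [∀ i, Module ℂ (W i)] (st : ∀ i, Module.End ℂ (W i) → Module.End ℂ (W i))
  (G : Set (∀ i, Module.End ℂ (W i))), IsFam st G → ∀ y, LiftApi st G y

/-- `A` is a limit of elements of `G`: it agrees with an element of `G` at any two places. -/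
def PairMem {I : Type u} {W : I → Type w} [∀ i, AddCommGroup (W i)] [∀ i, Module ℂ (W i)]
    (G : Set (∀ i, Module.End ℂ (W i))) (A : ∀ i, Module.End ℂ (W i)) : Prop :=
  ∀ i i', ∃ T ∈ G, T i = A i ∧ T i' = A i'

/-- G_FAMH (helper78): `blk_FAMH : Stmt_STAR → Stmt_SL2 → Stmt_LIFT → Stmt_FAMH`.
`E_i, H_i, F_i` are the canonical lifts of the sl2-triple of SL2 for `L = G_y`. -/
def Stmt_FAMH : Prop := ∀ (I : Type u) (W : I → Type w) [∀ i, AddCommGroup (W i)]
  [∀ i, Module ℂ (W i)] (st : ∀ i, Module.End ℂ (W i) → Module.End ℂ (W i))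
  (G : Set (∀ i, Module.End ℂ (W i))), IsFam st G →
  ∀ N ∈ G, (∀ i, st i (N i) = N i) → ∀ (y : I) (r : ℕ), 0 < r →
  ∀ T ∈ G, T y ≠ 0 → N y * T y - T y * N y = (2 * r : ℂ) • T y →
  ∃ E F H : ∀ i, Module.End ℂ (W i), PairMem G E ∧ PairMem G F ∧ PairMem G H ∧
    E y ≠ 0 ∧ (∀ i, Sl2N r (N i) (E i) (F i) (H i)) ∧
    (∀ i, ⨆ μ : ℂ, (H i).eigenspace μ = ⊤) ∧ LinearMap.trace ℂ (W y) (H y * H y) ≠ 0

/-! ## Part B: natural families -/

variable {V : Type u} [Category.{v} V] [CartesianMonoidalCategory V]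
variable {D : WeilData.{u, v, w, 0} V ℂ}

/-- the Hodge theory in the sense of `MP_a60482_exo` (with ample classes `0`), to use the
blocks HPA, HPB, CNJ, EIG, ... there -/
@[reducible] noncomputable def toTh (S : HodgeStr D) : HodgeTheory D where
  bar := S.bar
  hodge := S.hodge
  ample := fun _ => 0
  rat := S.rat

theorem toRat {S : HodgeStr D} (h : S.RatAxioms) : (toTh S).RatAxioms where
  basis := h.basis
  deg := h.deg
  mul := h.mul
  pull := h.pull
  int := h.int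
  alg := h.alg
  bar := h.bar

theorem toHodge {S : HodgeStr D} (h : S.TypeAxioms) : (toTh S).toHodgeData.HodgeAxioms where
  internal := h.internal
  deg := h.deg
  mul := h.mul
  pull := h.pull
  bar := h.bar
  alg := h.alg
  int := h.int

/-- Natural families of operators, skew for the bilinear forms `ψ_X`. -/
structure IsNat (ψ : ∀ X : V, D.H X →ₗ[ℂ] D.H X →ₗ[ℂ] ℂ) (T : D.Fam) : Prop where
  mot : D.MotDer T
  skew : ∀ (X : V) (a b : D.H X), ψ X (T X a) b + ψ X a (T X b) = 0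

/-- G_STR (150 lines): `blk_STR (hD : D.IsWeil) (hS : S.IsPolarizable)
(hψ : ∀ X, S.IsPolarization X (ψ X)) : Stmt_HERM.{w} →
Stmt_HPA (toTh S).toHodgeData (toHodge hS.types) →
Stmt_HPB (toTh S).toHodgeData (toHodge hS.types) → Stmt_STR S ψ`.
Let `P = (toTh S).toHodgeData`, `h = toHodge hS.types`, `C = P.weilOp h X` (`i^(p-q)` on
`H^{p,q}`).  The form `ψ(C a, bar b)` is positive definite (sum over the components of `a`:
different types are orthogonal).  `st X` is its adjoint (HERM); for `T` in `IsNat`,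
`st X (T X) = P.sharp h T X = - C^{-1} bar T bar C`
(`C² = (-1)^k` on `H^k`, so `C T' C^{-1} = C^{-1} T' C` for operators of degree `0`;
`ψ(C a, C b) = ψ(a, b)`, so `C T C^{-1}` is skew; `bar C = C bar`).  `sharp` preserves `MotDer`
(HPB) and skewness (`ψ(bar a, bar b) = conj ψ(a, b)`: check on rational classes, which span). -/
def Stmt_STR (S : HodgeStr D) (ψ : ∀ X : V, D.H X →ₗ[ℂ] D.H X →ₗ[ℂ] ℂ) : Prop :=
  ∃ st : ∀ X : V, Module.End ℂ (D.H X) → Module.End ℂ (D.H X), (∀ X, IsStar (st X)) ∧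
    (∀ T, IsNat ψ T → IsNat ψ (fun X => st X (T X))) ∧
    ∀ (X : V) (N : Module.End ℂ (D.H X)),
      (∀ p q : ℕ, ∀ a ∈ S.hodge X p q, N a = ((p : ℂ) - q) • a) → st X N = N

/-- G_RAT (150 lines): `blk_RAT (hD : D.IsWeil) (hS : S.IsPolarizable)
(hψ : ∀ X, S.IsPolarization X (ψ X)) :
Stmt_HPA (toTh S).toHodgeData (toHodge hS.types) → Stmt_RATN S ψ`.
The blocks RAT and HLI of `MP_a60482_exo` (copy them from there), with the additional property
that the families are skew for `ψ`: the components `l(Θ)` of `Θ = hodgeOp` are skew because `Θ` is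
(different types are orthogonal) and `ψ` is rational on rational classes. -/
def Stmt_RATN (S : HodgeStr D) (ψ : ∀ X : V, D.H X →ₗ[ℂ] D.H X →ₗ[ℂ] ℂ) : Prop :=
  ∀ (X : V) (T : Module.End ℂ (D.H X)), S.InHodgeLie X T → ∃ T' : D.Fam, IsNat ψ T' ∧ T' X = T

/-- G_SPEX (150 lines): `blk_SPEX (hD : D.IsWeil) (hS : S.IsPolarizable)
(hψ : ∀ X, S.IsPolarization X (ψ X)) :
Stmt_HPA (toTh S).toHodgeData (toHodge hS.types) → Stmt_RATN S ψ → Stmt_SPEX S`.
Take `0 ≠ u ∈ H^{m,0}(Y)` and `A a = φ(u, a) u` on `H^m(Y)`, `0` on the other degrees: it is skew on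
`H^m(Y)` (`φ` is alternating there), so it is the restriction of some `T` in the Hodge Lie algebra.
`T` preserves degrees (RATN, `MotDer.deg`).  Every complex Lie algebra `L` as in `InHodgeLie` is
stable under `ad N` (`N = hodgeOp`, which is in `L`), hence contains the component `T'` of `T` in
the eigenspace of `ad N` for `2 m` (`Submodule.inf_iSup_genEigenspace`, or Lagrange interpolation;
`T' a = ` the component of `T a` in `H^{p+m,q-m}` for `a ∈ H^{p,q}`).  `T' = A` on `H^m(Y)` because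
`A` maps `H^{0,m}` to `H^{m,0}` and kills the other types, and `A (bar u) ≠ 0`. -/
def Stmt_SPEX (S : HodgeStr D) : Prop :=
  ∀ (Y : V) (m : ℕ) (φ : D.H Y →ₗ[ℂ] D.H Y →ₗ[ℂ] ℂ), S.IsPolarization Y φ →
  (∀ a ∈ D.deg Y m, φ a a = 0) → S.hodge Y m 0 ≠ ⊥ → FullOn (S.rat Y) (S.hodge Y) (D.deg Y m) φ →
  ∃ T, S.InHodgeLie Y T ∧ T ≠ 0 ∧ S.Raises Y m T

/-! ## Part C: the new grading -/

/-- G_REG (helper78, from block REG): `blk_REG (hD : D.IsWeil) : Stmt_BAS D → Stmt_REGN D`. -/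
def Stmt_REGN (D : WeilData.{u, v, w, 0} V ℂ) : Prop :=
  ∀ (d : ℕ) (T : D.Fam) (g : D.Regrading), 3 ≤ d → D.MotDer T → D.Diag T → D.Small d T →
    (∀ (X : V) (j : ℕ), g.deg X j = D.rdeg T X j) →
    (D.regrade g).IsWeil ∧ (∀ (X : V) (i : ℕ), i + 2 < d → g.deg X i = D.deg X i) ∧
      ∀ (X : V) (i : ℕ), g.deg X i ≤ ⨆ (j : ℕ) (_ : j % 2 = i % 2), D.deg X j

/-- G_BETTI (130 lines): `blk_BETTI (hD : D.IsWeil) : Stmt_BETTI D`.  With `δ` the degree operator
and `N = δ + 2 T` (see `GRAAux.degOp`, `GRAAux.NOp`, `GRAAux.rdeg_le`, `GRAAux.indep`,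
`GRAAux.sup_top` in `MP_a60482_exo/GRA.lean`): `∑ i² b'_i(Y) = tr (N²) =
tr (δ²) + 4 tr (δ T) + 4 tr (T²)`, `∑ i² b_i(Y) = tr (δ²)`, and
`tr (δ [E, F]) = 0` since `E` commutes with `δ`.  (`LinearMap.trace_eq_sum_trace_restrict`.) -/
def Stmt_BETTI (D : WeilData.{u, v, w, 0} V ℂ) : Prop :=
  ∀ (d : ℕ) (T E F : D.Fam) (g : D.Regrading) (Y : V), 3 ≤ d → D.MotDer T → D.MotDer E →
    D.MotDer F → D.Diag T → D.Small d T → (∀ (X : V) (j : ℕ), g.deg X j = D.rdeg T X j) →
    E Y * F Y - F Y * E Y = T Y → LinearMap.trace ℂ (D.H Y) (T Y * T Y) ≠ 0 →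
    ∃ i, (D.regrade g).betti Y i ≠ D.betti Y i

/-- G_NOHL (150 lines): `blk_NOHL (hD : D.IsWeil) : Stmt_BAS D → Stmt_SYM.{w} → Stmt_NOHL D`.
Let `P a c` (`a, c` integers): there is `v ≠ 0` in `H^a(Y)` with `T v = c v`.  `P a c → P a (-c)`
(SYM for `V = H^a(Y)`).  Hard Lefschetz for the new grading (new degree `a + 2c`; `T l = 0`, so `l`
commutes with `T`) gives `P a c → P (2n - a - 4c) c`.  So
`P a c → P a (-c) → P (2n - a + 4c) (-c) → P (2n - a + 4c) c → P (a - 8c) c`, which is impossible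
for `c ≠ 0`, since `0 ≤ a ≤ 2n` (compare `PosAux.core` in `MP_a60482_exo/Pos.lean`).  And `T Y ≠ 0`
has a nonzero eigenvalue on some `H^a(Y)`. -/
def Stmt_NOHL (D : WeilData.{u, v, w, 0} V ℂ) : Prop :=
  ∀ (d : ℕ) (T E F : D.Fam) (g : D.Regrading) (Y : V), 3 ≤ d → D.MotDer T → D.MotDer E →
    D.MotDer F → D.Diag T → D.Small d T → (∀ (X : V) (j : ℕ), g.deg X j = D.rdeg T X j) →
    (D.regrade g).IsWeil → E Y * F Y - F Y * E Y = T Y →
    T Y * E Y - E Y * T Y = (2 : ℂ) • E Y → T Y * F Y - F Y * T Y = -((2 : ℂ) • F Y) →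
    T Y ≠ 0 → ∀ l ∈ D.C Y 1, ¬ (D.regrade g).HardLefschetz Y l

end Pool.Exo
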