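import Pool.Agent.Work.MP_a60482_ex2.Interface

/-!
# Block G_LIFT: canonical lifts
-/

open CategoryTheory MonoidalCategory CartesianMonoidalCategory

universe u v w x

namespace Pool.Exo

namespace LIFTAux

/-- representation of linear forms by a bilinear form which is nondegenerate on a submodule -/
theorem riesz {E : Type w} [AddCommGroup E] [Module ℂ E] [FiniteDimensional ℂ E]
    (B : E →ₗ[ℂ] E →ₗ[ℂ] ℂ) (M : Submodule ℂ E)
    (h : ∀ m ∈ M, (∀ n ∈ M, B m n = 0) → m = 0) (f : E →ₗ[ℂ] ℂ) :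
    ∃ m ∈ M, ∀ n ∈ M, B m n = f n := by
  let Φ : M →ₗ[ℂ] Module.Dual ℂ M := B.domRestrict₁₂ M M
  have hinj : Function.Injective Φ := by
    rw [injective_iff_map_eq_zero]
    rintro ⟨m, hm⟩ h0
    have h1 : m = 0 := h m hm fun n hn => by
      have h2 := LinearMap.congr_fun h0 ⟨n, hn⟩
      exact h2
    subst h1
    rfl
  have hsurj : Function.Surjective Φ :=
    (LinearMap.injective_iff_surjective_of_finrank_eq_finrank
      (Subspace.dual_finrank_eq (K := ℂ) (V := M)).symm).1 hinj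
  obtain ⟨⟨m, hm⟩, h3⟩ := hsurj (f.domRestrict M)
  refine ⟨m, hm, fun n hn => ?_⟩
  exact LinearMap.congr_fun h3 ⟨n, hn⟩

variable {I : Type u} {W : I → Type w} [∀ i, AddCommGroup (W i)] [∀ i, Module ℂ (W i)]

/-- the trace -/
noncomputable abbrev t (i : I) (A : Module.End ℂ (W i)) : ℂ := LinearMap.trace ℂ (W i) A

/-- the trace form on pairs of operators -/
noncomputable def form (i i' : I) :
    (Module.End ℂ (W i) × Module.End ℂ (W i')) →ₗ[ℂ]
      (Module.End ℂ (W i) × Module.End ℂ (W i')) →ₗ[ℂ] ℂ :=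
  LinearMap.mk₂ ℂ (fun p q => t i (p.1 * q.1) + t i' (p.2 * q.2))
    (fun p p' q => by
      simp only [Prod.fst_add, Prod.snd_add, add_mul, map_add]
      ring)
    (fun c p q => by
      simp only [Prod.smul_fst, Prod.smul_snd, smul_mul_assoc, map_smul, smul_eq_mul]
      ring)
    (fun p q q' => by
      simp only [Prod.fst_add, Prod.snd_add, mul_add, map_add]
      ring)
    (fun c p q => by
      simp only [Prod.smul_fst, Prod.smul_snd, mul_smul_comm, map_smul, smul_eq_mul]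
      ring)

theorem form_apply (i i' : I) (p q : Module.End ℂ (W i) × Module.End ℂ (W i')) :
    form i i' p q = t i (p.1 * q.1) + t i' (p.2 * q.2) := rfl

variable {st : ∀ i, Module.End ℂ (W i) → Module.End ℂ (W i)}
  {G : Set (∀ i, Module.End ℂ (W i))}

theorem st_zero (hs : ∀ i, StarApi (st i)) (i : I) : st i 0 = 0 := by
  have h := (hs i).smul 0 0
  rw [zero_smul, map_zero, zero_smul] at h
  exact h

/-- definiteness -/
theorem pos2 (hs : ∀ i, StarApi (st i)) {i i' : I} {A : Module.End ℂ (W i)}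
    {A' : Module.End ℂ (W i')} (h : t i (A * st i A) + t i' (A' * st i' A') = 0) :
    A = 0 ∧ A' = 0 := by
  obtain ⟨a, ha0, ha1, ha2⟩ := (hs i).pos A
  obtain ⟨a', ha0', ha1', ha2'⟩ := (hs i').pos A'
  have h1 : ((a + a' : ℝ) : ℂ) = 0 := by
    rw [Complex.ofReal_add, ← ha1, ← ha1']
    exact h
  have h2 : a + a' = 0 := by exact_mod_cast h1
  exact ⟨ha2 (by linarith), ha2' (by linarith)⟩

/-- cyclicity: `tr ([Z, A] N) = tr (A [N, Z])` -/
theorem cyc (i : I) (Z A N : Module.End ℂ (W i)) :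
    t i ((Z * A - A * Z) * N) = t i (A * (N * Z - Z * N)) := by
  unfold t
  rw [sub_mul, mul_sub, map_sub, map_sub, ← mul_assoc A N Z, ← mul_assoc A Z N]
  congr 1
  rw [mul_assoc, LinearMap.trace_mul_comm]

/-- cyclicity: `tr ([S, T] N) = tr (S [T, N])` -/
theorem cyc' (i : I) (S T N : Module.End ℂ (W i)) :
    t i ((S * T - T * S) * N) = t i (S * (T * N - N * T)) := by
  unfold t
  rw [sub_mul, mul_sub, map_sub, map_sub, mul_assoc S T N]
  congr 1
  rw [mul_assoc, LinearMap.trace_mul_comm, mul_assoc]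

theorem zero_mem (hG : IsFam st G) {T : ∀ i, Module.End ℂ (W i)} (hT : T ∈ G) :
    (fun _ => 0 : ∀ i, Module.End ℂ (W i)) ∈ G := by
  have h := hG.smul 0 T hT
  have h1 : (fun i => (0 : ℂ) • T i) = (fun _ => 0 : ∀ i, Module.End ℂ (W i)) := by
    funext i
    exact zero_smul ℂ (T i)
  rwa [h1] at h

theorem sub_mem (hG : IsFam st G) {S T : ∀ i, Module.End ℂ (W i)} (hS : S ∈ G) (hT : T ∈ G) :
    (fun i => S i - T i) ∈ G := by
  have h := hG.add S hS _ (hG.smul (-1) T hT)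
  have h1 : (fun i => S i + (-1 : ℂ) • T i) = (fun i => S i - T i) := by
    funext i
    rw [neg_one_smul, sub_eq_add_neg]
  rwa [h1] at h

/-- families orthogonal to the kernel, for the trace form at two places -/
theorem pair (hs : ∀ i, StarApi (st i)) (hG : IsFam st G) (y i i' : I)
    (T : ∀ i, Module.End ℂ (W i)) (hT : T ∈ G) :
    ∃ T' ∈ G, T' y = T y ∧ ∀ N ∈ G, N y = 0 → t i (T' i * N i) + t i' (T' i' * N i') = 0 := by
  have := (hs i).fin
  have := (hs i').fin
  let M : Submodule ℂ (Module.End ℂ (W i) × Module.End ℂ (W i')) :=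
    { carrier := {p | ∃ N ∈ G, N y = 0 ∧ p = (N i, N i')}
      zero_mem' := ⟨fun _ => 0, zero_mem hG hT, rfl, rfl⟩
      add_mem' := by
        rintro p q ⟨N, hN, hN0, rfl⟩ ⟨N', hN', hN0', rfl⟩
        refine ⟨fun i => N i + N' i, hG.add N hN N' hN', ?_, rfl⟩
        show N y + N' y = 0
        rw [hN0, hN0', add_zero]
      smul_mem' := by
        rintro c p ⟨N, hN, hN0, rfl⟩
        refine ⟨fun i => c • N i, hG.smul c N hN, ?_, rfl⟩
        show c • N y = 0
        rw [hN0, smul_zero] }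
  obtain ⟨m, ⟨N, hN, hN0, rfl⟩, hm⟩ := riesz (form i i') M (by
    rintro m ⟨N, hN, hN0, rfl⟩ h
    have h1 := h (st i (N i), st i' (N i')) ⟨fun i => st i (N i), hG.st_mem N hN, by
      show st y (N y) = 0
      rw [hN0, st_zero hs], rfl⟩
    rw [form_apply] at h1
    obtain ⟨h2, h3⟩ := pos2 hs h1
    exact Prod.ext h2 h3) (form i i' (T i, T i'))
  refine ⟨fun i => T i - N i, sub_mem hG hT hN, ?_, fun N' hN' hN0' => ?_⟩
  · show T y - N y = T y
    rw [hN0, sub_zero]
  · have h1 := hm (N' i, N' i') ⟨N', hN', hN0', rfl⟩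
    rw [form_apply, form_apply] at h1
    show t i ((T i - N i) * N' i) + t i' ((T i' - N i') * N' i') = 0
    unfold t at h1 ⊢
    rw [sub_mul, sub_mul, map_sub, map_sub]
    linear_combination -h1

theorem unique (hs : ∀ i, StarApi (st i)) (hG : IsFam st G) {y i : I} {s : Module.End ℂ (W y)}
    {A A' : Module.End ℂ (W i)} (h : IsLift G y i s A) (h' : IsLift G y i s A') : A = A' := by
  obtain ⟨⟨T, hT, rfl, rfl⟩, hA⟩ := h
  obtain ⟨⟨T', hT', h1, rfl⟩, hA'⟩ := h'
  have h2 : (fun i => T i - T' i) ∈ G := sub_mem hG hT hT'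
  have h3 := hG.st_mem _ h2
  have h4 : st y (T y - T' y) = 0 := by rw [h1, sub_self, st_zero hs]
  have h5 := hA _ h3 h4
  have h6 := hA' _ h3 h4
  have h7 : t i ((T i - T' i) * st i (T i - T' i)) + t i ((T i - T' i) * st i (T i - T' i)) = 0 := by
    unfold t
    rw [sub_mul, map_sub, h5, h6, sub_zero, add_zero]
  exact sub_eq_zero.1 (pos2 hs h7).1

theorem comm (hG : IsFam st G) {y i : I} {Z : ∀ i, Module.End ℂ (W i)} (hZ : Z ∈ G)
    {s : Module.End ℂ (W y)} {A : Module.End ℂ (W i)} (h : IsLift G y i s A) :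
    IsLift G y i (Z y * s - s * Z y) (Z i * A - A * Z i) := by
  obtain ⟨⟨T, hT, rfl, rfl⟩, hA⟩ := h
  refine ⟨⟨_, hG.comm Z hZ T hT, rfl, rfl⟩, fun N hN hN0 => ?_⟩
  have h1 := hA _ (hG.comm N hN Z hZ) (by
    show N y * Z y - Z y * N y = 0
    rw [hN0, zero_mul, mul_zero, sub_zero])
  exact (cyc i (Z i) (T i) (N i)).trans h1

end LIFTAux

open LIFTAux in
theorem blk_LIFT : Stmt_STAR.{w} → Stmt_LIFT.{u, w} := by
  intro hST I W _ _ st G hG y
  have hs : ∀ i, StarApi (st i) := fun i => hST (W i) (st i) (hG.star i)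
  refine ⟨?_, fun i s A A' h h' => unique hs hG h h', ?_, ?_, fun Z hZ i s A h => comm hG hZ h,
    ?_, ?_, ?_⟩
  · intro T hT i
    obtain ⟨T', hT', h1, h2⟩ := pair hs hG y i i T hT
    refine ⟨T' i, ⟨T', hT', h1, rfl⟩, fun N hN hN0 => ?_⟩
    have h3 := h2 N hN hN0
    have h4 : (2 : ℂ) * t i (T' i * N i) = 0 := by rw [two_mul]; exact h3
    exact (mul_eq_zero.1 h4).resolve_left two_ne_zero
  · rintro i s s' A A' ⟨⟨T, hT, rfl, rfl⟩, hA⟩ ⟨⟨T', hT', rfl, rfl⟩, hA'⟩
    refine ⟨⟨_, hG.add T hT T' hT', rfl, rfl⟩, fun N hN hN0 => ?_⟩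
    rw [add_mul, map_add, hA N hN hN0, hA' N hN hN0, add_zero]
  · rintro c i s A ⟨⟨T, hT, rfl, rfl⟩, hA⟩
    refine ⟨⟨_, hG.smul c T hT, rfl, rfl⟩, fun N hN hN0 => ?_⟩
    rw [smul_mul_assoc, map_smul, hA N hN hN0, smul_zero]
  · rintro i s A ⟨⟨T, hT, rfl, rfl⟩, hA⟩
    refine ⟨⟨_, hG.st_mem T hT, rfl, rfl⟩, fun N hN hN0 => ?_⟩
    have h1 := hA _ (hG.st_mem N hN) (by
      show st y (N y) = 0
      rw [hN0, st_zero hs])
    have h2 : st i (T i) * N i = st i (st i (N i) * T i) := by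
      rw [(hs i).mul, (hs i).invol]
    rw [h2, (hs i).tr, LinearMap.trace_mul_comm, h1, map_zero]
  · intro T hT
    refine ⟨⟨T, hT, rfl, rfl⟩, fun N hN hN0 => ?_⟩
    rw [hN0, mul_zero, map_zero]
  · intro i i' s u A B A' B' hA hB hA' hB'
    obtain ⟨⟨Zs, hZs, hZs1, hZs2⟩, -⟩ := hA
    obtain ⟨⟨Zt, hZt, hZt1, hZt2⟩, -⟩ := id hB
    obtain ⟨⟨Zs', hZs', hZs1', hZs2'⟩, -⟩ := hA'
    obtain ⟨S, hS, hS1, hS2⟩ := pair hs hG y i i' Zs hZs
    obtain ⟨T, hT, hT1, hT2⟩ := pair hs hG y i i' Zt hZt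
    rw [hZs1] at hS1
    rw [hZt1] at hT1
    have hU : ∀ N ∈ G, N y = 0 → T i * N i - N i * T i = 0 ∧ T i' * N i' - N i' * T i' = 0 := by
      intro N hN hN0
      have hUm := hG.comm T hT N hN
      have hU0 : T y * N y - N y * T y = 0 := by rw [hN0, mul_zero, zero_mul, sub_zero]
      have hUs := hG.st_mem _ hUm
      have hUs0 : st y (T y * N y - N y * T y) = 0 := by rw [hU0, st_zero hs]
      have h1 := hT2 _ (hG.comm N hN _ hUs) (by
        show N y * st y (T y * N y - N y * T y) - st y (T y * N y - N y * T y) * N y = 0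
        rw [hUs0, mul_zero, zero_mul, sub_zero])
      refine pos2 hs ?_
      rw [cyc', cyc']
      exact h1
    have hR := hG.comm S hS T hT
    have hRl : IsLift G y i (s * u - u * s) (S i * T i - T i * S i) := by
      refine ⟨⟨_, hR, ?_, rfl⟩, fun N hN hN0 => ?_⟩
      · show S y * T y - T y * S y = _
        rw [hS1, hT1]
      · have h1 := cyc' i (S i) (T i) (N i)
        rw [(hU N hN hN0).1, mul_zero] at h1
        refine h1.trans ?_
        exact map_zero _
    have hRl' : IsLift G y i' (s * u - u * s) (S i' * T i' - T i' * S i') := by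
      refine ⟨⟨_, hR, ?_, rfl⟩, fun N hN hN0 => ?_⟩
      · show S y * T y - T y * S y = _
        rw [hS1, hT1]
      · have h1 := cyc' i' (S i') (T i') (N i')
        rw [(hU N hN hN0).2, mul_zero] at h1
        refine h1.trans ?_
        exact map_zero _
    refine ⟨_, hR, ?_, ?_, ?_⟩
    · show S y * T y - T y * S y = _
      rw [hS1, hT1]
    · have h1 := comm hG hZs hB
      rw [hZs1, hZs2] at h1
      exact unique hs hG hRl h1
    · have h1 := comm hG hZs' hB'
      rw [hZs1', hZs2'] at h1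
      exact unique hs hG hRl' h1

end Pool.Exo
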