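import Pool.Agent.Work.MP_a60482_ex2.Interface
import Pool.Agent.Work.MP_a60482_exo.RAT
import Pool.Agent.Work.MP_a60482_exo.BAS

/-!
# Block G_RAT: elements of the Hodge Lie algebra extend to natural skew families
-/

open CategoryTheory MonoidalCategory CartesianMonoidalCategory

universe u v w x

namespace Pool.Exo

open Pool.KC

variable {V : Type u} [Category.{v} V] [CartesianMonoidalCategory V]
variable {D : WeilData.{u, v, w, 0} V ℂ} {S : HodgeStr D}
variable {ψ : ∀ X : V, D.H X →ₗ[ℂ] D.H X →ₗ[ℂ] ℂ}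

namespace RATNAux

/-- the Hodge operator is skew for a polarization -/
theorem hodgeOp_skew (h : (toTh S).toHodgeData.HodgeAxioms)
    (hψ : ∀ X, S.IsPolarization X (ψ X)) (X : V) (a b : D.H X) :
    ψ X ((toTh S).toHodgeData.hodgeOp h X a) b +
      ψ X a ((toTh S).toHodgeData.hodgeOp h X b) = 0 := by
  refine HodgeData.hodge_ind h (X := X)
    (p := fun a => ψ X ((toTh S).toHodgeData.hodgeOp h X a) b +
      ψ X a ((toTh S).toHodgeData.hodgeOp h X b) = 0) (fun p q a ha => ?_) (fun a a' h1 h2 => ?_) a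
  · refine HodgeData.hodge_ind h (X := X)
      (p := fun b => ψ X ((toTh S).toHodgeData.hodgeOp h X a) b +
        ψ X a ((toTh S).toHodgeData.hodgeOp h X b) = 0) (fun p' q' b hb => ?_)
        (fun b b' h1 h2 => ?_) b
    · rw [HodgeData.hodgeOp_apply h ha, HodgeData.hodgeOp_apply h hb, map_smul,
        LinearMap.smul_apply, map_smul, smul_eq_mul, smul_eq_mul]
      by_cases e : (p', q') = (q, p)
      · obtain ⟨rfl, rfl⟩ := Prod.mk.inj e
        ring
      · have := (hψ X).types p q p' q' e a ha b hb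
        rw [this, mul_zero, mul_zero, add_zero]
    · simp only [map_add]
      linear_combination h1 + h2
  · simp only [map_add, LinearMap.add_apply]
    linear_combination h1 + h2

variable (hr : (toTh S).RatAxioms) (l : ℂ →ₗ[ℚ] ℚ)

/-- `l (ψ(y, b)) = ψ(l(y), b)` for rational `b` -/
theorem l_left (hψ : ∀ X, S.IsPolarization X (ψ X)) {X : V} {b : D.H X} (hb : b ∈ S.rat X)
    (y : D.H X) : ((l (ψ X y b) : ℚ) : ℂ) = ψ X (RATAux.lx hr l X y) b := by
  refine RATAux.rat_ind hr
    (p := fun y => ((l (ψ X y b) : ℚ) : ℂ) = ψ X (RATAux.lx hr l X y) b) ?_ ?_ y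
  · intro d y hy
    obtain ⟨q, hq⟩ := (hψ X).rat y hy b hb
    have e1 : ψ X (d • y) b = d * q := by
      rw [map_smul, LinearMap.smul_apply, hq, smul_eq_mul]
    have e2 : ψ X (((l d : ℚ) : ℂ) • y) b = (l d : ℚ) * (q : ℂ) := by
      rw [map_smul, LinearMap.smul_apply, hq, smul_eq_mul]
    rw [RATAux.lx_smul hr l X d hy, e1, e2, mul_comm, RATAux.l_mul, Rat.cast_mul, mul_comm]
  · intro y y' h1 h2
    rw [map_add, LinearMap.add_apply, map_add, Rat.cast_add, RATAux.lx_add, map_add,
      LinearMap.add_apply, h1, h2]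

/-- `l (ψ(a, y)) = ψ(a, l(y))` for rational `a` -/
theorem l_right (hψ : ∀ X, S.IsPolarization X (ψ X)) {X : V} {a : D.H X} (ha : a ∈ S.rat X)
    (y : D.H X) : ((l (ψ X a y) : ℚ) : ℂ) = ψ X a (RATAux.lx hr l X y) := by
  refine RATAux.rat_ind hr
    (p := fun y => ((l (ψ X a y) : ℚ) : ℂ) = ψ X a (RATAux.lx hr l X y)) ?_ ?_ y
  · intro d y hy
    obtain ⟨q, hq⟩ := (hψ X).rat a ha y hy
    have e1 : ψ X a (d • y) = d * q := by
      rw [map_smul, hq, smul_eq_mul]
    have e2 : ψ X a (((l d : ℚ) : ℂ) • y) = (l d : ℚ) * (q : ℂ) := by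
      rw [map_smul, hq, smul_eq_mul]
    rw [RATAux.lx_smul hr l X d hy, e1, e2, mul_comm, RATAux.l_mul, Rat.cast_mul, mul_comm]
  · intro y y' h1 h2
    rw [map_add, map_add, Rat.cast_add, RATAux.lx_add, map_add, h1, h2]

/-- the components `l(Θ)` are skew -/
theorem TT_skew (hψ : ∀ X, S.IsPolarization X (ψ X)) {Θ : D.Fam}
    (hΘ : ∀ (X : V) (a b : D.H X), ψ X (Θ X a) b + ψ X a (Θ X b) = 0) (X : V) (a b : D.H X) :
    ψ X (RATAux.TT hr l Θ X a) b + ψ X a (RATAux.TT hr l Θ X b) = 0 := by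
  refine RATAux.rat_ind hr
    (p := fun a => ψ X (RATAux.TT hr l Θ X a) b + ψ X a (RATAux.TT hr l Θ X b) = 0) ?_ ?_ a
  · intro c a ha
    refine RATAux.rat_ind hr
      (p := fun b => ψ X (RATAux.TT hr l Θ X (c • a)) b +
        ψ X (c • a) (RATAux.TT hr l Θ X b) = 0) ?_ ?_ b
    · intro d b hb
      have h1 : ψ X (RATAux.TT hr l Θ X a) b + ψ X a (RATAux.TT hr l Θ X b) = 0 := by
        rw [RATAux.TT_rat hr l Θ X ha, RATAux.TT_rat hr l Θ X hb, ← l_left hr l hψ hb,
          ← l_right hr l hψ ha, ← Rat.cast_add, ← map_add, hΘ, map_zero, Rat.cast_zero]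
      simp only [map_smul, LinearMap.smul_apply, smul_eq_mul]
      linear_combination c * d * h1
    · intro b b' h1 h2
      simp only [map_add] at h1 h2 ⊢
      linear_combination h1 + h2
  · intro a a' h1 h2
    simp only [map_add, LinearMap.add_apply] at h1 h2 ⊢
    linear_combination h1 + h2

/-- operators on `H(Y)` coming from rational natural skew families -/
def gen (S : HodgeStr D) (ψ : ∀ X : V, D.H X →ₗ[ℂ] D.H X →ₗ[ℂ] ℂ) (Y : V) :
    Set (Module.End ℂ (D.H Y)) :=
  {s | ∃ T : D.Fam, IsNat ψ T ∧ (∀ X : V, ∀ x ∈ S.rat X, T X x ∈ S.rat X) ∧ T Y = s}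

theorem isNat_add (hB : Stmt_BAS D) {A B : D.Fam} (hA : IsNat ψ A) (hB' : IsNat ψ B) :
    IsNat ψ (A + B) := by
  refine ⟨hB.2.1 A B hA.mot hB'.mot, fun X a b => ?_⟩
  have e1 := hA.skew X a b
  have e2 := hB'.skew X a b
  simp only [Pi.add_apply, LinearMap.add_apply, map_add]
  linear_combination e1 + e2

theorem isNat_smul (hB : Stmt_BAS D) (c : ℂ) {A : D.Fam} (hA : IsNat ψ A) :
    IsNat ψ (c • A) := by
  refine ⟨hB.2.2.1 c A hA.mot, fun X a b => ?_⟩
  have e1 := hA.skew X a b
  simp only [Pi.smul_apply, LinearMap.smul_apply, map_smul, smul_eq_mul]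
  linear_combination c * e1

theorem isNat_comm (hB : Stmt_BAS D) {A B : D.Fam} (hA : IsNat ψ A) (hB' : IsNat ψ B) :
    IsNat ψ (A * B - B * A) := by
  refine ⟨hB.2.2.2.1 A B hA.mot hB'.mot, fun X a b => ?_⟩
  have e1 := hA.skew X (B X a) b
  have e2 := hB'.skew X (A X a) b
  have e3 := hA.skew X a (B X b)
  have e4 := hB'.skew X a (A X b)
  simp only [Pi.sub_apply, Pi.mul_apply, LinearMap.sub_apply, Module.End.mul_apply, map_sub]
  linear_combination e1 - e2 + e3 - e4

theorem isNat_zero (hB : Stmt_BAS D) : IsNat ψ (0 : D.Fam) := by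
  refine ⟨hB.1, fun X a b => ?_⟩
  simp

end RATNAux

open RATNAux in
theorem blk_RAT (hD : D.IsWeil) (hS : S.IsPolarizable)
    (hψ : ∀ X, S.IsPolarization X (ψ X)) :
    Stmt_HPA (toTh S).toHodgeData (toHodge hS.types) → Stmt_RATN S ψ := by
  rintro ⟨-, -, -, -, -, -, -, -, -, -, hΘ⟩ Y T hT
  have hB : Stmt_BAS D := blk_BAS hD
  have hr : (toTh S).RatAxioms := toRat hS.rat
  -- the span of `gen`
  let L : Submodule ℂ (Module.End ℂ (D.H Y)) := Submodule.span ℂ (gen S ψ Y)
  have hcomm : ∀ s ∈ L, ∀ s' ∈ L, s * s' - s' * s ∈ L := by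
    intro s hs s' hs'
    induction hs using Submodule.span_induction with
    | mem s hs =>
      induction hs' using Submodule.span_induction with
      | mem s' hs' =>
        obtain ⟨A, hA, hAr, rfl⟩ := hs
        obtain ⟨B, hB', hBr, rfl⟩ := hs'
        refine Submodule.subset_span ⟨A * B - B * A, isNat_comm hB hA hB', fun X x hx => ?_, rfl⟩
        exact (S.rat X).sub_mem (hAr X _ (hBr X x hx)) (hBr X _ (hAr X x hx))
      | zero => simp
      | add a b _ _ ha hb =>
        have e : s * (a + b) - (a + b) * s = (s * a - a * s) + (s * b - b * s) := by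
          rw [mul_add, add_mul]; abel
        rw [e]
        exact L.add_mem ha hb
      | smul c a _ ha =>
        have e : s * (c • a) - (c • a) * s = c • (s * a - a * s) := by
          rw [mul_smul_comm, smul_mul_assoc, smul_sub]
        rw [e]
        exact L.smul_mem c ha
    | zero => simp
    | add a b _ _ ha hb =>
      have e : (a + b) * s' - s' * (a + b) = (a * s' - s' * a) + (b * s' - s' * b) := by
        rw [mul_add, add_mul]; abel
      rw [e]
      exact L.add_mem ha hb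
    | smul c a _ ha =>
      have e : (c • a) * s' - s' * (c • a) = c • (a * s' - s' * a) := by
        rw [mul_smul_comm, smul_mul_assoc, smul_sub]
      rw [e]
      exact L.smul_mem c ha
  have hrat : L ≤ Submodule.span ℂ {A | A ∈ L ∧ ∀ x ∈ S.rat Y, A x ∈ S.rat Y} := by
    refine Submodule.span_mono fun s hs => ⟨Submodule.subset_span hs, ?_⟩
    obtain ⟨A, _, hAr, rfl⟩ := hs
    exact hAr Y
  have hhodge : ∀ J : Module.End ℂ (D.H Y),
      (∀ p q : ℕ, ∀ a ∈ S.hodge Y p q, J a = ((p : ℂ) - q) • a) → J ∈ L := by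
    intro J hJ
    have e : J = (toTh S).toHodgeData.hodgeOp (toHodge hS.types) Y := by
      refine LinearMap.ext fun a => ?_
      refine HodgeData.hodge_ind (toHodge hS.types) (X := Y)
        (p := fun a => J a = (toTh S).toHodgeData.hodgeOp (toHodge hS.types) Y a)
        (fun p q a ha => ?_) (fun a b ha hb => ?_) a
      · rw [hJ p q a ha, HodgeData.hodgeOp_apply (toHodge hS.types) ha]
      · rw [map_add, map_add, ha, hb]
    obtain ⟨r, c, l, hl⟩ := RATAux.exists_dual
      (fun ij : Fin (RATAux.rk hr Y) × Fin (RATAux.rk hr Y) =>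
      (RATAux.rb hr Y).repr ((toTh S).toHodgeData.hodgeOp (toHodge hS.types) Y
        (RATAux.rb hr Y ij.2)) ij.1)
    have hs : (toTh S).toHodgeData.hodgeOp (toHodge hS.types) Y =
        ∑ j, c j • RATAux.TT hr (l j) ((toTh S).toHodgeData.hodgeOp (toHodge hS.types)) Y := by
      refine (RATAux.rb hr Y).ext fun k => ?_
      rw [LinearMap.sum_apply]
      have h1 : ∀ j, (c j • RATAux.TT hr (l j)
          ((toTh S).toHodgeData.hodgeOp (toHodge hS.types)) Y) (RATAux.rb hr Y k) =
          ∑ i, (c j * ((l j) ((RATAux.rb hr Y).repr ((toTh S).toHodgeData.hodgeOp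
            (toHodge hS.types) Y (RATAux.rb hr Y k)) i) : ℚ)) • RATAux.rb hr Y i := by
        intro j
        rw [LinearMap.smul_apply, RATAux.TT_rat hr (l j) _ Y (RATAux.rb_mem hr Y k)]
        unfold RATAux.lx
        rw [Finset.smul_sum]
        refine Finset.sum_congr rfl fun i _ => ?_
        rw [smul_smul]
      rw [Finset.sum_congr rfl fun j _ => h1 j, Finset.sum_comm]
      conv_lhs => rw [← (RATAux.rb hr Y).sum_repr ((toTh S).toHodgeData.hodgeOp
        (toHodge hS.types) Y (RATAux.rb hr Y k))]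
      refine Finset.sum_congr rfl fun i _ => ?_
      rw [← Finset.sum_smul]
      congr 1
      exact hl (i, k)
    rw [e, hs]
    refine Submodule.sum_mem _ fun j _ => Submodule.smul_mem _ _ (Submodule.subset_span ?_)
    refine ⟨RATAux.TT hr (l j) ((toTh S).toHodgeData.hodgeOp (toHodge hS.types)),
      ⟨RATAux.TT_mot hr (l j) hΘ, TT_skew hr (l j) hψ (hodgeOp_skew (toHodge hS.types) hψ)⟩,
      fun X x hx => RATAux.TT_mem hr (l j) _ X hx, rfl⟩
  have hTL : T ∈ L := hT L hcomm hrat hhodge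
  have hlift : ∀ s ∈ L, ∃ A : D.Fam, IsNat ψ A ∧ A Y = s := by
    intro s hs
    induction hs using Submodule.span_induction with
    | mem s hs =>
      obtain ⟨A, hA, _, rfl⟩ := hs
      exact ⟨A, hA, rfl⟩
    | zero => exact ⟨0, isNat_zero hB, rfl⟩
    | add a b _ _ ha hb =>
      obtain ⟨A, hA, rfl⟩ := ha
      obtain ⟨B, hB', rfl⟩ := hb
      exact ⟨A + B, isNat_add hB hA hB', rfl⟩
    | smul c a _ ha =>
      obtain ⟨A, hA, rfl⟩ := ha
      exact ⟨c • A, isNat_smul hB c hA, rfl⟩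
  exact hlift T hTL

end Pool.Exo
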