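import Pool.Agent.Work.MP_a60482_ex2.Interface

/-!
# MP_a60482 EXOTIC, general version: block G_SL2
-/

universe w

namespace Pool.Exo

namespace SL2Aux

variable {W : Type w} [AddCommGroup W] [Module ℂ W]
  {st : Module.End ℂ W → Module.End ℂ W}

theorem st_sub (h : StarApi st) (S T : Module.End ℂ W) : st (S - T) = st S - st T := by
  have h1 : S - T = S + (-1 : ℂ) • T := by rw [neg_one_smul, sub_eq_add_neg]
  rw [h1, h.add, h.smul, map_neg, map_one, neg_one_smul, sub_eq_add_neg]

theorem st_comm (h : StarApi st) (S T : Module.End ℂ W) :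
    st (S * T - T * S) = st T * st S - st S * st T := by
  rw [st_sub h, h.mul, h.mul]

/-- the elements of `L` which raise by `z` -/
def rai (L : Submodule ℂ (Module.End ℂ W)) (N : Module.End ℂ W) (z : ℂ) :
    Submodule ℂ (Module.End ℂ W) where
  carrier := {A | A ∈ L ∧ N * A - A * N = z • A}
  add_mem' := by
    rintro A B ⟨h1, h2⟩ ⟨h3, h4⟩
    refine ⟨L.add_mem h1 h3, ?_⟩
    rw [smul_add, ← h2, ← h4, mul_add, add_mul]
    abel
  zero_mem' := ⟨L.zero_mem, by rw [mul_zero, zero_mul, sub_zero, smul_zero]⟩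
  smul_mem' := by
    rintro c A ⟨h1, h2⟩
    refine ⟨L.smul_mem c h1, ?_⟩
    rw [smul_comm, ← h2, mul_smul_comm, smul_mul_assoc, smul_sub]

theorem mem_rai {L : Submodule ℂ (Module.End ℂ W)} {N A : Module.End ℂ W} {z : ℂ} :
    A ∈ rai L N z ↔ A ∈ L ∧ N * A - A * N = z • A := Iff.rfl

/-- the adjoint lowers -/
theorem lower (h : StarApi st) {N X : Module.End ℂ W} (hN : st N = N) {r : ℕ}
    (hX : N * X - X * N = (2 * r : ℂ) • X) :
    N * st X - st X * N = -((2 * r : ℂ) • st X) := by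
  have h1 := congrArg st hX
  rw [st_comm h, h.smul, hN] at h1
  have h2 : (starRingEnd ℂ) (2 * r : ℂ) = 2 * r := by
    rw [map_mul, Complex.conj_natCast, Complex.conj_ofNat]
  rw [h2] at h1
  rw [← h1]
  abel

/-- the operator commutes with the commutator -/
theorem comm_z {N X Y : Module.End ℂ W} {z : ℂ} (h1 : N * X - X * N = z • X)
    (h2 : N * Y - Y * N = -(z • Y)) : N * (X * Y - Y * X) = (X * Y - Y * X) * N := by
  have h3 : N * X = X * N + z • X := by rw [← h1]; abel
  have h4 : N * Y = Y * N - z • Y := by rw [sub_eq_add_neg, ← h2]; abel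
  have h5 : N * (X * Y) = X * Y * N := by
    rw [← mul_assoc, h3, add_mul, mul_assoc, h4, mul_sub, smul_mul_assoc, mul_smul_comm,
      sub_add_cancel, mul_assoc]
  have h6 : N * (Y * X) = Y * X * N := by
    rw [← mul_assoc, h4, sub_mul, mul_assoc, h3, mul_add, smul_mul_assoc, mul_smul_comm,
      add_sub_cancel_right, mul_assoc]
  rw [mul_sub, sub_mul, h5, h6]

theorem raise_z {N X Z : Module.End ℂ W} {z : ℂ} (h1 : N * X - X * N = z • X)
    (h2 : N * Z = Z * N) : N * (Z * X - X * Z) - (Z * X - X * Z) * N = z • (Z * X - X * Z) := by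
  have h3 : N * X = X * N + z • X := by rw [← h1]; abel
  have h5 : N * (Z * X) = Z * X * N + z • (Z * X) := by
    rw [← mul_assoc, h2, mul_assoc, h3, mul_add, mul_smul_comm, mul_assoc]
  have h6 : N * (X * Z) = X * Z * N + z • (X * Z) := by
    rw [← mul_assoc, h3, add_mul, smul_mul_assoc, mul_assoc, h2, mul_assoc]
  rw [mul_sub, sub_mul, h5, h6, smul_sub]
  abel

end SL2Aux

open SL2Aux

theorem blk_SL2 : Stmt_STAR.{w} → Stmt_SLM → Stmt_SL2.{w} := by
  intro hSTAR hSLM W _ _ st hst L hL hLst N hN r hr T hT hT0 hNT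
  have api := hSTAR W st hst
  have hfin := api.fin
  obtain ⟨n, b, hb⟩ := hst
  set φ := LinearMap.toMatrixAlgEquiv b with hφ
  have hφst : ∀ X, φ (st X) = (φ X).conjTranspose := hb
  have hr0 : (2 * r : ℂ) ≠ 0 := by
    have h1 : (r : ℂ) ≠ 0 := Nat.cast_ne_zero.mpr hr.ne'
    exact mul_ne_zero two_ne_zero h1
  set U := rai L N (2 * r : ℂ) with hU
  have hcomm : ∀ X : Module.End ℂ W,
      φ X * (φ X).conjTranspose - (φ X).conjTranspose * φ X = φ (X * st X - st X * X) := by
    intro X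
    rw [map_sub, map_mul, map_mul, hφst]
  obtain ⟨E', hE'U, hE'0, c, hc, hc1⟩ := hSLM n (U.map φ.toLinearMap) (by
      intro h0
      have h1 : φ T ∈ U.map φ.toLinearMap := Submodule.mem_map_of_mem ⟨hT, hNT⟩
      rw [h0, Submodule.mem_bot] at h1
      exact hT0 (φ.injective (by rw [h1, map_zero]))) (by
      rintro _ ⟨X, hX, rfl⟩ h0
      change φ X * (φ X).conjTranspose - (φ X).conjTranspose * φ X = 0 at h0
      change φ X = 0
      rw [hcomm] at h0
      have h1 : X * st X - st X * X = 0 := φ.injective (by rw [h0, map_zero])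
      obtain ⟨t, ht0, ht1, ht2⟩ := api.pos X
      have h2 : (2 * r : ℂ) * LinearMap.trace ℂ W (X * st X) = 0 := by
        have h3 : LinearMap.trace ℂ W ((N * X - X * N) * st X) =
            LinearMap.trace ℂ W (N * (X * st X - st X * X)) := by
          rw [sub_mul, mul_sub, map_sub, map_sub, mul_assoc, mul_assoc X N,
            LinearMap.trace_mul_comm ℂ X, mul_assoc]
        rw [h1, mul_zero, map_zero, hX.2, smul_mul_assoc, map_smul, smul_eq_mul] at h3
        exact h3
      have h3 := (mul_eq_zero.mp h2).resolve_left hr0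
      rw [ht1] at h3
      rw [ht2 (by exact_mod_cast h3), map_zero]) (by
      rintro _ ⟨X, hX, rfl⟩
      change (φ X * (φ X).conjTranspose - (φ X).conjTranspose * φ X) * φ X -
        φ X * (φ X * (φ X).conjTranspose - (φ X).conjTranspose * φ X) ∈ _
      rw [hcomm, ← map_mul, ← map_mul, ← map_sub]
      have hZ : X * st X - st X * X ∈ L := hL X hX.1 (st X) (hLst X hX.1)
      exact Submodule.mem_map_of_mem ⟨hL _ hZ X hX.1,
        raise_z hX.2 (comm_z hX.2 (lower api hN hX.2))⟩)
  obtain ⟨E, hE, rfl⟩ := hE'U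
  change φ E ≠ 0 at hE'0
  have hE0 : E ≠ 0 := fun h => hE'0 (by rw [h, map_zero])
  change (φ E * (φ E).conjTranspose - (φ E).conjTranspose * φ E) * φ E -
    φ E * (φ E * (φ E).conjTranspose - (φ E).conjTranspose * φ E) = (c : ℂ) • φ E at hc1
  rw [hcomm, ← map_mul, ← map_mul, ← map_sub, ← map_smul] at hc1
  have hc2 := φ.injective hc1
  set Z : Module.End ℂ W := E * st E - st E * E with hZ
  have hc0 : (c : ℂ) ≠ 0 := Complex.ofReal_ne_zero.mpr hc.ne'
  have hZL : Z ∈ L := hL E hE.1 (st E) (hLst E hE.1)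
  have hlow := lower api hN hE.2
  have hNZ := comm_z hE.2 hlow
  have hstZ : st Z = Z := by
    rw [hZ, st_comm api, api.invol]
  have hreal : (starRingEnd ℂ) ((2 : ℂ) / c) = 2 / c := by
    rw [map_div₀, Complex.conj_ofNat, Complex.conj_ofReal]
  have hZst : Z * st E - st E * Z = -((c : ℂ) • st E) := by
    have h1 := congrArg st hc2
    rw [st_comm api, api.smul, hstZ, Complex.conj_ofReal] at h1
    rw [← h1]
    abel
  refine ⟨E, hE.1, ((2 : ℂ) / c) • st E, L.smul_mem _ (hLst E hE.1), ((2 : ℂ) / c) • Z,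
    L.smul_mem _ hZL, hE0, ⟨?_, ?_, ?_, ?_, hE.2, ?_⟩, ?_⟩
  · rw [mul_smul_comm, smul_mul_assoc, ← smul_sub]
  · rw [mul_smul_comm, smul_mul_assoc, ← smul_sub, hc2, smul_smul, div_mul_cancel₀ _ hc0]
  · rw [mul_smul_comm, smul_mul_assoc, smul_mul_assoc, mul_smul_comm, ← smul_sub, ← smul_sub,
      hZst, smul_neg, smul_neg, smul_smul, smul_smul, smul_smul]
    congr 2
    field_simp
  · rw [mul_smul_comm, smul_mul_assoc, hNZ, sub_self]
  · rw [mul_smul_comm, smul_mul_assoc, ← smul_sub, hlow, smul_neg, smul_comm]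
  · rw [api.smul, hreal, hstZ]

end Pool.Exo
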