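import Pool.Agent.Work.MP_a60482_ex2.Interface

/-!
# Block G_SLM: a critical point of `‖[X, Xᴴ]‖²` on the unit sphere of `U`
-/

namespace Pool.Exo

namespace SLMAux

open Matrix

variable {n : ℕ}

/-- `[X, Xᴴ]`. -/
noncomputable def cm (X : Matrix (Fin n) (Fin n) ℂ) : Matrix (Fin n) (Fin n) ℂ :=
  X * X.conjTranspose - X.conjTranspose * X

/-- `re tr (X Yᴴ)`. -/
noncomputable def ip (X Y : Matrix (Fin n) (Fin n) ℂ) : ℝ := (trace (X * Y.conjTranspose)).re

theorem ip_self (X : Matrix (Fin n) (Fin n) ℂ) : ip X X = ∑ i, ∑ j, ‖X i j‖ ^ 2 := by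
  unfold ip
  simp only [trace, diag_apply, mul_apply, conjTranspose_apply, Complex.re_sum]
  refine Finset.sum_congr rfl fun i _ => Finset.sum_congr rfl fun j _ => ?_
  rw [Complex.star_def, Complex.mul_conj, Complex.ofReal_re, Complex.normSq_eq_norm_sq]

theorem ip_self_nonneg (X : Matrix (Fin n) (Fin n) ℂ) : 0 ≤ ip X X := by
  rw [ip_self]
  exact Finset.sum_nonneg fun i _ => Finset.sum_nonneg fun j _ => by positivity

theorem eq_zero_of_ip (X : Matrix (Fin n) (Fin n) ℂ) (h : ip X X = 0) : X = 0 := by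
  rw [ip_self] at h
  ext i j
  have h1 := (Finset.sum_eq_zero_iff_of_nonneg
    (fun i _ => Finset.sum_nonneg fun j _ => by positivity)).1 h i (Finset.mem_univ i)
  have h2 := (Finset.sum_eq_zero_iff_of_nonneg (fun j _ => by positivity)).1 h1 j
    (Finset.mem_univ j)
  have h3 : ‖X i j‖ = 0 := by
    exact pow_eq_zero_iff (two_ne_zero) |>.1 h2
  simpa using h3

theorem ip_add_left (X Y Z : Matrix (Fin n) (Fin n) ℂ) : ip (X + Y) Z = ip X Z + ip Y Z := by
  simp [ip, add_mul]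

theorem ip_add_right (X Y Z : Matrix (Fin n) (Fin n) ℂ) : ip X (Y + Z) = ip X Y + ip X Z := by
  simp [ip, mul_add]

theorem ip_sub_left (X Y Z : Matrix (Fin n) (Fin n) ℂ) : ip (X - Y) Z = ip X Z - ip Y Z := by
  simp [ip, sub_mul]

theorem ip_smul_left (t : ℝ) (X Z : Matrix (Fin n) (Fin n) ℂ) :
    ip ((t : ℂ) • X) Z = t * ip X Z := by
  simp [ip]

theorem ip_smul_right (t : ℝ) (X Z : Matrix (Fin n) (Fin n) ℂ) :
    ip X ((t : ℂ) • Z) = t * ip X Z := by
  simp [ip]

theorem ip_comm (X Y : Matrix (Fin n) (Fin n) ℂ) : ip X Y = ip Y X := by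
  unfold ip
  have h : (X * Y.conjTranspose) = (Y * X.conjTranspose).conjTranspose := by
    rw [conjTranspose_mul, conjTranspose_conjTranspose]
  rw [h, trace_conjTranspose]
  simp

theorem cm_herm (X : Matrix (Fin n) (Fin n) ℂ) : (cm X).conjTranspose = cm X := by
  unfold cm
  rw [conjTranspose_sub, conjTranspose_mul, conjTranspose_mul, conjTranspose_conjTranspose]

/-- the mixed term of `[X + t Y, (X + t Y)ᴴ]` -/
noncomputable def mx (X Y : Matrix (Fin n) (Fin n) ℂ) : Matrix (Fin n) (Fin n) ℂ :=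
  (X * Y.conjTranspose - Y.conjTranspose * X) + (Y * X.conjTranspose - X.conjTranspose * Y)

theorem cm_add (X Y : Matrix (Fin n) (Fin n) ℂ) (t : ℝ) :
    cm (X + (t : ℂ) • Y) = cm X + (t : ℂ) • mx X Y + ((t ^ 2 : ℝ) : ℂ) • cm Y := by
  unfold cm mx
  have h : ((t : ℂ) • Y).conjTranspose = (t : ℂ) • Y.conjTranspose := by
    rw [conjTranspose_smul]
    simp
  rw [conjTranspose_add, h]
  simp only [add_mul, mul_add, smul_mul_assoc, mul_smul_comm, smul_add, smul_sub, smul_smul]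
  have h2 : ((t ^ 2 : ℝ) : ℂ) = (t : ℂ) * (t : ℂ) := by
    push_cast
    ring
  rw [h2]
  abel

theorem cm_smul (X : Matrix (Fin n) (Fin n) ℂ) (t : ℝ) :
    cm ((t : ℂ) • X) = ((t ^ 2 : ℝ) : ℂ) • cm X := by
  have h := cm_add (0 : Matrix (Fin n) (Fin n) ℂ) X t
  simpa [cm, mx] using h

/-- `f X = ‖[X, Xᴴ]‖²` -/
noncomputable def f (X : Matrix (Fin n) (Fin n) ℂ) : ℝ := ip (cm X) (cm X)

theorem ip_cm_mx (X Y : Matrix (Fin n) (Fin n) ℂ) :
    ip (cm X) (mx X Y) = 2 * ip (cm X * X - X * cm X) Y := by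
  have hC := cm_herm X
  have hM : (mx X Y).conjTranspose = mx X Y := by
    unfold mx
    rw [conjTranspose_add, conjTranspose_sub, conjTranspose_sub, conjTranspose_mul,
      conjTranspose_mul, conjTranspose_mul, conjTranspose_mul, conjTranspose_conjTranspose,
      conjTranspose_conjTranspose]
    abel
  have h1 : trace (cm X * (X * Y.conjTranspose - Y.conjTranspose * X)) =
      trace ((cm X * X - X * cm X) * Y.conjTranspose) := by
    rw [mul_sub, sub_mul, trace_sub, trace_sub, ← mul_assoc, ← mul_assoc,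
      trace_mul_comm (cm X * Y.conjTranspose) X, ← mul_assoc]
  have h2 : trace (cm X * (Y * X.conjTranspose - X.conjTranspose * Y)) =
      star (trace (cm X * (X * Y.conjTranspose - Y.conjTranspose * X))) := by
    rw [← trace_conjTranspose, conjTranspose_mul, conjTranspose_sub, conjTranspose_mul,
      conjTranspose_mul, conjTranspose_conjTranspose, hC,
      trace_mul_comm (Y * X.conjTranspose - X.conjTranspose * Y) (cm X)]
  unfold ip
  rw [hM]
  unfold mx
  rw [mul_add, trace_add, h2, h1, Complex.add_re, Complex.star_def, Complex.conj_re]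
  ring

theorem lin_zero (a b c d : ℝ) (h : ∀ t : ℝ, 0 ≤ a * t + b * t ^ 2 + c * t ^ 3 + d * t ^ 4) :
    a = 0 := by
  have hd : HasDerivAt (fun t : ℝ => a * t + b * t ^ 2 + c * t ^ 3 + d * t ^ 4) a 0 := by
    have h1 : HasDerivAt (fun t : ℝ => a * t) (a * 1) 0 := (hasDerivAt_id (0 : ℝ)).const_mul a
    have h2 := (hasDerivAt_pow 2 (0 : ℝ)).const_mul b
    have h3 := (hasDerivAt_pow 3 (0 : ℝ)).const_mul c
    have h4 := (hasDerivAt_pow 4 (0 : ℝ)).const_mul d
    have h5 := ((h1.add h2).add h3).add h4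
    have h6 : a * 1 + b * (((2 : ℕ) : ℝ) * 0 ^ (2 - 1)) + c * (((3 : ℕ) : ℝ) * 0 ^ (3 - 1)) +
        d * (((4 : ℕ) : ℝ) * 0 ^ (4 - 1)) = a := by norm_num
    rw [h6] at h5
    exact h5
  have hm : IsLocalMin (fun t : ℝ => a * t + b * t ^ 2 + c * t ^ 3 + d * t ^ 4) 0 := by
    refine Filter.Eventually.of_forall fun t => ?_
    simpa using h t
  exact hm.hasDerivAt_eq_zero hd

theorem continuous_cm : Continuous (cm : Matrix (Fin n) (Fin n) ℂ → _) := by
  unfold cm
  fun_prop

theorem continuous_f : Continuous (f : Matrix (Fin n) (Fin n) ℂ → ℝ) := by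
  unfold f ip
  have h := continuous_cm (n := n)
  exact Complex.continuous_re.comp
    (Continuous.matrix_trace (h.mul (Continuous.matrix_conjTranspose h)))

theorem continuous_q : Continuous (fun X : Matrix (Fin n) (Fin n) ℂ => ip X X) := by
  unfold ip
  exact Complex.continuous_re.comp
    (Continuous.matrix_trace (continuous_id.mul (Continuous.matrix_conjTranspose continuous_id)))

theorem compact_sphere (U : Submodule ℂ (Matrix (Fin n) (Fin n) ℂ)) :
    IsCompact {X : Matrix (Fin n) (Fin n) ℂ | X ∈ U ∧ ip X X = 1} := by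
  have hU : IsClosed (U : Set (Matrix (Fin n) (Fin n) ℂ)) := U.closed_of_finiteDimensional
  have hc : IsClosed {X : Matrix (Fin n) (Fin n) ℂ | X ∈ U ∧ ip X X = 1} :=
    hU.inter (isClosed_eq continuous_q continuous_const)
  have hK : IsCompact (Set.pi Set.univ fun _ : Fin n => Set.pi Set.univ fun _ : Fin n =>
      Metric.closedBall (0 : ℂ) 1) :=
    isCompact_univ_pi fun _ => isCompact_univ_pi fun _ => isCompact_closedBall _ _
  have hK' : IsCompact ((Set.pi Set.univ fun _ : Fin n => Set.pi Set.univ fun _ : Fin n =>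
      Metric.closedBall (0 : ℂ) 1 : Set (Matrix (Fin n) (Fin n) ℂ))) := hK
  refine hK'.of_isClosed_subset hc ?_
  rintro X ⟨-, hX⟩
  rw [Set.mem_pi]
  intro i _
  rw [Set.mem_pi]
  intro j _
  rw [mem_closedBall_zero_iff]
  rw [ip_self] at hX
  have h1 : ‖X i j‖ ^ 2 ≤ 1 := by
    rw [← hX]
    refine le_trans ?_ (Finset.single_le_sum (f := fun i => ∑ j, ‖X i j‖ ^ 2)
      (fun i _ => Finset.sum_nonneg fun j _ => by positivity) (Finset.mem_univ i))
    exact Finset.single_le_sum (f := fun j => ‖X i j‖ ^ 2) (fun j _ => by positivity)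
      (Finset.mem_univ j)
  nlinarith [norm_nonneg (X i j)]

end SLMAux

open SLMAux in
theorem blk_SLM : Stmt_SLM := by
  intro n U hU hN hG
  obtain ⟨X0, hX0U, hX0⟩ := (Submodule.ne_bot_iff U).1 hU
  have scale : ∀ X ∈ U, X ≠ 0 → ∃ s : ℝ, s ^ 2 * ip X X = 1 := by
    intro X _ hX0
    have hpos : 0 < ip X X := lt_of_le_of_ne (ip_self_nonneg X) fun h =>
      hX0 (eq_zero_of_ip X h.symm)
    refine ⟨(Real.sqrt (ip X X))⁻¹, ?_⟩
    rw [inv_pow, Real.sq_sqrt hpos.le, inv_mul_cancel₀ hpos.ne']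
  have qs : ∀ (s : ℝ) (X : Matrix (Fin n) (Fin n) ℂ), ip ((s : ℂ) • X) ((s : ℂ) • X) =
      s ^ 2 * ip X X := by
    intro s X
    rw [ip_smul_left, ip_smul_right]
    ring
  have fs : ∀ (s : ℝ) (X : Matrix (Fin n) (Fin n) ℂ), f ((s : ℂ) • X) = s ^ 4 * f X := by
    intro s X
    unfold f
    rw [cm_smul, ip_smul_left, ip_smul_right]
    ring
  obtain ⟨s0, hs0⟩ := scale X0 hX0U hX0
  obtain ⟨E, ⟨hEU, hE1⟩, hmax⟩ := (compact_sphere U).exists_isMaxOn
    ⟨(s0 : ℂ) • X0, U.smul_mem _ hX0U, by rw [qs, hs0]⟩ continuous_f.continuousOn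
  have hE0 : E ≠ 0 := by
    rintro rfl
    simp [ip] at hE1
  have hle : ∀ X ∈ U, f X ≤ f E * (ip X X) ^ 2 := by
    intro X hX
    by_cases h0 : X = 0
    · subst h0
      simp [f, cm, ip]
    · obtain ⟨s, hs⟩ := scale X hX h0
      have h1 : f ((s : ℂ) • X) ≤ f E := hmax ⟨U.smul_mem _ hX, by rw [qs, hs]⟩
      rw [fs] at h1
      have h2 : f X = (s ^ 4 * f X) * (ip X X) ^ 2 := by
        calc f X = f X * (s ^ 2 * ip X X) ^ 2 := by rw [hs]; ring
          _ = _ := by ring
      rw [h2]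
      exact mul_le_mul_of_nonneg_right h1 (sq_nonneg _)
  have hmpos : 0 < f E := by
    refine lt_of_le_of_ne (ip_self_nonneg _) fun h => ?_
    exact hE0 (hN E hEU (eq_zero_of_ip _ h.symm))
  have key : ∀ D ∈ U, ip (cm E * E - E * cm E) D = f E * ip E D := by
    intro D hD
    have h := lin_zero (4 * f E * ip E D - 2 * (2 * ip (cm E * E - E * cm E) D))
      (f E * (4 * (ip E D) ^ 2 + 2 * ip D D) - (ip (mx E D) (mx E D) + 2 * ip (cm E) (cm D)))
      (f E * (4 * ip E D * ip D D) - 2 * ip (mx E D) (cm D))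
      (f E * (ip D D) ^ 2 - f D) ?_
    · linarith
    · intro t
      have h1 := hle (E + (t : ℂ) • D) (U.add_mem hEU (U.smul_mem _ hD))
      have h2 : ip (E + (t : ℂ) • D) (E + (t : ℂ) • D) = 1 + 2 * t * ip E D + t ^ 2 * ip D D := by
        simp only [ip_add_left, ip_add_right, ip_smul_left, ip_smul_right]
        rw [hE1, ip_comm D E]
        ring
      have h3 : f (E + (t : ℂ) • D) = f E + 2 * t * (2 * ip (cm E * E - E * cm E) D) +
          t ^ 2 * (ip (mx E D) (mx E D) + 2 * ip (cm E) (cm D)) +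
          2 * t ^ 3 * ip (mx E D) (cm D) + t ^ 4 * f D := by
        unfold f
        rw [cm_add]
        simp only [ip_add_left, ip_add_right, ip_smul_left, ip_smul_right]
        rw [ip_comm (mx E D) (cm E), ip_comm (cm D) (cm E), ip_comm (cm D) (mx E D), ip_cm_mx]
        ring
      rw [h2, h3] at h1
      nlinarith [h1]
  refine ⟨E, hEU, hE0, f E, hmpos, ?_⟩
  have hG' : cm E * E - E * cm E ∈ U := hG E hEU
  have hD : (cm E * E - E * cm E) - ((f E : ℝ) : ℂ) • E ∈ U := U.sub_mem hG' (U.smul_mem _ hEU)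
  have h0 := key _ hD
  have h1 : ip ((cm E * E - E * cm E) - ((f E : ℝ) : ℂ) • E)
      ((cm E * E - E * cm E) - ((f E : ℝ) : ℂ) • E) = 0 := by
    rw [ip_sub_left, ip_smul_left, h0, sub_self]
  exact sub_eq_zero.1 (eq_zero_of_ip _ h1)

end Pool.Exo
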