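import Pool.Agent.Work.MP_a60482_ex2.Interface

/-!
# Block G_SPEX: full Hodge groups contain elements of type `(m, -m)`
-/

open CategoryTheory MonoidalCategory CartesianMonoidalCategory

universe u v w x

namespace Pool.Exo

open Pool.KC Pool.KC.WeilData

namespace SPEXAux

section lin

variable {M : Type w} [AddCommGroup M] [Module ℂ M]

theorem mem_of_eig (f : Module.End ℂ M) (L : Submodule ℂ M) (hL : ∀ x ∈ L, f x ∈ L)
    (s : Finset ℤ) : ∀ y : ℤ → M, (∀ μ ∈ s, f (y μ) = (μ : ℂ) • y μ) → ∑ μ ∈ s, y μ ∈ L →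
      ∀ μ ∈ s, y μ ∈ L := by
  induction s using Finset.induction_on with
  | empty => intro y _ _ μ hμ; exact absurd hμ (Finset.notMem_empty μ)
  | insert ν s hν ih =>
    intro y hy hsum
    rw [Finset.sum_insert hν] at hsum
    have h1 : f (y ν + ∑ μ ∈ s, y μ) - (ν : ℂ) • (y ν + ∑ μ ∈ s, y μ) ∈ L :=
      L.sub_mem (hL _ hsum) (L.smul_mem _ hsum)
    have h2 : f (y ν + ∑ μ ∈ s, y μ) - (ν : ℂ) • (y ν + ∑ μ ∈ s, y μ) =
        ∑ μ ∈ s, ((μ : ℂ) - ν) • y μ := by
      rw [map_add, hy ν (Finset.mem_insert_self ν s), map_sum, smul_add, Finset.smul_sum,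
        add_sub_add_left_eq_sub, ← Finset.sum_sub_distrib]
      refine Finset.sum_congr rfl fun μ hμ => ?_
      rw [hy μ (Finset.mem_insert_of_mem hμ), sub_smul]
    rw [h2] at h1
    have h3 := ih (fun μ => ((μ : ℂ) - ν) • y μ) (fun μ hμ => by
      rw [map_smul, hy μ (Finset.mem_insert_of_mem hμ), smul_comm]) h1
    have h4 : ∀ μ ∈ s, y μ ∈ L := by
      intro μ hμ
      have h5 : (μ : ℂ) - ν ≠ 0 := by
        rw [sub_ne_zero]
        intro h
        have : μ = ν := by exact_mod_cast h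
        exact hν (this ▸ hμ)
      exact (L.smul_mem_iff h5).1 (h3 μ hμ)
    intro μ hμ
    rcases Finset.mem_insert.1 hμ with rfl | hμ
    · have h6 := L.sub_mem hsum (L.sum_mem h4)
      rwa [add_sub_cancel_right] at h6
    · exact h4 μ hμ

end lin

variable {V : Type u} [Category.{v} V] [CartesianMonoidalCategory V]
variable {D : WeilData.{u, v, w, 0} V ℂ} {P : HodgeData D} (h : P.HodgeAxioms)

open HodgeData

/-- the projection onto the sum of the `H^{p,q}` with `p - q = w` -/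
noncomputable def E (Y : V) (w : ℤ) : Module.End ℂ (D.H Y) :=
  P.hop h (fun p q => if (p : ℤ) - q = w then 1 else 0) Y

theorem E_same {Y : V} {w : ℤ} {p q : ℕ} (hw : (p : ℤ) - q = w) {a : D.H Y}
    (ha : a ∈ P.hodge Y p q) : E h Y w a = a := by
  unfold E
  rw [hop_apply h _ ha, if_pos hw, one_smul]

theorem E_ne {Y : V} {w : ℤ} {p q : ℕ} (hw : (p : ℤ) - q ≠ w) {a : D.H Y}
    (ha : a ∈ P.hodge Y p q) : E h Y w a = 0 := by
  unfold E
  rw [hop_apply h _ ha, if_neg hw, zero_smul]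

theorem N_E {Y : V} (w : ℤ) (a : D.H Y) : P.hodgeOp h Y (E h Y w a) = (w : ℂ) • E h Y w a := by
  refine hodge_ind h (p := fun a => P.hodgeOp h Y (E h Y w a) = (w : ℂ) • E h Y w a) ?_ ?_ a
  · intro r s a ha
    by_cases hw : (r : ℤ) - s = w
    · rw [E_same h hw ha, hodgeOp_apply h ha, ← hw]
      push_cast
      rfl
    · rw [E_ne h hw ha, map_zero, smul_zero]
  · intro a b ha hb
    rw [map_add, map_add, ha, hb, smul_add]

theorem E_N {Y : V} (w : ℤ) (a : D.H Y) : E h Y w (P.hodgeOp h Y a) = (w : ℂ) • E h Y w a := by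
  refine hodge_ind h (p := fun a => E h Y w (P.hodgeOp h Y a) = (w : ℂ) • E h Y w a) ?_ ?_ a
  · intro r s a ha
    rw [hodgeOp_apply h ha, map_smul]
    by_cases hw : (r : ℤ) - s = w
    · rw [E_same h hw ha, ← hw]
      push_cast
      rfl
    · rw [E_ne h hw ha, smul_zero, smul_zero]
  · intro a b ha hb
    rw [map_add, map_add, map_add, ha, hb, smul_add]

include h in
theorem le_dim (hD : D.IsWeil) {Y : V} {p q : ℕ} {a : D.H Y} (ha : a ∈ P.hodge Y p q)
    (h0 : a ≠ 0) : p + q ≤ 2 * D.dim Y := by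
  by_contra hc
  exact h0 ((toCoh hD).deg_eq_zero (i := p + q) (h.deg Y p q ha) (by
    change 2 * D.dim Y < p + q
    omega))

theorem sum_E (hD : D.IsWeil) {Y : V} (a : D.H Y) :
    ∑ w ∈ Finset.Icc (-(2 * D.dim Y : ℤ)) (2 * D.dim Y : ℤ), E h Y w a = a := by
  refine hodge_ind h
    (p := fun a => ∑ w ∈ Finset.Icc (-(2 * D.dim Y : ℤ)) (2 * D.dim Y : ℤ), E h Y w a = a)
    ?_ ?_ a
  · intro r s a ha
    by_cases h0 : a = 0
    · subst h0
      refine Finset.sum_eq_zero fun w _ => ?_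
      rw [map_zero]
    have h1 := le_dim h hD ha h0
    rw [Finset.sum_eq_single ((r : ℤ) - s)]
    · exact E_same h rfl ha
    · intro w _ hw
      exact E_ne h (Ne.symm hw) ha
    · intro hw
      exfalso
      apply hw
      rw [Finset.mem_Icc]
      constructor <;> omega
  · intro a b ha hb
    simp only [map_add, Finset.sum_add_distrib, ha, hb]

theorem E_deg (hA : Stmt_HPA P h) {Y : V} {k : ℕ} {w : ℤ} {b : D.H Y} (hb : b ∈ D.deg Y k) :
    (∀ r s : ℕ, r + s = k → (r : ℤ) - s = w → E h Y w b ∈ P.hodge Y r s) ∧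
      ((∀ r s : ℕ, r + s = k → (r : ℤ) - s ≠ w) → E h Y w b = 0) := by
  constructor
  · intro r s hk hw
    refine hA.2.2.1 Y k (fun b => E h Y w b ∈ P.hodge Y r s) ?_ ?_ ?_ b hb
    · intro r' s' hk' a ha
      by_cases hw' : (r' : ℤ) - s' = w
      · have h1 : r' = r := by omega
        have h2 : s' = s := by omega
        subst h1 h2
        rw [E_same h hw' ha]
        exact ha
      · rw [E_ne h hw' ha]
        exact zero_mem _
    · intro a b ha hb
      rw [map_add]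
      exact add_mem ha hb
    · rw [map_zero]
      exact zero_mem _
  · intro hn
    refine hA.2.2.1 Y k (fun b => E h Y w b = 0) ?_ ?_ ?_ b hb
    · intro r' s' hk' a ha
      exact E_ne h (hn r' s' hk') ha
    · intro a b ha hb
      rw [map_add, ha, hb, add_zero]
    · rw [map_zero]

/-- the range of the weights -/
noncomputable def R (D : WeilData.{u, v, w, 0} V ℂ) (Y : V) : Finset ℤ :=
  Finset.Icc (-(2 * D.dim Y : ℤ)) (2 * D.dim Y : ℤ)

/-- the component of type `(m, -m)` -/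
noncomputable def comp (Y : V) (T : Module.End ℂ (D.H Y)) (δ : ℤ) : Module.End ℂ (D.H Y) :=
  ∑ c ∈ (R D Y ×ˢ R D Y).filter (fun c => c.2 - c.1 = δ), E h Y c.2 * T * E h Y c.1

theorem sum_comp (hD : D.IsWeil) (Y : V) (T : Module.End ℂ (D.H Y)) :
    ∑ δ ∈ (R D Y ×ˢ R D Y).image (fun c => c.2 - c.1), comp h Y T δ = T := by
  unfold comp
  rw [Finset.sum_fiberwise_of_maps_to (g := fun c : ℤ × ℤ => c.2 - c.1)
    (fun c hc => Finset.mem_image_of_mem _ hc)]
  refine LinearMap.ext fun a => ?_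
  rw [LinearMap.sum_apply, Finset.sum_product]
  have h1 : ∀ w : ℤ, ∑ w' ∈ R D Y, (E h Y w' * T * E h Y w) a = T (E h Y w a) := by
    intro w
    exact sum_E h hD (T (E h Y w a))
  rw [Finset.sum_congr rfl fun w _ => h1 w, ← map_sum]
  unfold R
  rw [sum_E h hD]

theorem comp_mem (hD : D.IsWeil) (Y : V) (T : Module.End ℂ (D.H Y)) (δ : ℤ)
    (L : Submodule ℂ (Module.End ℂ (D.H Y)))
    (hL : ∀ A ∈ L, ∀ B ∈ L, A * B - B * A ∈ L) (hN : P.hodgeOp h Y ∈ L) (hT : T ∈ L) :
    comp h Y T δ ∈ L := by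
  have key : ∀ δ ∈ (R D Y ×ˢ R D Y).image (fun c : ℤ × ℤ => c.2 - c.1), comp h Y T δ ∈ L := by
    refine mem_of_eig (LinearMap.mulLeft ℂ (P.hodgeOp h Y) - LinearMap.mulRight ℂ (P.hodgeOp h Y))
      L (fun A hA => hL _ hN _ hA) _ (comp h Y T) ?_ ?_
    · intro δ _
      unfold comp
      rw [map_sum, Finset.smul_sum]
      refine Finset.sum_congr rfl fun c hc => ?_
      have hc2 := (Finset.mem_filter.1 hc).2
      refine LinearMap.ext fun a => ?_
      change P.hodgeOp h Y (E h Y c.2 (T (E h Y c.1 a))) -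
        E h Y c.2 (T (E h Y c.1 (P.hodgeOp h Y a))) = (δ : ℂ) • E h Y c.2 (T (E h Y c.1 a))
      rw [N_E, E_N, map_smul, map_smul, ← sub_smul, ← hc2]
      push_cast
      rfl
    · rw [sum_comp h hD]
      exact hT
  by_cases hδ : δ ∈ (R D Y ×ˢ R D Y).image (fun c : ℤ × ℤ => c.2 - c.1)
  · exact key δ hδ
  · have : comp h Y T δ = 0 := by
      unfold comp
      rw [Finset.filter_eq_empty_iff.2, Finset.sum_empty]
      intro c hc hc2
      exact hδ (hc2 ▸ Finset.mem_image_of_mem _ hc)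
    rw [this]
    exact zero_mem _

theorem comp_raise (hA : Stmt_HPA P h) (Y : V) (T : Module.End ℂ (D.H Y))
    (hT : ∀ i : ℕ, ∀ a ∈ D.deg Y i, T a ∈ D.deg Y i) (m : ℕ) :
    (∀ p q : ℕ, ∀ a ∈ P.hodge Y p (q + m), comp h Y T (2 * m) a ∈ P.hodge Y (p + m) q) ∧
    ∀ p q : ℕ, q < m → ∀ a ∈ P.hodge Y p q, comp h Y T (2 * m) a = 0 := by
  constructor
  · intro p q a ha
    unfold comp
    rw [LinearMap.sum_apply]
    refine Submodule.sum_mem _ fun c hc => ?_
    have hc2 := (Finset.mem_filter.1 hc).2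
    change E h Y c.2 (T (E h Y c.1 a)) ∈ _
    by_cases hw : ((p : ℕ) : ℤ) - ((q + m : ℕ) : ℤ) = c.1
    · rw [E_same h hw ha]
      refine (E_deg h hA (hT _ a (h.deg Y p (q + m) ha))).1 (p + m) q (by ring) ?_
      push_cast at hw ⊢
      linarith
    · rw [E_ne h hw ha, map_zero, map_zero]
      exact zero_mem _
  · intro p q hq a ha
    unfold comp
    rw [LinearMap.sum_apply]
    refine Finset.sum_eq_zero fun c hc => ?_
    have hc2 := (Finset.mem_filter.1 hc).2
    change E h Y c.2 (T (E h Y c.1 a)) = _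
    by_cases hw : (p : ℤ) - q = c.1
    · rw [E_same h hw ha]
      refine (E_deg h hA (hT _ a (h.deg Y p q ha))).2 ?_
      intro r s hrs hrw
      omega
    · rw [E_ne h hw ha, map_zero, map_zero]

theorem comp_val (hD : D.IsWeil) {Y : V} {T : Module.End ℂ (D.H Y)} {m : ℕ} {b u : D.H Y}
    (hb : b ∈ P.hodge Y 0 m) (hb0 : b ≠ 0) (hu : u ∈ P.hodge Y m 0) (hTb : T b = u) :
    comp h Y T (2 * m) b = u := by
  unfold comp
  rw [LinearMap.sum_apply, Finset.sum_eq_single ((-(m : ℤ), (m : ℤ)) : ℤ × ℤ)]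
  · change E h Y (m : ℤ) (T (E h Y (-(m : ℤ)) b)) = u
    rw [E_same h (by push_cast; ring) hb, hTb, E_same h (by push_cast; ring) hu]
  · intro c hc hcne
    have hc2 := (Finset.mem_filter.1 hc).2
    change E h Y c.2 (T (E h Y c.1 b)) = 0
    by_cases hw : ((0 : ℕ) : ℤ) - (m : ℤ) = c.1
    · exfalso
      apply hcne
      refine Prod.ext ?_ ?_
      · change c.1 = -(m : ℤ)
        rw [← hw]
        push_cast
        ring
      · change c.2 = (m : ℤ)
        push_cast at hw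
        linarith
    · rw [E_ne h hw hb, map_zero, map_zero]
  · intro hc
    exfalso
    apply hc
    have h1 := le_dim h hD hb hb0
    rw [Finset.mem_filter, Finset.mem_product]
    unfold R
    rw [Finset.mem_Icc, Finset.mem_Icc]
    refine ⟨⟨⟨?_, ?_⟩, ?_, ?_⟩, ?_⟩
    · change -(2 * (D.dim Y : ℤ)) ≤ -(m : ℤ)
      omega
    · change -(m : ℤ) ≤ 2 * (D.dim Y : ℤ)
      omega
    · change -(2 * (D.dim Y : ℤ)) ≤ (m : ℤ)
      omega
    · change (m : ℤ) ≤ 2 * (D.dim Y : ℤ)
      omega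
    · change (m : ℤ) - -(m : ℤ) = 2 * (m : ℤ)
      ring

end SPEXAux

open SPEXAux in
/-- Block G_SPEX. -/
theorem blk_SPEX {V : Type u} [Category.{v} V] [CartesianMonoidalCategory V]
    {D : WeilData.{u, v, w, 0} V ℂ} {S : HodgeStr D}
    {ψ : ∀ X : V, D.H X →ₗ[ℂ] D.H X →ₗ[ℂ] ℂ} (hD : D.IsWeil) (hS : S.IsPolarizable)
    (_hψ : ∀ X, S.IsPolarization X (ψ X)) :
    Stmt_HPA (toTh S).toHodgeData (toHodge hS.types) → Stmt_RATN S ψ → Stmt_SPEX S := by
  intro hHPA hRAT Y m φ hφ halt hne hfull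
  set P := (toTh S).toHodgeData with hP
  set h := toHodge hS.types with hh
  obtain ⟨u, hu, hu0⟩ := Submodule.exists_mem_ne_zero_of_ne_bot hne
  have hum : u ∈ D.deg Y m := hS.types.deg Y m 0 hu
  have hskew : ∀ a ∈ D.deg Y m, φ u a + φ a u = 0 := by
    intro a ha
    have h1 := halt (u + a) (add_mem hum ha)
    simp only [map_add, LinearMap.add_apply] at h1
    linear_combination h1 - halt u hum - halt a ha
  obtain ⟨T, hT, hTA⟩ := hfull ((LinearMap.toSpanSingleton ℂ (D.H Y) u) ∘ₗ (φ u))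
    (fun a _ => by
      rw [LinearMap.comp_apply, LinearMap.toSpanSingleton_apply]
      exact Submodule.smul_mem _ _ hum)
    (fun a ha b hb => by
      rw [LinearMap.comp_apply, LinearMap.comp_apply, LinearMap.toSpanSingleton_apply,
        LinearMap.toSpanSingleton_apply, map_smul, LinearMap.smul_apply, map_smul, smul_eq_mul,
        smul_eq_mul]
      linear_combination (φ u b) * hskew a ha)
  obtain ⟨T', hT', hT'Y⟩ := hRAT Y T hT
  have hdeg : ∀ i : ℕ, ∀ a ∈ D.deg Y i, T a ∈ D.deg Y i := by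
    intro i a ha
    rw [← hT'Y]
    exact hT'.mot.deg Y i a ha
  have hb : S.bar Y u ∈ S.hodge Y 0 m := hS.types.bar Y m 0 u hu
  have hbm : S.bar Y u ∈ D.deg Y m := by
    have := hS.types.deg Y 0 m hb
    rwa [Nat.zero_add] at this
  obtain ⟨t, ht0, ht⟩ := hφ.pos m 0 u hu hu0
  have hval : φ u (S.bar Y u) ≠ 0 := by
    intro h0
    rw [h0, mul_zero] at ht
    have : t = 0 := by exact_mod_cast ht.symm
    exact ht0.ne' this
  have hTb : T (S.bar Y u) = φ u (S.bar Y u) • u := by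
    rw [hTA _ hbm, LinearMap.comp_apply, LinearMap.toSpanSingleton_apply]
  have hb0 : S.bar Y u ≠ 0 := by
    intro h0
    rw [h0, map_zero] at hval
    exact hval rfl
  have hc : comp h Y T (2 * m) (S.bar Y u) = φ u (S.bar Y u) • u :=
    comp_val h hD (P := P) hb hb0 (Submodule.smul_mem _ _ hu) hTb
  refine ⟨comp h Y T (2 * m), ?_, ?_, comp_raise h hHPA Y T hdeg m⟩
  · intro L hL1 hL2 hL3
    refine comp_mem h hD Y T (2 * m) L hL1 (hL3 _ fun p q a ha => ?_) (hT L hL1 hL2 hL3)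
    exact HodgeData.hodgeOp_apply h (P := P) ha
  · intro h0
    rw [h0, LinearMap.zero_apply] at hc
    rcases smul_eq_zero.1 hc.symm with h1 | h1
    · exact hval h1
    · exact hu0 h1

end Pool.Exo
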