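import Pool.Agent.Work.MP_a60482_ex2.Interface

/-!
# Block G_STAR
-/

universe u v w x

namespace Pool.Exo

namespace STARAux

variable {W : Type w} [AddCommGroup W] [Module ℂ W] {n : ℕ} (b : Module.Basis (Fin n) ℂ W)

theorem diag_of {T : Module.End ℂ W} (hT : (LinearMap.toMatrix b b T).IsHermitian) :
    ⨆ μ : ℂ, T.eigenspace μ = ⊤ := by
  let Ψ : EuclideanSpace ℂ (Fin n) →ₗ[ℂ] W :=
    b.equivFun.symm.toLinearMap ∘ₗ (WithLp.linearEquiv 2 ℂ (Fin n → ℂ)).toLinearMap
  have hΨ : ∀ v : EuclideanSpace ℂ (Fin n), T (Ψ v) =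
      b.equivFun.symm ((LinearMap.toMatrix b b T).mulVec v.ofLp) := by
    intro v
    apply b.equivFun.injective
    rw [LinearEquiv.apply_symm_apply]
    have h1 := LinearMap.toMatrix_mulVec_repr b b T (Ψ v)
    have h2 : (b.repr (Ψ v) : Fin n → ℂ) = v.ofLp := by
      have : b.equivFun (Ψ v) = v.ofLp := by
        show b.equivFun (b.equivFun.symm _) = _
        rw [LinearEquiv.apply_symm_apply]
        rfl
      exact this
    rw [h2] at h1
    exact h1.symm
  have he : ∀ j, Ψ (hT.eigenvectorBasis j) ∈ T.eigenspace (hT.eigenvalues j : ℂ) := by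
    intro j
    rw [Module.End.mem_eigenspace_iff, hΨ, hT.mulVec_eigenvectorBasis]
    show b.equivFun.symm _ = (hT.eigenvalues j : ℂ) • b.equivFun.symm _
    rw [← map_smul]
    rfl
  rw [eq_top_iff]
  intro w _
  have hs : w = Ψ (WithLp.toLp 2 (b.equivFun w)) := by
    show w = b.equivFun.symm (b.equivFun w)
    rw [LinearEquiv.symm_apply_apply]
  rw [hs, ← hT.eigenvectorBasis.sum_repr (WithLp.toLp 2 (b.equivFun w)), map_sum]
  refine Submodule.sum_mem _ fun j _ => ?_
  rw [map_smul]
  exact Submodule.smul_mem _ _ (Submodule.mem_iSup_of_mem (hT.eigenvalues j : ℂ) (he j))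

end STARAux

open STARAux in
theorem blk_STAR : Stmt_STAR.{w} := by
  rintro W _ _ st ⟨n, b, hb⟩
  have hinj : ∀ S T : Module.End ℂ W, LinearMap.toMatrix b b S = LinearMap.toMatrix b b T →
      S = T := fun S T h => (LinearMap.toMatrix b b).injective h
  have htr : ∀ T : Module.End ℂ W, LinearMap.trace ℂ W T = (LinearMap.toMatrix b b T).trace :=
    fun T => LinearMap.trace_eq_matrix_trace ℂ b T
  refine ⟨Module.Finite.of_basis b, ?_, ?_, ?_, ?_, ?_, ?_, ?_⟩
  · intro S T
    apply hinj
    rw [hb, map_add, map_add, hb, hb, Matrix.conjTranspose_add]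
  · intro c T
    apply hinj
    rw [hb, map_smul, map_smul, hb, Matrix.conjTranspose_smul]
    rfl
  · intro S T
    apply hinj
    rw [hb, LinearMap.toMatrix_mul, LinearMap.toMatrix_mul, hb, hb, Matrix.conjTranspose_mul]
  · intro T
    apply hinj
    rw [hb, hb, Matrix.conjTranspose_conjTranspose]
  · intro T
    rw [htr, htr, hb, Matrix.trace_conjTranspose]
    rfl
  · intro T
    have h1 : LinearMap.trace ℂ W (T * st T) =
        ((∑ i, ∑ j, Complex.normSq (LinearMap.toMatrix b b T i j) : ℝ) : ℂ) := by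
      rw [htr, LinearMap.toMatrix_mul, hb]
      unfold Matrix.trace
      rw [Complex.ofReal_sum]
      refine Finset.sum_congr rfl fun i _ => ?_
      rw [Matrix.diag_apply, Matrix.mul_apply, Complex.ofReal_sum]
      refine Finset.sum_congr rfl fun j _ => ?_
      rw [Matrix.conjTranspose_apply, ← Complex.mul_conj]
      rfl
    refine ⟨_, Finset.sum_nonneg fun i _ => Finset.sum_nonneg fun j _ => Complex.normSq_nonneg _,
      h1, fun h0 => ?_⟩
    apply hinj
    rw [map_zero]
    ext i j
    rw [Finset.sum_eq_zero_iff_of_nonneg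
      (fun i _ => Finset.sum_nonneg fun j _ => Complex.normSq_nonneg _)] at h0
    have h2 := h0 i (Finset.mem_univ i)
    rw [Finset.sum_eq_zero_iff_of_nonneg (fun j _ => Complex.normSq_nonneg _)] at h2
    exact Complex.normSq_eq_zero.1 (h2 j (Finset.mem_univ j))
  · intro T hT
    refine diag_of b ?_
    show (LinearMap.toMatrix b b T).conjTranspose = LinearMap.toMatrix b b T
    rw [← hb, hT]

end Pool.Exo
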