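import Pool.Agent.Work.MP_a60482_ex2.Interface
import Pool.Agent.Work.MP_a60482_exo.CNJ

/-!
# Block G_STR: adjoints for the polarizations
-/

open CategoryTheory MonoidalCategory CartesianMonoidalCategory

universe u v w x

namespace Pool.Exo

open Pool.KC

variable {V : Type u} [Category.{v} V] [CartesianMonoidalCategory V]
variable {D : WeilData.{u, v, w, 0} V ℂ} {S : HodgeStr D}
variable {ψ : ∀ X : V, D.H X →ₗ[ℂ] D.H X →ₗ[ℂ] ℂ}

namespace STRAux

/-- the hermitian form `ψ(C a, bar b)` -/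
noncomputable def hf (h : (toTh S).toHodgeData.HodgeAxioms)
    (ψ : ∀ X : V, D.H X →ₗ[ℂ] D.H X →ₗ[ℂ] ℂ) (X : V) (a b : D.H X) : ℂ :=
  ψ X ((toTh S).toHodgeData.weilOp h X a) (S.bar X b)

variable (h : (toTh S).toHodgeData.HodgeAxioms)

theorem hf_add_left (X : V) (a a' b : D.H X) :
    hf h ψ X (a + a') b = hf h ψ X a b + hf h ψ X a' b := by
  simp only [hf, map_add, LinearMap.add_apply]

theorem hf_smul_left (X : V) (c : ℂ) (a b : D.H X) :
    hf h ψ X (c • a) b = c * hf h ψ X a b := by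
  simp only [hf, map_smul, LinearMap.smul_apply, smul_eq_mul]

theorem hf_add_right (X : V) (a b b' : D.H X) :
    hf h ψ X a (b + b') = hf h ψ X a b + hf h ψ X a b' := by
  simp only [hf, map_add]

theorem hf_smul_right (X : V) (c : ℂ) (a b : D.H X) :
    hf h ψ X a (c • b) = starRingEnd ℂ c * hf h ψ X a b := by
  simp only [hf, LinearMap.map_smulₛₗ, RingHom.id_apply, smul_eq_mul]

/-- different types are orthogonal -/
theorem hf_orth (hS : S.IsPolarizable) (hψ : ∀ X, S.IsPolarization X (ψ X)) {X : V}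
    {p q p' q' : ℕ} (e : (p, q) ≠ (p', q')) {a b : D.H X} (ha : a ∈ S.hodge X p q)
    (hb : b ∈ S.hodge X p' q') : hf h ψ X a b = 0 := by
  unfold hf
  rw [HodgeData.weilOp_apply h ha, map_smul, LinearMap.smul_apply,
    (hψ X).types p q q' p' (fun e' => e (by
      obtain ⟨e1, e2⟩ := Prod.mk.inj e'
      rw [e1, e2])) a ha (S.bar X b) (hS.types.bar X p' q' b hb), smul_zero]

theorem hf_pos1 (hψ : ∀ X, S.IsPolarization X (ψ X)) {X : V}
    {p q : ℕ} {a : D.H X} (ha : a ∈ S.hodge X p q) (h0 : a ≠ 0) :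
    ∃ t : ℝ, 0 < t ∧ hf h ψ X a a = t := by
  obtain ⟨t, ht, e⟩ := (hψ X).pos p q a ha h0
  refine ⟨t, ht, ?_⟩
  unfold hf
  rw [HodgeData.weilOp_apply h ha, map_smul, LinearMap.smul_apply, smul_eq_mul, e]

theorem hf_sum_left (X : V) {ι : Type*} (s : Finset ι) (f : ι → D.H X) (b : D.H X) :
    hf h ψ X (∑ i ∈ s, f i) b = ∑ i ∈ s, hf h ψ X (f i) b := by
  classical
  induction s using Finset.induction_on with
  | empty => simp [hf]
  | insert i s hi ih => rw [Finset.sum_insert hi, Finset.sum_insert hi, hf_add_left, ih]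

theorem hf_sum_right (X : V) {ι : Type*} (s : Finset ι) (f : ι → D.H X) (a : D.H X) :
    hf h ψ X a (∑ i ∈ s, f i) = ∑ i ∈ s, hf h ψ X a (f i) := by
  classical
  induction s using Finset.induction_on with
  | empty => simp [hf]
  | insert i s hi ih => rw [Finset.sum_insert hi, Finset.sum_insert hi, hf_add_right, ih]

theorem hf_pos (hS : S.IsPolarizable) (hψ : ∀ X, S.IsPolarization X (ψ X)) (X : V)
    (a : D.H X) (h0 : a ≠ 0) : ∃ t : ℝ, 0 < t ∧ hf h ψ X a a = t := by
  have h3 : a ∈ ⨆ pq : ℕ × ℕ, S.hodge X pq.1 pq.2 := by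
    rw [(h.internal X).submodule_iSup_eq_top]
    exact Submodule.mem_top
  rw [Submodule.mem_iSup_iff_exists_finsupp] at h3
  obtain ⟨f, hf1, hf2⟩ := h3
  have hf2' : ∑ i ∈ f.support, f i = a := hf2
  have e1 : hf h ψ X a a = ∑ i ∈ f.support, hf h ψ X (f i) (f i) := by
    conv_lhs => rw [← hf2']
    rw [hf_sum_left]
    refine Finset.sum_congr rfl fun i hi => ?_
    rw [hf_sum_right]
    refine Finset.sum_eq_single_of_mem i hi fun j _ hj => ?_
    exact hf_orth h hS hψ (p := i.1) (q := i.2) (p' := j.1) (q' := j.2)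
      (fun e => hj e.symm) (hf1 i) (hf1 j)
  have h4 : ∀ i ∈ f.support, ∃ t : ℝ, 0 < t ∧ hf h ψ X (f i) (f i) = t := fun i hi =>
    hf_pos1 h hψ (hf1 i) (Finsupp.mem_support_iff.1 hi)
  choose! t ht1 ht2 using h4
  refine ⟨∑ i ∈ f.support, t i, ?_, ?_⟩
  · refine Finset.sum_pos ht1 ?_
    rw [Finset.nonempty_iff_ne_empty]
    intro e
    rw [e, Finset.sum_empty] at hf2'
    exact h0 hf2'.symm
  · rw [e1, Complex.ofReal_sum]
    exact Finset.sum_congr rfl ht2

/-- `ψ(C a, C b) = ψ(a, b)` -/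
theorem weil_weil (hψ : ∀ X, S.IsPolarization X (ψ X)) (X : V) (a b : D.H X) :
    ψ X ((toTh S).toHodgeData.weilOp h X a) ((toTh S).toHodgeData.weilOp h X b) =
      ψ X a b := by
  refine HodgeData.hodge_ind h (X := X)
    (p := fun a => ψ X ((toTh S).toHodgeData.weilOp h X a)
      ((toTh S).toHodgeData.weilOp h X b) = ψ X a b) (fun p q a ha => ?_) (fun a a' h1 h2 => ?_) a
  · refine HodgeData.hodge_ind h (X := X)
      (p := fun b => ψ X ((toTh S).toHodgeData.weilOp h X a)
        ((toTh S).toHodgeData.weilOp h X b) = ψ X a b) (fun p' q' b hb => ?_)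
        (fun b b' h1 h2 => ?_) b
    · rw [HodgeData.weilOp_apply h ha, HodgeData.weilOp_apply h hb]
      simp only [map_smul, LinearMap.smul_apply, smul_eq_mul]
      by_cases e : (p', q') = (q, p)
      · obtain ⟨rfl, rfl⟩ := Prod.mk.inj e
        have e1 : (Complex.I ^ q' * (-Complex.I) ^ p') * (Complex.I ^ p' * (-Complex.I) ^ q') =
            1 := by
          have e2 : Complex.I * (-Complex.I) = 1 := by
            rw [mul_neg, Complex.I_mul_I, neg_neg]
          calc (Complex.I ^ q' * (-Complex.I) ^ p') * (Complex.I ^ p' * (-Complex.I) ^ q')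
              = (Complex.I * (-Complex.I)) ^ q' * (Complex.I * (-Complex.I)) ^ p' := by
                rw [mul_pow, mul_pow]; ring
            _ = 1 := by rw [e2, one_pow, one_pow, mul_one]
        linear_combination (ψ X a b) * e1
      · have := (hψ X).types p q p' q' e a ha b hb
        rw [this, mul_zero, mul_zero]
    · simp only [map_add]
      rw [h1, h2]
  · simp only [map_add, LinearMap.add_apply]
    rw [h1, h2]

/-- `conj ψ(a, b) = ψ(bar a, bar b)` -/
theorem conj_psi (hr : (toTh S).RatAxioms) (hψ : ∀ X, S.IsPolarization X (ψ X)) (X : V)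
    (a b : D.H X) : ψ X (S.bar X a) (S.bar X b) = starRingEnd ℂ (ψ X a b) := by
  refine CNJAux.rat_ind hr (X := X)
    (p := fun a => ψ X (S.bar X a) (S.bar X b) = starRingEnd ℂ (ψ X a b))
    (fun c a ha => ?_) (fun a a' h1 h2 => ?_) a
  · refine CNJAux.rat_ind hr (X := X)
      (p := fun b => ψ X (S.bar X (c • a)) (S.bar X b) = starRingEnd ℂ (ψ X (c • a) b))
      (fun d b hb => ?_) (fun b b' h1 h2 => ?_) b
    · obtain ⟨q, hq⟩ := (hψ X).rat a ha b hb
      have ea : S.bar X a = a := hr.bar X a ha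
      have eb : S.bar X b = b := hr.bar X b hb
      rw [LinearMap.map_smulₛₗ (S.bar X), LinearMap.map_smulₛₗ (S.bar X), ea, eb]
      simp only [map_smul, LinearMap.smul_apply, smul_eq_mul, map_mul, hq, map_ratCast]
    · simp only [map_add] at h1 h2 ⊢
      rw [h1, h2]
  · simp only [map_add, LinearMap.add_apply]
    rw [h1, h2]

/-- `C² T = T C²` -/
theorem weil_sq_comm (hA : Stmt_HPA (toTh S).toHodgeData h) {T : D.Fam} (hT : D.MotDer T)
    (X : V) (a : D.H X) :
    (toTh S).toHodgeData.weilOp h X ((toTh S).toHodgeData.weilOp h X (T X a)) =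
      T X ((toTh S).toHodgeData.weilOp h X ((toTh S).toHodgeData.weilOp h X a)) := by
  obtain ⟨-, -, -, -, -, -, -, -, -, h10, -⟩ := hA
  refine HodgeData.hodge_ind h (X := X)
    (p := fun a => (toTh S).toHodgeData.weilOp h X ((toTh S).toHodgeData.weilOp h X (T X a)) =
      T X ((toTh S).toHodgeData.weilOp h X ((toTh S).toHodgeData.weilOp h X a)))
    (fun p q a ha => ?_) (fun a a' h1 h2 => ?_) a
  · have ha' : a ∈ D.deg X (p + q) := h.deg X p q ha
    rw [h10 X (p + q) a ha', h10 X (p + q) _ (hT.deg X (p + q) a ha'), map_smul]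
  · simp only [map_add]
    rw [h1, h2]

/-- the adjoint of `T` is `T^#` -/
theorem adj (hA : Stmt_HPA (toTh S).toHodgeData h) (hc : (toTh S).toHodgeData.ConjAxioms)
    (hψ : ∀ X, S.IsPolarization X (ψ X)) {T : D.Fam} (hT : IsNat ψ T) (X : V) (a b : D.H X) :
    hf h ψ X (T X a) b = hf h ψ X a ((toTh S).toHodgeData.sharp h T X b) := by
  have hcomm := weil_sq_comm h hA hT.mot X
  obtain ⟨-, -, -, -, -, -, h7, h8, h9, -, -⟩ := hA
  set C := (toTh S).toHodgeData.weilOp h X with hC
  set C' := (toTh S).toHodgeData.weilInv h X with hC'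
  have hCC := weil_weil h hψ X
  -- conjugation commutes with the inverse
  have hb' : ∀ z, S.bar X (C' z) = C' (S.bar X z) := by
    intro z
    have e1 : S.bar X (C (C' z)) = C (S.bar X (C' z)) := h9 X (C' z)
    rw [h8] at e1
    rw [e1, h7]
  have hinv : ∀ z, S.bar X (S.bar X z) = z := hc.invol X
  -- the inverse of `C²`
  have hcomm' : ∀ z, C' (C' (T X z)) = T X (C' (C' z)) := by
    intro z
    have e1 := hcomm (C' (C' z))
    rw [h8, h8] at e1
    rw [← e1, h7, h7]
  have e1 : S.bar X ((toTh S).toHodgeData.sharp h T X b) = -(C' (T X (C (S.bar X b)))) := by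
    rw [HodgeData.sharp_apply, map_neg]
    have e2 : S.bar X (C' (S.bar X (T X (S.bar X (C b))))) =
        C' (T X (C (S.bar X b))) := by
      rw [hb', hinv]
      exact congrArg (fun y => C' (T X y)) (h9 X b)
    exact congrArg Neg.neg e2
  unfold hf
  rw [e1, map_neg]
  have e3 : C' (T X (C (S.bar X b))) = C (T X (C' (S.bar X b))) := by
    have e4 := hcomm' (C (S.bar X b))
    rw [h7] at e4
    rw [← e4, h8]
  have e5 : ψ X (C (T X a)) (S.bar X b) = ψ X (T X a) (C' (S.bar X b)) := by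
    rw [← hCC (T X a) (C' (S.bar X b))]
    exact congrArg (ψ X (C (T X a))) (h8 X (S.bar X b)).symm
  rw [e3, hCC, e5]
  linear_combination hT.skew X a (C' (S.bar X b))

/-- `T^#` is skew -/
theorem sharp_skew (hA : Stmt_HPA (toTh S).toHodgeData h)
    (hc : (toTh S).toHodgeData.ConjAxioms) (hr : (toTh S).RatAxioms)
    (hψ : ∀ X, S.IsPolarization X (ψ X)) {T : D.Fam} (hT : IsNat ψ T) (X : V) (a b : D.H X) :
    ψ X ((toTh S).toHodgeData.sharp h T X a) b +
      ψ X a ((toTh S).toHodgeData.sharp h T X b) = 0 := by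
  obtain ⟨-, -, -, -, -, -, -, h8, -, -, -⟩ := hA
  have hCC := weil_weil h hψ X
  have hinv : ∀ z, S.bar X (S.bar X z) = z := hc.invol X
  set C := (toTh S).toHodgeData.weilOp h X with hC
  set C' := (toTh S).toHodgeData.weilInv h X with hC'
  have e0 : ∀ c, (toTh S).toHodgeData.sharp h T X c =
      -(C' (S.bar X (T X (S.bar X (C c))))) := fun c => rfl
  have e1 : ∀ x c, ψ X (C' x) c = ψ X x (C c) := by
    intro x c
    rw [← hCC (C' x) c, h8]
  have e2 : ∀ x c, ψ X c (C' x) = ψ X (C c) x := by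
    intro x c
    rw [← hCC c (C' x), h8]
  rw [e0, e0, map_neg, map_neg, LinearMap.neg_apply, e1, e2]
  have e3 : ψ X (S.bar X (T X (S.bar X (C a)))) (C b) =
      starRingEnd ℂ (ψ X (T X (S.bar X (C a))) (S.bar X (C b))) := by
    rw [← conj_psi hr hψ, hinv]
  have e4 : ψ X (C a) (S.bar X (T X (S.bar X (C b)))) =
      starRingEnd ℂ (ψ X (S.bar X (C a)) (T X (S.bar X (C b)))) := by
    rw [← conj_psi hr hψ, hinv]
  rw [e3, e4, ← neg_add, ← map_add, hT.skew, map_zero, neg_zero]

end STRAux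

open STRAux in
theorem blk_STR (hD : D.IsWeil) (hS : S.IsPolarizable)
    (hψ : ∀ X, S.IsPolarization X (ψ X)) : Stmt_HERM.{w} →
    Stmt_HPA (toTh S).toHodgeData (toHodge hS.types) →
    Stmt_HPB (toTh S).toHodgeData (toHodge hS.types) → Stmt_STR S ψ := by
  intro hH hA hB
  have h : (toTh S).toHodgeData.HodgeAxioms := toHodge hS.types
  have hr : (toTh S).RatAxioms := toRat hS.rat
  have hc : (toTh S).toHodgeData.ConjAxioms := blk_CNJ hD hr h
  have hex : ∀ X : V, ∃ st : Module.End ℂ (D.H X) → Module.End ℂ (D.H X), IsStar st ∧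
      ∀ T T' : Module.End ℂ (D.H X), (∀ a b, hf h ψ X (T a) b = hf h ψ X a (T' b)) →
        st T = T' := by
    intro X
    have : FiniteDimensional ℂ (D.H X) := by
      obtain ⟨n, b, -⟩ := hS.rat.basis X
      exact Module.Finite.of_basis b
    exact hH (D.H X) (hf h ψ X) (hf_add_left h X) (hf_smul_left h X) (hf_add_right h X)
      (hf_smul_right h X) (hf_pos h hS hψ X)
  choose st hst1 hst2 using hex
  refine ⟨st, hst1, fun T hT => ?_, fun X N hN => ?_⟩
  · have e : (fun X => st X (T X)) = (toTh S).toHodgeData.sharp h T := by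
      funext X
      exact hst2 X _ _ (adj h hA hc hψ hT X)
    rw [e]
    exact ⟨hB.2.1 T hT.mot, fun X a b => sharp_skew h hA hc hr hψ hT X a b⟩
  · refine hst2 X N N fun a b => ?_
    refine HodgeData.hodge_ind h (X := X)
      (p := fun a => hf h ψ X (N a) b = hf h ψ X a (N b)) (fun p q a ha => ?_)
      (fun a a' h1 h2 => ?_) a
    · refine HodgeData.hodge_ind h (X := X)
        (p := fun b => hf h ψ X (N a) b = hf h ψ X a (N b)) (fun p' q' b hb => ?_)
        (fun b b' h1 h2 => ?_) b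
      · rw [hN p q a ha, hN p' q' b hb, hf_smul_left, hf_smul_right]
        by_cases e : (p, q) = (p', q')
        · obtain ⟨rfl, rfl⟩ := Prod.mk.inj e
          simp
        · rw [hf_orth h hS hψ e ha hb, mul_zero, mul_zero]
      · rw [map_add, hf_add_right, hf_add_right, h1, h2]
    · rw [map_add, hf_add_left, hf_add_left, h1, h2]

end Pool.Exo
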