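import Pool.Agent.Work.MP_a60482_ex2.Interface

/-!
# Block G_SYM
-/

open CategoryTheory MonoidalCategory CartesianMonoidalCategory

universe u v w x

namespace Pool.Exo

open Pool.KC

namespace SYMAux

variable {W : Type w} [AddCommGroup W] [Module ℂ W]

/-- weights of `E ^ m v` -/
theorem weight_e {E H : Module.End ℂ W} (he : H * E - E * H = (2 : ℂ) • E) {c : ℂ} {v : W}
    (hv : H v = c • v) (m : ℕ) : H ((E ^ m) v) = (c + 2 * m) • (E ^ m) v := by
  induction m with
  | zero => simp [hv]
  | succ m ih =>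
    have h1 : (E ^ (m + 1)) v = E ((E ^ m) v) := by rw [pow_succ']; rfl
    have h2 := LinearMap.congr_fun he ((E ^ m) v)
    simp only [LinearMap.sub_apply, Module.End.mul_apply, LinearMap.smul_apply] at h2
    rw [h1, sub_eq_iff_eq_add.1 h2, ih, map_smul, ← add_smul]
    push_cast
    ring_nf

theorem exists_pow_eq_zero [FiniteDimensional ℂ W] {E H : Module.End ℂ W}
    (he : H * E - E * H = (2 : ℂ) • E) {c : ℂ} {v : W} (hv : H v = c • v) :
    ∃ m, (E ^ m) v = 0 := by
  by_contra hcon
  push Not at hcon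
  have hinj : Function.Injective (fun m : ℕ => c + 2 * (m : ℂ)) := by
    intro a b hab
    have h1 : (2 : ℂ) * a = 2 * b := add_left_cancel hab
    have h2 : (a : ℂ) = b := mul_left_cancel₀ two_ne_zero h1
    exact_mod_cast h2
  have hli : LinearIndependent ℂ (fun m : ℕ => (E ^ m) v) := by
    refine Module.End.eigenvectors_linearIndependent' H (fun m : ℕ => c + 2 * (m : ℂ)) hinj _
      fun m => ?_
    rw [Module.End.hasEigenvector_iff, Module.End.mem_eigenspace_iff]
    exact ⟨weight_e he hv m, hcon m⟩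
  exact Module.Finite.not_linearIndependent_of_infinite _ hli

/-- the case of nonnegative weights -/
theorem nonneg [FiniteDimensional ℂ W] {E F H : Module.End ℂ W} (hef : E * F - F * E = H)
    (he : H * E - E * H = (2 : ℂ) • E) (hf : H * F - F * H = -((2 : ℂ) • F))
    (V : Submodule ℂ W) (hVE : ∀ v ∈ V, E v ∈ V) (hVF : ∀ v ∈ V, F v ∈ V)
    (z : ℕ) (v : W) (hvV : v ∈ V) (hv0 : v ≠ 0) (hv : H v = (z : ℂ) • v) :
    ∃ v' ∈ V, v' ≠ 0 ∧ H v' = -((z : ℂ) • v') := by
  classical
  have hex := exists_pow_eq_zero he hv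
  obtain ⟨m, hm0, hm1⟩ : ∃ m, (E ^ m) v ≠ 0 ∧ (E ^ (m + 1)) v = 0 := by
    have h1 := Nat.find_spec hex
    have h2 : Nat.find hex ≠ 0 := by
      intro h
      rw [h] at h1
      exact hv0 (by simpa using h1)
    refine ⟨Nat.find hex - 1, Nat.find_min hex (by omega), ?_⟩
    rwa [Nat.sub_add_cancel (Nat.one_le_iff_ne_zero.2 h2)]
  obtain ⟨u, hu⟩ : ∃ u, u = (E ^ m) v := ⟨_, rfl⟩
  obtain ⟨n, hn⟩ : ∃ n : ℕ, n = z + 2 * m := ⟨_, rfl⟩
  have hu0 : u ≠ 0 := by rw [hu]; exact hm0
  have hEu : E u = 0 := by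
    rw [hu, ← hm1, pow_succ']
    rfl
  have hHu : H u = (n : ℂ) • u := by
    rw [hu, weight_e he hv m, hn]
    push_cast
    rfl
  have hEpow : ∀ k, (E ^ k) v ∈ V := by
    intro k
    induction k with
    | zero => simpa using hvV
    | succ k ih =>
      rw [pow_succ']
      exact hVE _ ih
  have huV : u ∈ V := by rw [hu]; exact hEpow m
  have hFpow : ∀ k, (F ^ k) u ∈ V := by
    intro k
    induction k with
    | zero => simpa using huV
    | succ k ih =>
      rw [pow_succ']
      exact hVF _ ih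
  have hFs : ∀ k, (F ^ (k + 1)) u = F ((F ^ k) u) := fun k => by rw [pow_succ']; rfl
  have hHF : ∀ k : ℕ, H ((F ^ k) u) = ((n : ℂ) - 2 * k) • (F ^ k) u := by
    intro k
    induction k with
    | zero => simp [hHu]
    | succ k ih =>
      have h2 := LinearMap.congr_fun hf ((F ^ k) u)
      simp only [LinearMap.sub_apply, Module.End.mul_apply, LinearMap.neg_apply,
        LinearMap.smul_apply] at h2
      rw [hFs, sub_eq_iff_eq_add.1 h2, ih, map_smul, ← neg_smul, ← add_smul]
      push_cast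
      ring_nf
  have hEF : ∀ k : ℕ, E ((F ^ (k + 1)) u) = (((k : ℂ) + 1) * (n - k)) • (F ^ k) u := by
    intro k
    induction k with
    | zero =>
      have h3 := LinearMap.congr_fun hef u
      simp only [LinearMap.sub_apply, Module.End.mul_apply, hEu, map_zero, sub_zero] at h3
      have h4 : (F ^ (0 + 1)) u = F u := by simp
      rw [h4, h3, hHu]
      simp
    | succ k ih =>
      have h2 : E ((F ^ (k + 1 + 1)) u) = F (E ((F ^ (k + 1)) u)) + H ((F ^ (k + 1)) u) := by
        have h3 := LinearMap.congr_fun hef ((F ^ (k + 1)) u)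
        simp only [LinearMap.sub_apply, Module.End.mul_apply] at h3
        rw [hFs (k + 1), ← h3]
        abel
      rw [h2, ih, hHF, map_smul, ← hFs, ← add_smul]
      congr 1
      push_cast
      ring
  have hne : ∀ k : ℕ, k ≤ n → (F ^ k) u ≠ 0 := by
    intro k
    induction k with
    | zero => intro _; simpa using hu0
    | succ k ih =>
      intro hk h0
      have h1 := hEF k
      rw [h0, map_zero] at h1
      have h2 : ((k : ℂ) + 1) * (n - k) ≠ 0 := by
        refine mul_ne_zero (Nat.cast_add_one_ne_zero k) ?_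
        rw [sub_ne_zero]
        intro h
        have h3 : n = k := by exact_mod_cast h
        omega
      exact (smul_ne_zero h2 (ih (by omega))) h1.symm
  refine ⟨(F ^ (z + m)) u, hFpow _, hne _ (by omega), ?_⟩
  rw [hHF, ← neg_smul]
  congr 1
  rw [hn]
  push_cast
  ring

end SYMAux

open SYMAux in
theorem blk_SYM : Stmt_SYM.{w} := by
  intro W _ _ _ E F H hef he hf V hVE hVF z v hvV hv0 hv
  rcases le_total 0 z with hz | hz
  · obtain ⟨n, rfl⟩ := Int.eq_ofNat_of_zero_le hz
    have hv' : H v = (n : ℂ) • v := by rw [hv]; norm_cast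
    obtain ⟨v', h1, h2, h3⟩ := nonneg hef he hf V hVE hVF n v hvV hv0 hv'
    refine ⟨v', h1, h2, ?_⟩
    rw [h3]
    norm_cast
  · obtain ⟨n, hn⟩ := Int.eq_ofNat_of_zero_le (neg_nonneg.2 hz)
    have hzn : (z : ℂ) = -(n : ℂ) := by
      have : z = -(n : ℤ) := by omega
      rw [this]
      push_cast
      rfl
    have hv' : (-H) v = (n : ℂ) • v := by
      rw [LinearMap.neg_apply, hv, hzn, neg_smul, neg_neg]
    have h5 : ∀ A : Module.End ℂ W, (-H) * A - A * (-H) = -(H * A - A * H) := by
      intro A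
      rw [neg_mul, mul_neg]
      abel
    obtain ⟨v', h1, h2, h3⟩ := nonneg (E := F) (F := E) (H := -H) (by rw [← hef]; abel)
      (by rw [h5, hf, neg_neg]) (by rw [h5, he]) V hVF hVE n v hvV hv0 hv'
    refine ⟨v', h1, h2, ?_⟩
    rw [LinearMap.neg_apply, neg_inj] at h3
    rw [hzn, neg_smul, neg_neg, h3]

end Pool.Exo
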