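import Pool.Agent.Work.MP_a60482_ex2.FIN
import Pool.Agent.Work.MP_a60482_ex2.STAR
import Pool.Agent.Work.MP_a60482_ex2.HERM
import Pool.Agent.Work.MP_a60482_ex2.SLM
import Pool.Agent.Work.MP_a60482_ex2.SL2
import Pool.Agent.Work.MP_a60482_ex2.SYM
import Pool.Agent.Work.MP_a60482_ex2.LIFT
import Pool.Agent.Work.MP_a60482_ex2.STR
import Pool.Agent.Work.MP_a60482_ex2.RAT
import Pool.Agent.Work.MP_a60482_ex2.SPEX
import Pool.Agent.Work.MP_a60482_ex2.BETTI
import Pool.Agent.Work.MP_a60482_ex2.NOHL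
import Pool.Agent.Work.MP_a60482_exo.Pos

/-!
# The two criteria, without hypotheses on blocks
-/

open CategoryTheory MonoidalCategory CartesianMonoidalCategory

universe u v w x

namespace Pool.Exo

open Pool.KC Pool.KC.WeilData

variable {V : Type u} [Category.{v} V] [CartesianMonoidalCategory V]
variable {D : WeilData.{u, v, w, 0} V ℂ} {S : HodgeStr D}

/-- an element of type `(r, -r)` in the Hodge Lie algebra of `H(Y)` gives an exotic grading -/
theorem crit1 (hD : D.IsWeil) (hS : S.IsPolarizable) (Y : V) (r : ℕ) (hr : 3 ≤ r)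
    (h : S.HasLevel r Y) : Exotic r D Y := by
  obtain ⟨T, hT, hT0, hTr⟩ := h
  have hc : (toTh S).toHodgeData.ConjAxioms := blk_CNJ hD (toRat hS.rat) (toHodge hS.types)
  have hA := blk_HPA hD hc (toHodge hS.types)
  have hPB := blk_HPB hD hc (toHodge hS.types) hA
  exact fin_crit hD hS blk_STAR (blk_SL2 blk_STAR blk_SLM) (blk_LIFT blk_STAR) blk_SYM
    (fun ψ hψ => blk_STR hD hS hψ blk_HERM hA hPB)
    (fun ψ hψ => blk_RAT hD hS hψ hA)
    (blk_BETTI hD) (blk_NOHL hD (blk_BAS hD) blk_SYM) r hr Y T hT hT0 hTr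

/-- the symplectic case -/
theorem crit2 (hD : D.IsWeil) (hS : S.IsPolarizable) (Y : V) (m : ℕ) (h : S.BigSp m Y) :
    S.HasLevel m Y := by
  obtain ⟨h0, ψ0, h1, h2, h3⟩ := h
  choose ψ hψ using hS.pol
  have hc : (toTh S).toHodgeData.ConjAxioms := blk_CNJ hD (toRat hS.rat) (toHodge hS.types)
  have hA := blk_HPA hD hc (toHodge hS.types)
  exact blk_SPEX hD hS hψ hA (blk_RAT hD hS hψ hA) Y m ψ0 h1 h2 h0 h3

end Pool.Exo
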