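import Pool.Agent.Work.MP_a60482_ex2.Interface
import Pool.Agent.Work.MP_a60482_exo.Pos

/-!
# Block G_NOHL: hard Lefschetz fails for the new grading
-/

open CategoryTheory MonoidalCategory CartesianMonoidalCategory

universe u v w x

namespace Pool.Exo

open Pool.KC Pool.KC.WeilData

namespace NOHLAux

variable {V : Type u} [Category.{v} V] [CartesianMonoidalCategory V]
variable {D : WeilData.{u, v, w, 0} V ℂ}

/-- there is an eigenvector of `T` for the eigenvalue `c` in degree `a` -/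
def P (T : D.Fam) (Y : V) (a c : ℤ) : Prop :=
  ∃ i : ℕ, (i : ℤ) = a ∧ ∃ v : D.H Y, v ≠ 0 ∧ v ∈ D.deg Y i ∧ T Y v = (c : ℂ) • v

theorem comm_proj (hD : D.IsWeil) {T : D.Fam} (hT : D.MotDer T) (X : V) (k : ℕ) (a : D.H X) :
    T X ((toCoh hD).proj X k a) = (toCoh hD).proj X k (T X a) := by
  refine (toCoh hD).hind (X := X)
    (P := fun a => T X ((toCoh hD).proj X k a) = (toCoh hD).proj X k (T X a)) ?_ ?_ ?_ a
  · rw [map_zero, map_zero, map_zero]
  · intro i a ha
    have hTa : T X a ∈ (toCoh hD).deg X i := hT.deg X i a ha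
    by_cases hik : i = k
    · subst hik
      rw [(toCoh hD).proj_same ha, (toCoh hD).proj_same hTa]
    · rw [(toCoh hD).proj_ne ha hik, (toCoh hD).proj_ne hTa hik, map_zero]
  · intro a b ha hb
    rw [map_add, map_add, map_add, map_add, ha, hb]

theorem bounds {d : ℕ} (hd : 3 ≤ d) {T : D.Fam} (hs : D.Small d T) {Y : V} {a c : ℤ}
    (h : P T Y a c) : 0 ≤ a ∧ a ≤ 2 * D.dim Y ∧ 0 ≤ a + 2 * c ∧ a + 2 * c ≤ 2 * D.dim Y := by
  obtain ⟨i, hi, v, hv0, hv, hTv⟩ := h
  obtain ⟨m, hm, h1, h2⟩ := hs Y i v hv hv0 (c : ℂ) hTv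
  have hcm : c = m := by exact_mod_cast hm
  subst hcm
  have h3 : (3 : ℤ) * |c| ≤ (d : ℤ) * |c| :=
    mul_le_mul_of_nonneg_right (by exact_mod_cast hd) (abs_nonneg c)
  have h4 := neg_abs_le c
  have h5 := abs_nonneg c
  have h6 := le_abs_self c
  subst hi
  refine ⟨?_, ?_, ?_, ?_⟩ <;> linarith

theorem pow_comm (hBAS : Stmt_BAS D) {T : D.Fam} (hT : D.MotDer T) {Y : V} {l : D.H Y}
    (hl : l ∈ D.C Y 1) (k : ℕ) (x : D.H Y) : T Y (l ^ k * x) = l ^ k * T Y x := by
  have h0 : T Y l = 0 := hT.alg Y 1 l hl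
  induction k generalizing x with
  | zero => rw [pow_zero, one_mul, one_mul]
  | succ k ih =>
    rw [pow_succ', mul_assoc, hBAS.2.2.2.2.1 T hT, h0, zero_mul, zero_add, ih, mul_assoc]

theorem proj_pow (hD : D.IsWeil) {Y : V} {l : D.H Y} (hl : l ∈ D.C Y 1) (k r : ℕ) (x : D.H Y) :
    (toCoh hD).proj Y (2 * k + r) (l ^ k * x) = l ^ k * (toCoh hD).proj Y r x := by
  have hlk : l ^ k ∈ (toCoh hD).deg Y (2 * k) :=
    PosAux.pow_mem (D.R Y).deg (hD.cycle.deg Y 1 hl) k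
  refine (toCoh hD).hind (X := Y)
    (P := fun x => (toCoh hD).proj Y (2 * k + r) (l ^ k * x) =
      l ^ k * (toCoh hD).proj Y r x) ?_ ?_ ?_ x
  · rw [mul_zero, map_zero, map_zero, mul_zero]
  · intro i a ha
    have h1 : l ^ k * a ∈ (toCoh hD).deg Y (2 * k + i) := (toCoh hD).mul_deg hlk ha
    by_cases hir : i = r
    · subst hir
      rw [(toCoh hD).proj_same ha, (toCoh hD).proj_same h1]
    · rw [(toCoh hD).proj_ne ha hir, (toCoh hD).proj_ne h1 (by omega), mul_zero]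
  · intro a b ha hb
    rw [mul_add, map_add, map_add, mul_add, ha, hb]

theorem proj_low (hD : D.IsWeil) {Y : V} {l : D.H Y} (hl : l ∈ D.C Y 1) (k i : ℕ) (hi : i < 2 * k)
    (x : D.H Y) : (toCoh hD).proj Y i (l ^ k * x) = 0 := by
  have hlk : l ^ k ∈ (toCoh hD).deg Y (2 * k) :=
    PosAux.pow_mem (D.R Y).deg (hD.cycle.deg Y 1 hl) k
  refine (toCoh hD).hind (X := Y)
    (P := fun x => (toCoh hD).proj Y i (l ^ k * x) = 0) ?_ ?_ ?_ x
  · rw [mul_zero, map_zero]
  · intro j a ha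
    have h1 : l ^ k * a ∈ (toCoh hD).deg Y (2 * k + j) := (toCoh hD).mul_deg hlk ha
    exact (toCoh hD).proj_ne h1 (by omega)
  · intro a b ha hb
    rw [mul_add, map_add, ha, hb, add_zero]

theorem rdeg_proj (hD : D.IsWeil) {T : D.Fam} {Y : V} {m q : ℕ} {c : ℤ}
    (hmq : (q : ℤ) + 2 * c = m) :
    ∀ u ∈ D.rdeg T Y m, T Y ((toCoh hD).proj Y q u) = (c : ℂ) • (toCoh hD).proj Y q u := by
  intro u hu
  refine Submodule.span_induction
    (p := fun u _ => T Y ((toCoh hD).proj Y q u) = (c : ℂ) • (toCoh hD).proj Y q u)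
    ?_ ?_ ?_ ?_ hu
  · rintro a ⟨k, e, ha, hTa, hk⟩
    by_cases hkq : k = q
    · subst hkq
      have : e = c := by linarith
      subst this
      rw [(toCoh hD).proj_same (i := k) ha, hTa]
    · rw [(toCoh hD).proj_ne (i := k) ha hkq, map_zero, smul_zero]
  · rw [map_zero, map_zero, smul_zero]
  · intro a b _ _ ha hb
    rw [map_add, map_add, ha, hb, smul_add]
  · intro s a _ ha
    rw [map_smul, map_smul, ha, smul_comm]

theorem hl_step (hD : D.IsWeil) (hBAS : Stmt_BAS D) {d : ℕ} (hd : 3 ≤ d) {T : D.Fam}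
    (hT : D.MotDer T) (hs : D.Small d T) {g : D.Regrading}
    (hg : ∀ (X : V) (j : ℕ), g.deg X j = D.rdeg T X j) {Y : V} {l : D.H Y} (hl : l ∈ D.C Y 1)
    (hHL : (D.regrade g).HardLefschetz Y l) {a c : ℤ} (h : P T Y a c) :
    P T Y (2 * D.dim Y - a - 4 * c) c := by
  have hb := bounds hd hs h
  obtain ⟨i, hi, v, hv0, hv, hTv⟩ := h
  subst hi
  obtain ⟨j, hj⟩ := Int.eq_ofNat_of_zero_le hb.2.2.1
  have hvj : v ∈ g.deg Y j := by
    rw [hg]
    exact Submodule.subset_span ⟨i, c, hv, hTv, hj⟩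
  have hHL' : ∀ i k : ℕ, i + k = D.dim Y → (∀ a ∈ g.deg Y i, l ^ k * a = 0 → a = 0) ∧
      ∀ b ∈ g.deg Y (i + 2 * k), ∃ a ∈ g.deg Y i, l ^ k * a = b := hHL
  have hlk : ∀ k, l ^ k ∈ (toCoh hD).deg Y (2 * k) :=
    PosAux.pow_mem (D.R Y).deg (hD.cycle.deg Y 1 hl)
  have hj2 : j ≤ 2 * D.dim Y := by
    have := hb.2.2.2
    omega
  by_cases hjn : j ≤ D.dim Y
  · obtain ⟨k, hk⟩ := Nat.exists_eq_add_of_le hjn
    refine ⟨2 * k + i, ?_, l ^ k * v, fun h0 => hv0 ((hHL' j k hk.symm).1 v hvj h0), ?_, ?_⟩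
    · push_cast [hk]
      omega
    · exact (toCoh hD).mul_deg (hlk k) hv
    · rw [pow_comm hBAS hT hl, hTv, mul_smul_comm]
  · obtain ⟨k, hk⟩ := Nat.exists_eq_add_of_le (le_of_not_ge hjn)
    obtain ⟨m, hm⟩ := Nat.exists_eq_add_of_le (show k ≤ D.dim Y by omega)
    have hmk : m + k = D.dim Y := by omega
    have hjm : j = m + 2 * k := by omega
    rw [hjm] at hvj
    obtain ⟨u, hu, huv⟩ := (hHL' m k hmk).2 v hvj
    rw [hg] at hu
    have hik : 2 * k ≤ i := by
      by_contra hc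
      apply hv0
      have h1 := (toCoh hD).proj_same (X := Y) (i := i) hv
      rw [← huv, proj_low hD hl k i (by omega)] at h1
      rw [← huv, ← h1]
    obtain ⟨q, hq⟩ := Nat.exists_eq_add_of_le hik
    have hqm : (q : ℤ) + 2 * c = m := by omega
    have h1 := rdeg_proj hD hqm u hu
    have h2 : l ^ k * (toCoh hD).proj Y q u = v := by
      rw [← proj_pow hD hl, huv, ← hq]
      exact (toCoh hD).proj_same (X := Y) (i := i) hv
    refine ⟨q, by omega, (toCoh hD).proj Y q u, ?_, (toCoh hD).proj_mem q u, h1⟩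
    intro h0
    rw [h0, mul_zero] at h2
    exact hv0 h2.symm

end NOHLAux

open NOHLAux in
/-- Block G_NOHL. -/
theorem blk_NOHL {V : Type u} [Category.{v} V] [CartesianMonoidalCategory V]
    {D : WeilData.{u, v, w, 0} V ℂ} (hD : D.IsWeil) (hBAS : Stmt_BAS D) (hSYM : Stmt_SYM.{w}) :
    Stmt_NOHL D := by
  intro d T E F g Y hd hT hE hF hdiag hs hg _ hef hhe hhf hT0 l hl hHL
  -- symmetry
  have hsym : ∀ a c : ℤ, P T Y a c → P T Y a (-c) := by
    rintro a c ⟨i, hi, v, hv0, hv, hTv⟩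
    obtain ⟨v', hv', hv0', hTv'⟩ := hSYM (D.H Y) (E Y) (F Y) (T Y) hef hhe hhf (D.deg Y i)
      (fun v hv => hE.deg Y i v hv) (fun v hv => hF.deg Y i v hv) c v hv hv0 hTv
    refine ⟨i, hi, v', hv0', hv', ?_⟩
    rw [hTv', Int.cast_neg, neg_smul]
  have hstep : ∀ a c : ℤ, P T Y a c → P T Y (a - 8 * c) c := by
    intro a c h
    have h1 := hl_step hD hBAS hd hT hs hg hl hHL (hsym a c h)
    have h2 := hsym _ _ h1
    rw [neg_neg] at h2
    have h3 := hl_step hD hBAS hd hT hs hg hl hHL h2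
    have e : 2 * (D.dim Y : ℤ) - (2 * (D.dim Y : ℤ) - a - 4 * -c) - 4 * c = a - 8 * c := by ring
    rwa [e] at h3
  have hzero : ∀ a c : ℤ, P T Y a c → c = 0 := by
    have hpos : ∀ a c : ℤ, 0 < c → ¬ P T Y a c := by
      intro a c hc h
      have hit : ∀ n : ℕ, P T Y (a - 8 * c * n) c := by
        intro n
        induction n with
        | zero => simpa using h
        | succ n ih =>
          have h1 := hstep _ _ ih
          have e : a - 8 * c * (n : ℤ) - 8 * c = a - 8 * c * ((n + 1 : ℕ) : ℤ) := by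
            push_cast; ring
          rwa [e] at h1
      have h0 := bounds hd hs h
      have h1 := (bounds hd hs (hit (a.toNat + 1))).1
      have h2 : ((a.toNat + 1 : ℕ) : ℤ) = a + 1 := by
        push_cast
        rw [Int.toNat_of_nonneg h0.1]
      rw [h2] at h1
      nlinarith
    intro a c h
    by_contra hc
    rcases lt_or_gt_of_ne hc with h1 | h1
    · exact hpos a (-c) (by omega) (hsym a c h)
    · exact hpos a c h1 h
  apply hT0
  refine LinearMap.ext fun x => ?_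
  rw [LinearMap.zero_apply]
  have hx : x ∈ ⨆ μ : ℂ, Module.End.eigenspace (T Y) μ := by
    rw [hdiag Y]; exact Submodule.mem_top
  refine Submodule.iSup_induction (fun μ : ℂ => Module.End.eigenspace (T Y) μ)
    (motive := fun x => T Y x = 0) hx ?_ (map_zero _) (fun a b ha hb => by
      rw [map_add, ha, hb, add_zero])
  intro μ y hy
  rw [Module.End.mem_eigenspace_iff] at hy
  obtain ⟨s, hsum⟩ := (toCoh hD).sum_proj (X := Y) y
  rw [← hsum s (Finset.Subset.refl s), map_sum]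
  refine Finset.sum_eq_zero fun k _ => ?_
  have hbk : (toCoh hD).proj Y k y ∈ D.deg Y k := (toCoh hD).proj_mem k y
  have hTb : T Y ((toCoh hD).proj Y k y) = μ • (toCoh hD).proj Y k y := by
    rw [comm_proj hD hT, hy, map_smul]
  by_cases h0 : (toCoh hD).proj Y k y = 0
  · rw [h0, map_zero]
  obtain ⟨m, hm, -, -⟩ := hs Y k _ hbk h0 μ hTb
  have h1 : m = 0 := hzero k m ⟨k, rfl, _, h0, hbk, by rw [hTb, hm]⟩
  rw [hTb, hm, h1, Int.cast_zero, zero_smul]

end Pool.Exo
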